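import Pool.Agent.H67.PP.Defs

/-!
# Abelian quotients and passage to prime exponents
-/

namespace H67PP

private theorem ABEL_ex_of (x y : Fin 2) :
    Multiplicative.toAdd (ex x (FreeGroup.of y)) = if y = x then (1 : ℤ) else 0 := by
  unfold ex
  rw [FreeGroup.lift_apply_of]
  split_ifs <;> simp

/-- the homomorphism given by `a ↦ s`, `b ↦ t` -/
private def ABEL_hom (q : ℕ) (s t : ZMod q) : F2 →* Multiplicative (ZMod q) :=
  FreeGroup.lift ![Multiplicative.ofAdd s, Multiplicative.ofAdd t]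

private theorem ABEL_hom_apply (q : ℕ) (s t : ZMod q) (c : F2) :
    Multiplicative.toAdd (ABEL_hom q s t c) = s * (e1 c : ZMod q) + t * (e2 c : ZMod q) := by
  induction c using FreeGroup.induction_on with
  | C1 => simp [e1, e2]
  | of x =>
    unfold e1 e2
    rw [ABEL_ex_of, ABEL_ex_of]
    unfold ABEL_hom
    rw [FreeGroup.lift_apply_of]
    fin_cases x <;> simp
  | inv_of x hx =>
    have h1 : e1 (FreeGroup.of x)⁻¹ = - e1 (FreeGroup.of x) := by simp [e1]
    have h2 : e2 (FreeGroup.of x)⁻¹ = - e2 (FreeGroup.of x) := by simp [e2]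
    rw [map_inv, toAdd_inv, hx, h1, h2]
    push_cast
    ring
  | mul x y hx hy =>
    have h1 : e1 (x * y) = e1 x + e1 y := by simp [e1]
    have h2 : e2 (x * y) = e2 x + e2 y := by simp [e2]
    rw [map_mul, toAdd_mul, hx, hy, h1, h2]
    push_cast
    ring

/-- linear algebra: three vectors of pairwise determinant zero have a common annihilator -/
private theorem ABEL_lin (q : ℕ) [Fact q.Prime] (x1 y1 x2 y2 x3 y3 : ZMod q)
    (h12 : x1 * y2 - y1 * x2 = 0) (h23 : x2 * y3 - y2 * x3 = 0) (h31 : x3 * y1 - y3 * x1 = 0) :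
    ∃ s t : ZMod q, (s ≠ 0 ∨ t ≠ 0) ∧ s * x1 + t * y1 = 0 ∧ s * x2 + t * y2 = 0 ∧
      s * x3 + t * y3 = 0 := by
  by_cases h1 : x1 = 0 ∧ y1 = 0
  · by_cases h2 : x2 = 0 ∧ y2 = 0
    · by_cases h3 : x3 = 0 ∧ y3 = 0
      · exact ⟨1, 0, Or.inl one_ne_zero, by simp [h1.1], by simp [h2.1], by simp [h3.1]⟩
      · refine ⟨-y3, x3, ?_, by rw [h1.1, h1.2]; ring, by rw [h2.1, h2.2]; ring, by ring⟩
        by_contra hc
        push Not at hc
        exact h3 ⟨hc.2, neg_eq_zero.mp hc.1⟩
    · refine ⟨-y2, x2, ?_, by rw [h1.1, h1.2]; ring, by ring, by linear_combination h23⟩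
      by_contra hc
      push Not at hc
      exact h2 ⟨hc.2, neg_eq_zero.mp hc.1⟩
  · refine ⟨-y1, x1, ?_, by ring, by linear_combination h12, by linear_combination -h31⟩
    by_contra hc
    push Not at hc
    exact h1 ⟨hc.2, neg_eq_zero.mp hc.1⟩

theorem t_ABEL : S_ABEL := by
  intro u v w l m n q hq h1 h2 h3
  have : Fact q.Prime := ⟨hq⟩
  have c1 := (ZMod.intCast_zmod_eq_zero_iff_dvd _ q).mpr h1
  have c2 := (ZMod.intCast_zmod_eq_zero_iff_dvd _ q).mpr h2
  have c3 := (ZMod.intCast_zmod_eq_zero_iff_dvd _ q).mpr h3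
  push_cast at c1 c2 c3
  obtain ⟨s, t, hst, hu, hv, hw⟩ := ABEL_lin q
    ((l : ZMod q) * e1 u) (l * e2 u) (m * e1 v) (m * e2 v) (n * e1 w) (n * e2 w)
    (by linear_combination c3) (by linear_combination c1) (by linear_combination c2)
  have key : ∀ r ∈ ({u ^ l, v ^ m, w ^ n} : Set F2), ABEL_hom q s t r = 1 := by
    intro r hr
    have hone : ∀ z : Multiplicative (ZMod q), Multiplicative.toAdd z = 0 → z = 1 :=
      fun z hz => hz
    rcases hr with rfl | rfl | rfl
    · apply hone
      rw [map_pow, toAdd_pow, ABEL_hom_apply, nsmul_eq_mul]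
      linear_combination hu
    · apply hone
      rw [map_pow, toAdd_pow, ABEL_hom_apply, nsmul_eq_mul]
      linear_combination hv
    · apply hone
      rw [map_pow, toAdd_pow, ABEL_hom_apply, nsmul_eq_mul]
      linear_combination hw
  let Φ : PG u v w l m n →* Multiplicative (ZMod q) :=
    PresentedGroup.toGroup (rels := ({u ^ l, v ^ m, w ^ n} : Set F2))
      (f := ![Multiplicative.ofAdd s, Multiplicative.ofAdd t]) key
  have hΦ : ∀ y : Fin 2, Φ (PresentedGroup.of y) =
      (![Multiplicative.ofAdd s, Multiplicative.ofAdd t] : Fin 2 → Multiplicative (ZMod q)) y :=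
    fun y => PresentedGroup.toGroup.of key
  refine ⟨Φ.ker, ?_, ?_⟩
  · intro htop
    have hall : ∀ g, Φ g = 1 := fun g => by
      have : g ∈ Φ.ker := by rw [htop]; exact Subgroup.mem_top g
      exact this
    have ha := hall (PresentedGroup.of 0)
    have hb := hall (PresentedGroup.of 1)
    rw [hΦ] at ha hb
    rcases hst with h | h
    · exact h ha
    · exact h hb
  · infer_instance

theorem t_PRIME : S_PRIME := by
  intro u v w l m n l' m' n' hl hm hn
  rintro ⟨H, hH, hfin⟩
  obtain ⟨a, rfl⟩ := hl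
  obtain ⟨b, rfl⟩ := hm
  obtain ⟨c, rfl⟩ := hn
  have hof : (FreeGroup.lift (fun y : Fin 2 =>
      (PresentedGroup.of y : PG u v w l' m' n'))) =
      PresentedGroup.mk ({u ^ l', v ^ m', w ^ n'} : Set F2) := by
    apply FreeGroup.ext_hom
    intro y
    rw [FreeGroup.lift_apply_of]
    rfl
  have hrel : ∀ r ∈ ({u ^ l', v ^ m', w ^ n'} : Set F2),
      PresentedGroup.mk ({u ^ l', v ^ m', w ^ n'} : Set F2) r = 1 := by
    intro r hr
    exact PresentedGroup.one_of_mem hr
  have key : ∀ r ∈ ({u ^ (l' * a), v ^ (m' * b), w ^ (n' * c)} : Set F2),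
      (FreeGroup.lift (fun y : Fin 2 =>
      (PresentedGroup.of y : PG u v w l' m' n'))) r = 1 := by
    intro r hr
    rw [hof]
    rcases hr with rfl | rfl | rfl
    · rw [pow_mul, map_pow, hrel _ (by simp), one_pow]
    · rw [pow_mul, map_pow, hrel _ (by simp), one_pow]
    · rw [pow_mul, map_pow, hrel _ (by simp), one_pow]
  let Φ : PG u v w (l' * a) (m' * b) (n' * c) →* PG u v w l' m' n' :=
    PresentedGroup.toGroup (rels := ({u ^ (l' * a), v ^ (m' * b), w ^ (n' * c)} : Set F2))
      (f := fun y : Fin 2 => (PresentedGroup.of y : PG u v w l' m' n')) key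
  have hsurj : Function.Surjective Φ := by
    intro g
    obtain ⟨z, rfl⟩ := PresentedGroup.mk_surjective _ g
    refine ⟨PresentedGroup.mk _ z, ?_⟩
    have : Φ.comp (PresentedGroup.mk ({u ^ (l' * a), v ^ (m' * b), w ^ (n' * c)} : Set F2)) =
        PresentedGroup.mk ({u ^ l', v ^ m', w ^ n'} : Set F2) := by
      apply FreeGroup.ext_hom
      intro y
      exact PresentedGroup.toGroup.of key
    exact DFunLike.congr_fun this z
  refine ⟨H.comap Φ, ?_, ?_⟩
  · intro htop
    apply hH
    rw [eq_top_iff]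
    intro g _
    obtain ⟨z, rfl⟩ := hsurj g
    have : z ∈ H.comap Φ := by rw [htop]; exact Subgroup.mem_top z
    exact this
  · refine ⟨?_⟩
    rw [Subgroup.index_comap_of_surjective _ hsurj]
    exact hfin.index_ne_zero

end H67PP
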