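import Pool.Agent.H67.PP.Defs

namespace H67PP

private theorem abelb_lin {q : ℕ} [Fact q.Prime] (x1 y1 x2 y2 x3 y3 : ZMod q)
    (h12 : x1 * y2 = y1 * x2) (h13 : x1 * y3 = y1 * x3) (h23 : x2 * y3 = y2 * x3) :
    ∃ s t : ZMod q, (s ≠ 0 ∨ t ≠ 0) ∧ s * x1 + t * y1 = 0 ∧ s * x2 + t * y2 = 0 ∧
      s * x3 + t * y3 = 0 := by
  by_cases a1 : x1 = 0 ∧ y1 = 0
  · by_cases a2 : x2 = 0 ∧ y2 = 0
    · by_cases a3 : x3 = 0 ∧ y3 = 0
      · exact ⟨1, 0, Or.inl one_ne_zero, by simp [a1.1], by simp [a2.1], by simp [a3.1]⟩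
      · refine ⟨-y3, x3, ?_, by simp [a1.1, a1.2], by simp [a2.1, a2.2], by ring⟩
        by_cases hx : x3 = 0
        · left; intro h; exact a3 ⟨hx, neg_eq_zero.1 h⟩
        · right; exact hx
    · refine ⟨-y2, x2, ?_, by simp [a1.1, a1.2], by ring, by linear_combination h23⟩
      by_cases hx : x2 = 0
      · left; intro h; exact a2 ⟨hx, neg_eq_zero.1 h⟩
      · right; exact hx
  · refine ⟨-y1, x1, ?_, by ring, by linear_combination h12, by linear_combination h13⟩
    by_cases hx : x1 = 0
    · left; intro h; exact a1 ⟨hx, neg_eq_zero.1 h⟩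
    · right; exact hx

private theorem abelb_hom {q : ℕ} (s t : ZMod q) (c : F2) :
    (FreeGroup.lift ![Multiplicative.ofAdd s, Multiplicative.ofAdd t] :
      F2 →* Multiplicative (ZMod q)) c =
      Multiplicative.ofAdd (s * (e1 c : ZMod q) + t * (e2 c : ZMod q)) := by
  induction c using FreeGroup.induction_on with
  | C1 => simp [e1, e2]
  | of x =>
    fin_cases x
    · simp [e1, e2, ex]
    · simp [e1, e2, ex]
  | inv_of x ih =>
    rw [map_inv, ih, ← ofAdd_neg]
    congr 1
    simp only [e1, e2, map_inv, toAdd_inv, Int.cast_neg]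
    ring
  | mul x y hx hy =>
    rw [map_mul, hx, hy, ← ofAdd_add]
    congr 1
    simp only [e1, e2, map_mul, toAdd_mul, Int.cast_add]
    ring

theorem t_ABELb : S_ABEL := by
  intro u v w l m n q hq h1 h2 h3
  have : Fact q.Prime := ⟨hq⟩
  have : NeZero q := ⟨hq.ne_zero⟩
  have c1 := (ZMod.intCast_zmod_eq_zero_iff_dvd _ q).2 h1
  have c2 := (ZMod.intCast_zmod_eq_zero_iff_dvd _ q).2 h2
  have c3 := (ZMod.intCast_zmod_eq_zero_iff_dvd _ q).2 h3
  push_cast at c1 c2 c3
  obtain ⟨s, t, hst, k1, k2, k3⟩ := abelb_lin (q := q) (l * (e1 u : ZMod q)) (l * (e2 u : ZMod q))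
    (m * (e1 v : ZMod q)) (m * (e2 v : ZMod q)) (n * (e1 w : ZMod q)) (n * (e2 w : ZMod q))
    (by linear_combination c3) (by linear_combination -c2) (by linear_combination c1)
  set F : F2 →* Multiplicative (ZMod q) :=
    FreeGroup.lift ![Multiplicative.ofAdd s, Multiplicative.ofAdd t] with hF
  have hrel : ∀ r ∈ ({u ^ l, v ^ m, w ^ n} : Set F2), F r = 1 := by
    intro r hr
    simp only [Set.mem_insert_iff, Set.mem_singleton_iff] at hr
    rcases hr with rfl | rfl | rfl
    · rw [map_pow, hF, abelb_hom, ← ofAdd_nsmul, nsmul_eq_mul, ← ofAdd_zero]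
      congr 1
      linear_combination k1
    · rw [map_pow, hF, abelb_hom, ← ofAdd_nsmul, nsmul_eq_mul, ← ofAdd_zero]
      congr 1
      linear_combination k2
    · rw [map_pow, hF, abelb_hom, ← ofAdd_nsmul, nsmul_eq_mul, ← ofAdd_zero]
      congr 1
      linear_combination k3
  have hrel' : ∀ r ∈ ({u ^ l, v ^ m, w ^ n} : Set F2),
      FreeGroup.lift ![Multiplicative.ofAdd s, Multiplicative.ofAdd t] r = 1 := hrel
  set Φ : PG u v w l m n →* Multiplicative (ZMod q) := PresentedGroup.toGroup hrel' with hΦ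
  refine ⟨Φ.ker, ?_, ?_⟩
  · intro htop
    have hall : ∀ x, Φ x = 1 := fun x => by
      have : x ∈ Φ.ker := by rw [htop]; exact Subgroup.mem_top x
      exact this
    rcases hst with hs | ht
    · have := hall (PresentedGroup.of 0)
      rw [hΦ, PresentedGroup.toGroup.of] at this
      apply hs
      simpa using this
    · have := hall (PresentedGroup.of 1)
      rw [hΦ, PresentedGroup.toGroup.of] at this
      apply ht
      simpa using this
  · have : Finite (Multiplicative (ZMod q)) := by
      change Finite (ZMod q); infer_instance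
    exact inferInstance

theorem t_PRIMEb : S_PRIME := by
  intro u v w l m n l' m' n' hl hm hn ⟨H, hH, hfi⟩
  obtain ⟨a, rfl⟩ := hl
  obtain ⟨b, rfl⟩ := hm
  obtain ⟨c, rfl⟩ := hn
  have hrel : ∀ r ∈ ({u ^ (l' * a), v ^ (m' * b), w ^ (n' * c)} : Set F2),
      FreeGroup.lift (fun i : Fin 2 =>
        (PresentedGroup.of i : PG u v w l' m' n')) r = 1 := by
    have hmk : ∀ x : F2, FreeGroup.lift (fun i : Fin 2 =>
        (PresentedGroup.of i : PG u v w l' m' n')) x =
        PresentedGroup.mk ({u ^ l', v ^ m', w ^ n'} : Set F2) x := by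
      intro x
      have : FreeGroup.lift (fun i : Fin 2 => (PresentedGroup.of i : PG u v w l' m' n')) =
        PresentedGroup.mk ({u ^ l', v ^ m', w ^ n'} : Set F2) := by
        ext i; simp [PresentedGroup.of]
      rw [this]
    intro r hr
    simp only [Set.mem_insert_iff, Set.mem_singleton_iff] at hr
    rw [hmk]
    rcases hr with rfl | rfl | rfl
    · rw [pow_mul, map_pow]
      have : PresentedGroup.mk ({u ^ l', v ^ m', w ^ n'} : Set F2) (u ^ l') = 1 :=
        PresentedGroup.one_of_mem (by simp)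
      rw [this, one_pow]
    · rw [pow_mul, map_pow]
      have : PresentedGroup.mk ({u ^ l', v ^ m', w ^ n'} : Set F2) (v ^ m') = 1 :=
        PresentedGroup.one_of_mem (by simp)
      rw [this, one_pow]
    · rw [pow_mul, map_pow]
      have : PresentedGroup.mk ({u ^ l', v ^ m', w ^ n'} : Set F2) (w ^ n') = 1 :=
        PresentedGroup.one_of_mem (by simp)
      rw [this, one_pow]
  set Φ : PG u v w (l' * a) (m' * b) (n' * c) →* PG u v w l' m' n' :=
    PresentedGroup.toGroup hrel with hΦ
  have hsurj : Function.Surjective Φ := by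
    intro y
    induction y using PresentedGroup.induction_on with
    | _ z =>
    refine ⟨PresentedGroup.mk _ z, ?_⟩
    have : Φ.comp (PresentedGroup.mk _) = PresentedGroup.mk ({u ^ l', v ^ m', w ^ n'} : Set F2) := by
      ext i
      change Φ (PresentedGroup.of i) = PresentedGroup.of i
      exact PresentedGroup.toGroup.of hrel
    exact DFunLike.congr_fun this z
  refine ⟨H.comap Φ, ?_, ?_⟩
  · intro htop
    apply hH
    rw [eq_top_iff]
    intro y _
    obtain ⟨x, rfl⟩ := hsurj y
    have : x ∈ H.comap Φ := by rw [htop]; exact Subgroup.mem_top x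
    exact this
  · refine ⟨?_⟩
    rw [Subgroup.index_comap_of_surjective H hsurj]
    exact hfi.index_ne_zero

end H67PP
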