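import Pool.Agent.H67.PP.Defs

/-!
ANG: choice of the angles.
-/

namespace H67PP

theorem ang_aux (l A j : ℤ) (hl : Odd l) (hl0 : 0 < l) (hcop : IsCoprime A l) (hj : 0 < j)
    (hj2 : 2 * j < l) :
    ∃ r : ℤ, 0 < r ∧ r < l ∧ ∃ k : ℤ, A * r - 2 * l * k = 2 * j ∨ A * r - 2 * l * k = -(2 * j) := by
  obtain ⟨u, v, huv⟩ := hcop
  obtain ⟨r, hr⟩ : ∃ r, r = (2 * j * u) % l := ⟨_, rfl⟩
  obtain ⟨w, hw⟩ : ∃ w, w = (2 * j * u) / l := ⟨_, rfl⟩
  have hdiv : l * w + r = 2 * j * u := by rw [hw, hr]; exact Int.mul_ediv_add_emod _ _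
  have hr0 : 0 ≤ r := by rw [hr]; exact Int.emod_nonneg _ hl0.ne'
  have hrl : r < l := by rw [hr]; exact Int.emod_lt_of_pos _ hl0
  obtain ⟨t, ht⟩ : ∃ t, A * r = 2 * j + l * t :=
    ⟨-(2 * j * v) - A * w, by linear_combination (-A) * (-hdiv) - 2 * j * (-huv)⟩
  have hrpos : 0 < r := by
    rcases lt_or_eq_of_le hr0 with h | h
    · exact h
    · exfalso
      rw [← h, mul_zero] at ht
      have h1 : l ∣ 2 * j := ⟨-t, by linear_combination (-1 : ℤ) * ht⟩
      have h2 := Int.le_of_dvd (by omega) h1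
      omega
  rcases Int.even_or_odd t with ⟨k, hk⟩ | ht1
  · exact ⟨r, hrpos, hrl, k, Or.inl (by rw [ht, hk]; ring)⟩
  · have hA : Odd A := by
      by_contra hA
      rw [Int.not_odd_iff_even] at hA
      have h1 : Even (l * t) := by
        have h2 : l * t = A * r - 2 * j := by rw [ht]; ring
        rw [h2]
        exact (hA.mul_right r).sub (even_two_mul j)
      have h3 : Odd (l * t) := hl.mul ht1
      exact (Int.not_even_iff_odd.2 h3) h1
    obtain ⟨k, hk⟩ := hA.sub_odd ht1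
    exact ⟨l - r, by omega, by omega, k, Or.inr (by
      have : A * (l - r) = -(2 * j) + l * (A - t) := by rw [mul_sub, ht]; ring
      rw [this, hk]; ring)⟩

theorem t_ANG : S_ANG := by
  intro l A hl hA
  rcases hl.eq_two_or_odd' with h2 | hodd
  · subst h2
    have hAodd : Odd A := by
      rw [← Int.not_even_iff_odd]
      intro h
      exact hA (by exact_mod_cast h.two_dvd)
    obtain ⟨m, hm⟩ := hAodd
    rcases Int.even_or_odd m with ⟨k, hk⟩ | ⟨k, hk⟩
    · exact ⟨1, 1, by norm_num, by norm_num, ⟨k, Or.inl (by rw [hm, hk]; push_cast; ring)⟩,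
        by norm_num, by norm_num, fun _ => by norm_num⟩
    · exact ⟨1, 1, by norm_num, by norm_num, ⟨k + 1, Or.inr (by rw [hm, hk]; push_cast; ring)⟩,
        by norm_num, by norm_num, fun _ => by norm_num⟩
  · have hl2 : 2 ≤ l := hl.two_le
    have hl3 : 3 ≤ l := by
      rcases hodd with ⟨k, hk⟩; omega
    have hcop : IsCoprime A (l : ℤ) :=
      ((Nat.prime_iff_prime_int.1 hl).coprime_iff_not_dvd.2 hA).symm
    obtain ⟨j, hj⟩ : ∃ j : ℕ, j = (l + 4) / 5 := ⟨_, rfl⟩
    have h5 : l ≤ 5 * j ∧ 5 * j ≤ l + 4 := by omega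
    have h6 : 3 * j ≤ l := by
      by_contra h
      have : l ≤ 5 := by omega
      interval_cases l <;> omega
    have h7 : l ≠ 3 → 3 * j < l := by
      intro h3
      rcases lt_or_eq_of_le h6 with h | h
      · exact h
      · exfalso
        obtain ⟨k, hk⟩ := hodd
        omega
    obtain ⟨r, hr0, hrl, k, hk⟩ := ang_aux l A j (by exact_mod_cast hodd) (by omega) hcop
      (by omega) (by omega)
    refine ⟨r, 2 * j, hr0, hrl, ⟨k, hk⟩, by omega, by omega, fun h => ?_⟩
    have := h7 h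
    omega

end H67PP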