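import Pool.Agent.H67.PP.Defs

/-!
# CONT: continuity of the word map
-/

namespace H67PP

open Quaternion

/-- the unit `i` -/
def CONT_i : ℍ[ℝ] := ⟨0, 1, 0, 0⟩

/-- the unit `j` -/
def CONT_j : ℍ[ℝ] := ⟨0, 0, 1, 0⟩

theorem CONT_i1 : CONT_i.re = 0 := rfl
theorem CONT_i2 : CONT_i.imI = 1 := rfl
theorem CONT_i3 : CONT_i.imJ = 0 := rfl
theorem CONT_i4 : CONT_i.imK = 0 := rfl
theorem CONT_j1 : CONT_j.re = 0 := rfl
theorem CONT_j2 : CONT_j.imI = 0 := rfl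
theorem CONT_j3 : CONT_j.imJ = 1 := rfl
theorem CONT_j4 : CONT_j.imK = 0 := rfl
theorem CONT_gv1 (s : ℝ) : (gv s).re = Real.cos s := rfl
theorem CONT_gv2 (s : ℝ) : (gv s).imI = Real.sin s := rfl
theorem CONT_gv3 (s : ℝ) : (gv s).imJ = 0 := rfl
theorem CONT_gv4 (s : ℝ) : (gv s).imK = 0 := rfl
theorem CONT_hv1 (t f : ℝ) : (hv t f).re = Real.cos t := rfl
theorem CONT_hv2 (t f : ℝ) : (hv t f).imI = Real.sin t * Real.cos f := rfl
theorem CONT_hv3 (t f : ℝ) : (hv t f).imJ = Real.sin t * Real.sin f := rfl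
theorem CONT_hv4 (t f : ℝ) : (hv t f).imK = 0 := rfl

theorem CONT_gv : Continuous (fun p : ℝ × ℝ × ℝ => gv p.1) := by
  have h : (fun p : ℝ × ℝ × ℝ => gv p.1) =
      fun p => Real.cos p.1 • (1 : ℍ[ℝ]) + Real.sin p.1 • CONT_i := by
    funext p
    ext <;> simp [CONT_gv1, CONT_gv2, CONT_gv3, CONT_gv4, CONT_i1, CONT_i2, CONT_i3, CONT_i4]
  rw [h]
  fun_prop

theorem CONT_gv' : Continuous (fun p : ℝ × ℝ × ℝ => star (gv p.1)) := by
  have h : (fun p : ℝ × ℝ × ℝ => star (gv p.1)) =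
      fun p => Real.cos p.1 • (1 : ℍ[ℝ]) + (-Real.sin p.1) • CONT_i := by
    funext p
    ext <;> simp [CONT_gv1, CONT_gv2, CONT_gv3, CONT_gv4, CONT_i1, CONT_i2, CONT_i3, CONT_i4]
  rw [h]
  fun_prop

theorem CONT_hv : Continuous (fun p : ℝ × ℝ × ℝ => hv p.2.1 p.2.2) := by
  have h : (fun p : ℝ × ℝ × ℝ => hv p.2.1 p.2.2) =
      fun p => Real.cos p.2.1 • (1 : ℍ[ℝ]) +
        (Real.sin p.2.1 * Real.cos p.2.2) • CONT_i +
        (Real.sin p.2.1 * Real.sin p.2.2) • CONT_j := by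
    funext p
    ext <;> simp [CONT_hv1, CONT_hv2, CONT_hv3, CONT_hv4, CONT_i1, CONT_i2,
      CONT_i3, CONT_i4, CONT_j1, CONT_j2, CONT_j3, CONT_j4]
  rw [h]
  fun_prop

theorem CONT_hv' : Continuous (fun p : ℝ × ℝ × ℝ => star (hv p.2.1 p.2.2)) := by
  have h : (fun p : ℝ × ℝ × ℝ => star (hv p.2.1 p.2.2)) =
      fun p => Real.cos p.2.1 • (1 : ℍ[ℝ]) +
        (-(Real.sin p.2.1 * Real.cos p.2.2)) • CONT_i +
        (-(Real.sin p.2.1 * Real.sin p.2.2)) • CONT_j := by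
    funext p
    ext <;> simp [CONT_hv1, CONT_hv2, CONT_hv3, CONT_hv4, CONT_i1, CONT_i2,
      CONT_i3, CONT_i4, CONT_j1, CONT_j2, CONT_j3, CONT_j4]
  rw [h]
  fun_prop

theorem CONT_word (c : F2) :
    Continuous (fun p : ℝ × ℝ × ℝ => (((rho p.1 p.2.1 p.2.2) c : ℍ[ℝ]ˣ) : ℍ[ℝ])) ∧
    Continuous (fun p : ℝ × ℝ × ℝ => ((((rho p.1 p.2.1 p.2.2) c)⁻¹ : ℍ[ℝ]ˣ) : ℍ[ℝ])) := by
  induction c using FreeGroup.induction_on with
  | C1 => simp only [map_one, inv_one, Units.val_one]; exact ⟨continuous_const, continuous_const⟩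
  | of x =>
    fin_cases x
    · have h1 : ∀ p : ℝ × ℝ × ℝ, rho p.1 p.2.1 p.2.2 (FreeGroup.of 0) = gq p.1 := by
        intro p; simp [rho]
      refine ⟨?_, ?_⟩
      · have h2 : (fun p : ℝ × ℝ × ℝ => (((rho p.1 p.2.1 p.2.2) (FreeGroup.of 0) : ℍ[ℝ]ˣ) : ℍ[ℝ]))
          = fun p => gv p.1 := by
          funext p; rw [h1]; rfl
        exact h2 ▸ CONT_gv
      · have h2 : (fun p : ℝ × ℝ × ℝ =>
          ((((rho p.1 p.2.1 p.2.2) (FreeGroup.of 0))⁻¹ : ℍ[ℝ]ˣ) : ℍ[ℝ]))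
          = fun p => star (gv p.1) := by
          funext p; rw [h1]; rfl
        exact h2 ▸ CONT_gv'
    · have h1 : ∀ p : ℝ × ℝ × ℝ, rho p.1 p.2.1 p.2.2 (FreeGroup.of 1) = hq p.2.1 p.2.2 := by
        intro p; simp [rho]
      refine ⟨?_, ?_⟩
      · have h2 : (fun p : ℝ × ℝ × ℝ => (((rho p.1 p.2.1 p.2.2) (FreeGroup.of 1) : ℍ[ℝ]ˣ) : ℍ[ℝ]))
          = fun p => hv p.2.1 p.2.2 := by
          funext p; rw [h1]; rfl
        exact h2 ▸ CONT_hv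
      · have h2 : (fun p : ℝ × ℝ × ℝ =>
          ((((rho p.1 p.2.1 p.2.2) (FreeGroup.of 1))⁻¹ : ℍ[ℝ]ˣ) : ℍ[ℝ]))
          = fun p => star (hv p.2.1 p.2.2) := by
          funext p; rw [h1]; rfl
        exact h2 ▸ CONT_hv'
  | inv_of x ih =>
    simp only [map_inv, inv_inv]
    exact ⟨ih.2, ih.1⟩
  | mul x y hx hy =>
    simp only [map_mul, mul_inv_rev, Units.val_mul]
    exact ⟨hx.1.mul hy.1, hy.2.mul hx.2⟩

theorem t_CONT : S_CONT := by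
  intro c
  unfold R
  exact Quaternion.continuous_re.comp (CONT_word c).1

end H67PP
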