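import Pool.Agent.H67.PP.Defs

namespace H67PP

open Quaternion

private theorem core_cast (M : ℕ) (hM : 0 < M) (a b i j : ℤ) :
    (a : ℝ) * (Real.pi * ((i : ℝ) / M)) + (b : ℝ) * (Real.pi * ((j : ℝ) / M)) =
      Real.pi * ((a * i + b * j : ℤ) : ℝ) / (M : ℤ) := by
  have : (M : ℝ) ≠ 0 := by positivity
  push_cast
  field_simp

private theorem core_lab (h6 : S_COSNEAR) (M α β γ n1 n2 n3 : ℤ) (hM : 0 < M)
    (ha : 0 ≤ α) (ha' : α ≤ M) (hb : 0 ≤ β) (hb' : β ≤ M) (hc : 0 ≤ γ) (hc' : γ ≤ M) :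
    lab (Real.cos (Real.pi * α / M)) (Real.cos (Real.pi * β / M)) (Real.cos (Real.pi * γ / M))
      (Real.cos (Real.pi * n1 / M)) (Real.cos (Real.pi * n2 / M)) (Real.cos (Real.pi * n3 / M)) =
    open Classical in
    (if Near M α n1 then 0 else if Near M β n2 then 1 else if Near M γ n3 then 2 else 3 : Fin 4) := by
  have e1 := h6 M α n1 hM ha ha'
  have e2 := h6 M β n2 hM hb hb'
  have e3 := h6 M γ n3 hM hc hc'
  unfold lab
  by_cases k1 : Near M α n1
  · rw [if_pos (e1.2 k1), if_pos k1]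
  · rw [if_neg (fun h => k1 (e1.1 h)), if_neg k1]
    by_cases k2 : Near M β n2
    · rw [if_pos (e2.2 k2), if_pos k2]
    · rw [if_neg (fun h => k2 (e2.1 h)), if_neg k2]
      by_cases k3 : Near M γ n3
      · rw [if_pos (e3.2 k3), if_pos k3]
      · rw [if_neg (fun h => k3 (e3.1 h)), if_neg k3]

private theorem core_cont (h1 : S_CONT) (c : F2) : Continuous (fun q : ℝ × ℝ × ℝ =>
      R c (Real.pi * q.1) (Real.pi * q.2.1) (Real.pi * q.2.2)) := by
  have hg : Continuous (fun q : ℝ × ℝ × ℝ =>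
      ((Real.pi * q.1, Real.pi * q.2.1, Real.pi * q.2.2) : ℝ × ℝ × ℝ)) := by
    refine Continuous.prodMk (continuous_const.mul continuous_fst)
      (Continuous.prodMk (continuous_const.mul (continuous_fst.comp continuous_snd))
        (continuous_const.mul (continuous_snd.comp continuous_snd)))
  have h := Continuous.comp (h1 c) hg
  exact h

theorem t_CORE (h1 : S_CONT) (h2 : S_SIDE) (h3 : S_BOT) (h4 : S_PAR3) (h5 : S_MESH)
    (h6 : S_COSNEAR) (h7 : S_STRIP) (h8 : S_NT1) (h9 : S_NT2) : S_CORE := by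
  intro u v w l m n r s t q1 q2 q3 hd he2u hf cop1 cop2 hr hrl hs hsm ht htn hA hB hC c1 c2 c3 c4
  by_contra hno
  push Not at hno
  have hl : 0 < l := by omega
  have hm : 0 < m := by omega
  have hn : 0 < n := by omega
  have hcont := core_cont h1
  obtain ⟨M0, hM0⟩ := h5 (fun x y z => R u (Real.pi * x) (Real.pi * y) (Real.pi * z))
    (fun x y z => R v (Real.pi * x) (Real.pi * y) (Real.pi * z))
    (fun x y z => R w (Real.pi * x) (Real.pi * y) (Real.pi * z))
    (Real.cos (Real.pi * r / l)) (Real.cos (Real.pi * s / m)) (Real.cos (Real.pi * t / n))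
    (hcont u) (hcont v) (hcont w) (by
      rintro x y z - - - - - - ⟨a1, a2, a3⟩
      exact hno _ _ _ a1 a2 a3)
  -- the grid
  set K : ℤ := (M0 : ℤ) + 1 with hK
  have hKpos : 0 < K := by positivity
  set d : ℤ := e1 u with hdd
  set e : ℤ := e1 v with hee
  set f : ℤ := e2 v with hff
  set g : ℤ := e1 w with hgg
  set h : ℤ := e2 w with hhh
  have hlmn : 0 < l * m * n := by positivity
  have hPpos : 0 < K * (d * f * (l * m * n)) := by positivity
  set M : ℕ := (K * (d * f * (l * m * n))).toNat with hMdef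
  have hM : (M : ℤ) = K * (d * f * (l * m * n)) := Int.toNat_of_nonneg hPpos.le
  have hMpos : 0 < (M : ℤ) := by rw [hM]; exact hPpos
  have hMpos' : 0 < M := by exact_mod_cast hMpos
  have hMM0 : M0 ≤ M := by
    have : (M0 : ℤ) ≤ M := by
      rw [hM]
      have h1 : (1 : ℤ) ≤ d * f * (l * m * n) := by
        have : 0 < d * f * (l * m * n) := by positivity
        omega
      nlinarith
    exact_mod_cast this
  set α : ℤ := r * (K * (d * f) * (m * n)) with hα
  set β : ℤ := s * (K * (d * f) * (l * n)) with hβ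
  set γ : ℤ := t * (K * (d * f) * (l * m)) with hγ
  have hXa : 0 < K * (d * f) * (m * n) := by positivity
  have hXb : 0 < K * (d * f) * (l * n) := by positivity
  have hXc : 0 < K * (d * f) * (l * m) := by positivity
  have eMa : (M : ℤ) = l * (K * (d * f) * (m * n)) := by rw [hM]; ring
  have eMb : (M : ℤ) = m * (K * (d * f) * (l * n)) := by rw [hM]; ring
  have eMc : (M : ℤ) = n * (K * (d * f) * (l * m)) := by rw [hM]; ring
  have hα0 : 0 < α := by positivity
  have hβ0 : 0 < β := by positivity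
  have hγ0 : 0 < γ := by positivity
  have hαM : α < M := by rw [eMa, hα]; exact mul_lt_mul_of_pos_right hrl hXa
  have hβM : β < M := by rw [eMb, hβ]; exact mul_lt_mul_of_pos_right hsm hXb
  have hγM : γ < M := by rw [eMc, hγ]; exact mul_lt_mul_of_pos_right htn hXc
  have quot : ∀ (x y X : ℤ), 0 < y → 0 < X → (M : ℤ) = y * X →
      Real.pi * (x : ℝ) / y = Real.pi * ((x * X : ℤ) : ℝ) / (M : ℤ) := by
    intro x y X hy hX hMX
    have hy' : (y : ℝ) ≠ 0 := by exact_mod_cast hy.ne'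
    have hX' : (X : ℝ) ≠ 0 := by exact_mod_cast hX.ne'
    rw [hMX]
    push_cast
    field_simp
  have p1 : Real.pi * (r : ℝ) / l = Real.pi * (α : ℝ) / (M : ℤ) := quot r l _ hl hXa eMa
  have p2 : Real.pi * (s : ℝ) / m = Real.pi * (β : ℝ) / (M : ℤ) := quot s m _ hm hXb eMb
  have p3 : Real.pi * (t : ℝ) / n = Real.pi * (γ : ℝ) / (M : ℤ) := quot t n _ hn hXc eMc
  rw [p1, p2, p3] at hM0
  set L : ℕ → ℕ → ℕ → Fin 4 := fun i j k =>
    lab (Real.cos (Real.pi * α / (M : ℤ))) (Real.cos (Real.pi * β / (M : ℤ)))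
      (Real.cos (Real.pi * γ / (M : ℤ)))
      (R u (Real.pi * ((i : ℝ) / M)) (Real.pi * ((j : ℝ) / M)) (Real.pi * ((k : ℝ) / M)))
      (R v (Real.pi * ((i : ℝ) / M)) (Real.pi * ((j : ℝ) / M)) (Real.pi * ((k : ℝ) / M)))
      (R w (Real.pi * ((i : ℝ) / M)) (Real.pi * ((j : ℝ) / M)) (Real.pi * ((k : ℝ) / M))) with hL
  have hMR : (M : ℝ) ≠ 0 := by positivity
  have side : ∀ i j k : ℕ, (Real.sin (Real.pi * ((i : ℝ) / M)) = 0 ∨
      Real.sin (Real.pi * ((j : ℝ) / M)) = 0) → L i j k = L i j 0 := by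
    intro i j k hij
    have hz : Real.pi * (((0 : ℕ) : ℝ) / M) = 0 := by simp
    simp only [hL]
    rw [h2 u _ _ _ hij, h2 v _ _ _ hij, h2 w _ _ _ hij, hz]
  have sin0 : Real.sin (Real.pi * (((0 : ℕ) : ℝ) / M)) = 0 := by simp
  have sinM : Real.sin (Real.pi * ((M : ℝ) / M)) = 0 := by
    rw [div_self hMR, mul_one, Real.sin_pi]
  have bot : ∀ i j : ℕ, L i j 0 = lam M α β γ d e f g h i j := by
    intro i j
    have hz : Real.pi * (((0 : ℕ) : ℝ) / M) = 0 := by simp
    simp only [hL, hz]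
    rw [(h3 u _ _).1, (h3 v _ _).1, (h3 w _ _).1]
    have conv : ∀ c : F2, ((e1 c : ℤ) : ℝ) * (Real.pi * ((i : ℝ) / M)) +
        ((e2 c : ℤ) : ℝ) * (Real.pi * ((j : ℝ) / M)) =
        Real.pi * ((e1 c * (i : ℤ) + e2 c * (j : ℤ) : ℤ) : ℝ) / (M : ℤ) := by
      intro c
      rw [← core_cast M hMpos' (e1 c) (e2 c) i j]
      push_cast
      ring
    have z1 : e1 u * (i : ℤ) + e2 u * (j : ℤ) = d * i := by rw [he2u, hdd]; ring
    rw [conv u, conv v, conv w, z1]
    rw [core_lab h6 M α β γ (d * i) (e1 v * i + e2 v * j) (e1 w * i + e2 w * j)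
      hMpos hα0.le hαM.le hβ0.le hβM.le hγ0.le hγM.le]
    rfl
  have top : ∀ i j : ℕ, L i j M = lam M α β γ d e f g h i (-j) := by
    intro i j
    have hz : Real.pi * ((M : ℝ) / M) = Real.pi := by rw [div_self hMR, mul_one]
    simp only [hL, hz]
    rw [(h3 u _ _).2, (h3 v _ _).2, (h3 w _ _).2]
    have conv : ∀ c : F2, ((e1 c : ℤ) : ℝ) * (Real.pi * ((i : ℝ) / M)) -
        ((e2 c : ℤ) : ℝ) * (Real.pi * ((j : ℝ) / M)) =
        Real.pi * ((e1 c * (i : ℤ) + e2 c * (-(j : ℤ)) : ℤ) : ℝ) / (M : ℤ) := by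
      intro c
      rw [← core_cast M hMpos' (e1 c) (e2 c) i (-j)]
      push_cast
      ring
    have z1 : e1 u * (i : ℤ) + e2 u * (-(j : ℤ)) = d * i := by rw [he2u, hdd]; ring
    rw [conv u, conv v, conv w, z1]
    rw [core_lab h6 M α β γ (d * i) (e1 v * i + e2 v * (-j)) (e1 w * i + e2 w * (-j))
      hMpos hα0.le hαM.le hβ0.le hβM.le hγ0.le hγM.le]
    rfl
  have hpar := h4 M L (by
      intro i hi j hj k hk
      obtain ⟨x, hx⟩ := hM0 M hMM0 hMpos' i hi j hj k hk
      exact ⟨x, fun a ha b hb c hc => hx a ha b hb c hc⟩)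
    (fun j _ k _ => side 0 j k (Or.inl sin0)) (fun j _ k _ => side M j k (Or.inl sinM))
    (fun i _ k _ => side i 0 k (Or.inr sin0)) (fun i _ k _ => side i M k (Or.inr sinM))
  simp only [bot, top] at hpar
  have hstrip := h7 M α β γ d e f g h hd hf
    ⟨K * (l * m * n), by rw [hM]; ring⟩ ⟨r * (K * (m * n)), by rw [hα]; ring⟩
    ⟨s * (K * (l * n)), by rw [hβ]; ring⟩ hα0 hαM hβ0 hβM
  push_cast at hpar
  rw [hpar] at hstrip
  have hnt1 := h8 M α β γ d e f g h hd hf
    ⟨K * (l * m * n), by rw [hM]; ring⟩ ⟨r * (K * (m * n)), by rw [hα]; ring⟩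
    ⟨s * (K * (l * n)), by rw [hβ]; ring⟩ hα0 hαM hβ0 hβM hγ0 hγM cop1 cop2
  have hnt2 := h9 M ((e * h - f * g) * α) (d * h * β) (d * f * γ)
    (q1 * (K * (d * f) * (m * n))) (q2 * (K * (d * f) * (l * n))) (q3 * (K * (d * f) * (l * m)))
    hMpos (by positivity) (by
      obtain ⟨k, hk⟩ := hA
      refine ⟨k, ?_⟩
      rcases hk with hk | hk
      · left; rw [hα, eMa, ← hk]; ring
      · right
        have : (e * h - f * g) * α - 2 * (M : ℤ) * k =
          ((e * h - f * g) * r - 2 * l * k) * (K * (d * f) * (m * n)) := by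
          rw [hα, eMa]; ring
        rw [this, hk]; ring) (by
      obtain ⟨k, hk⟩ := hB
      refine ⟨k, ?_⟩
      have : d * h * β - 2 * (M : ℤ) * k =
          ((d * h) * s - 2 * m * k) * (K * (d * f) * (l * n)) := by
          rw [hβ, eMb]; ring
      rw [this]
      rcases hk with hk | hk
      · left; rw [hk]
      · right; rw [hk]; ring) (by
      obtain ⟨k, hk⟩ := hC
      refine ⟨k, ?_⟩
      have : d * f * γ - 2 * (M : ℤ) * k =
          ((d * f) * t - 2 * n * k) * (K * (d * f) * (l * m)) := by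
          rw [hγ, eMc]; ring
      rw [this]
      rcases hk with hk | hk
      · left; rw [hk]
      · right; rw [hk]; ring)
    (by
      have hp : 0 < K * (d * f) := by positivity
      nlinarith [mul_lt_mul_of_pos_left c1 hp])
    (by
      have hp : 0 < K * (d * f) := by positivity
      nlinarith [mul_lt_mul_of_pos_left c2 hp])
    (by
      have hp : 0 < K * (d * f) := by positivity
      nlinarith [mul_lt_mul_of_pos_left c3 hp])
    (by
      have hp : 0 < K * (d * f) := by positivity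
      rw [hM]
      nlinarith [mul_lt_mul_of_pos_left c4 hp])
  rw [← hnt1] at hnt2
  have heven : Even (zs M α β γ d e f g h).card := by
    rw [← ZMod.natCast_eq_zero_iff_even]
    exact hstrip.symm
  exact (Nat.not_even_iff_odd.mpr hnt2) heven

end H67PP
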