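import Pool.Agent.H67.PP.Defs

/-!
# Task FACE: side, bottom and top faces
-/

namespace H67PP

open Quaternion

theorem FACE_re_comm (a b : ℍ[ℝ]) : (a * b).re = (b * a).re := by
  rw [Quaternion.re_mul, Quaternion.re_mul]
  ring

theorem FACE_re_conj (r x : ℍ[ℝ]ˣ) : ((r * x * r⁻¹ : ℍ[ℝ]ˣ) : ℍ[ℝ]).re = (x : ℍ[ℝ]).re := by
  rw [Units.val_mul, Units.val_mul, FACE_re_comm, ← mul_assoc, Units.inv_mul, one_mul]

theorem FACE_gq_zero : gq 0 = 1 := by
  apply Units.ext
  show gv 0 = 1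
  ext <;> simp [gv]

theorem FACE_gq_add (x y : ℝ) : gq (x + y) = gq x * gq y := by
  apply Units.ext
  show gv (x + y) = gv x * gv y
  ext
  · rw [Quaternion.re_mul]
    simp only [gv]
    rw [Real.cos_add]
    ring
  · rw [Quaternion.imI_mul]
    simp only [gv]
    rw [Real.sin_add]
    ring
  · rw [Quaternion.imJ_mul]
    simp only [gv]
    ring
  · rw [Quaternion.imK_mul]
    simp only [gv]
    ring

theorem FACE_e1_mul (c c' : F2) : e1 (c * c') = e1 c + e1 c' := by
  unfold e1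
  rw [map_mul, toAdd_mul]

theorem FACE_e2_mul (c c' : F2) : e2 (c * c') = e2 c + e2 c' := by
  unfold e2
  rw [map_mul, toAdd_mul]

/-- the homomorphism given by the exponent sums -/
noncomputable def FACE_th (s t : ℝ) : F2 →* ℍ[ℝ]ˣ where
  toFun c := gq ((e1 c : ℝ) * s + (e2 c : ℝ) * t)
  map_one' := by
    have h1 : e1 1 = 0 := by unfold e1; rw [map_one, toAdd_one]
    have h2 : e2 1 = 0 := by unfold e2; rw [map_one, toAdd_one]
    rw [h1, h2]
    simp [FACE_gq_zero]
  map_mul' c c' := by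
    rw [← FACE_gq_add, FACE_e1_mul, FACE_e2_mul]
    congr 1
    push_cast
    ring

theorem FACE_lift (s t : ℝ) (c : F2) :
    FreeGroup.lift ![gq s, gq t] c = gq ((e1 c : ℝ) * s + (e2 c : ℝ) * t) := by
  have h : FreeGroup.lift ![gq s, gq t] = FACE_th s t := by
    apply FreeGroup.ext_hom
    intro i
    rw [FreeGroup.lift_apply_of]
    show ![gq s, gq t] i = gq ((e1 (FreeGroup.of i) : ℝ) * s + (e2 (FreeGroup.of i) : ℝ) * t)
    have a0 : e1 (FreeGroup.of (0 : Fin 2)) = 1 := by simp [e1, ex]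
    have a1 : e1 (FreeGroup.of (1 : Fin 2)) = 0 := by simp [e1, ex]
    have b0 : e2 (FreeGroup.of (0 : Fin 2)) = 0 := by simp [e2, ex]
    have b1 : e2 (FreeGroup.of (1 : Fin 2)) = 1 := by simp [e2, ex]
    fin_cases i
    · show gq s = gq ((e1 (FreeGroup.of (0 : Fin 2)) : ℝ) * s + (e2 (FreeGroup.of (0 : Fin 2)) : ℝ) * t)
      rw [a0, b0]
      simp
    · show gq t = gq ((e1 (FreeGroup.of (1 : Fin 2)) : ℝ) * s + (e2 (FreeGroup.of (1 : Fin 2)) : ℝ) * t)
      rw [a1, b1]
      simp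
  rw [h]
  rfl

theorem FACE_hq_zero (t : ℝ) : hq t 0 = gq t := by
  apply Units.ext
  show hv t 0 = gv t
  ext <;> simp [hv, gv]

theorem FACE_hq_pi (t : ℝ) : hq t Real.pi = gq (-t) := by
  apply Units.ext
  show hv t Real.pi = gv (-t)
  ext <;> simp [hv, gv]

theorem t_BOT : S_BOT := by
  intro c s t
  constructor
  · unfold R rho
    rw [FACE_hq_zero, FACE_lift]
    rfl
  · unfold R rho
    rw [FACE_hq_pi, FACE_lift]
    show Real.cos ((e1 c : ℝ) * s + (e2 c : ℝ) * -t) = _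
    congr 1
    ring

/-- the rotation about the third axis -/
noncomputable def FACE_rv (φ : ℝ) : ℍ[ℝ] := ⟨Real.cos (φ / 2), 0, 0, Real.sin (φ / 2)⟩

theorem FACE_normSq_rv (φ : ℝ) : Quaternion.normSq (FACE_rv φ) = 1 := by
  have h := Real.cos_sq_add_sin_sq (φ / 2)
  rw [Quaternion.normSq_def']
  simp [FACE_rv, h]

noncomputable def FACE_rq (φ : ℝ) : ℍ[ℝ]ˣ :=
  ⟨FACE_rv φ, star (FACE_rv φ), by rw [Quaternion.self_mul_star, FACE_normSq_rv]; simp,
    by rw [Quaternion.star_mul_self, FACE_normSq_rv]; simp⟩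

theorem FACE_conj_h (t φ : ℝ) : hq t φ = FACE_rq φ * hq t 0 * (FACE_rq φ)⁻¹ := by
  rw [eq_mul_inv_iff_mul_eq]
  apply Units.ext
  show hv t φ * FACE_rv φ = FACE_rv φ * hv t 0
  have hc : Real.cos φ = 2 * Real.cos (φ / 2) ^ 2 - 1 := by
    rw [← Real.cos_two_mul]
    congr 1
    ring
  have hs : Real.sin φ = 2 * Real.sin (φ / 2) * Real.cos (φ / 2) := by
    rw [← Real.sin_two_mul]
    congr 1
    ring
  have h1 := Real.cos_sq_add_sin_sq (φ / 2)
  ext
  · rw [Quaternion.re_mul, Quaternion.re_mul]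
    simp only [hv, FACE_rv, Real.cos_zero, Real.sin_zero]
    ring
  · rw [Quaternion.imI_mul, Quaternion.imI_mul]
    simp only [hv, FACE_rv, Real.cos_zero, Real.sin_zero]
    rw [hc, hs]
    linear_combination (2 * Real.sin t * Real.cos (φ / 2)) * h1
  · rw [Quaternion.imJ_mul, Quaternion.imJ_mul]
    simp only [hv, FACE_rv, Real.cos_zero, Real.sin_zero]
    rw [hc, hs]
    ring
  · rw [Quaternion.imK_mul, Quaternion.imK_mul]
    simp only [hv, FACE_rv, Real.cos_zero, Real.sin_zero]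
    ring

theorem FACE_conj_g (s φ : ℝ) (hs : Real.sin s = 0) :
    gq s = FACE_rq φ * gq s * (FACE_rq φ)⁻¹ := by
  rw [eq_mul_inv_iff_mul_eq]
  apply Units.ext
  show gv s * FACE_rv φ = FACE_rv φ * gv s
  ext
  · rw [Quaternion.re_mul, Quaternion.re_mul]
    simp only [gv, FACE_rv, hs]
    ring
  · rw [Quaternion.imI_mul, Quaternion.imI_mul]
    simp only [gv, FACE_rv, hs]
    ring
  · rw [Quaternion.imJ_mul, Quaternion.imJ_mul]
    simp only [gv, FACE_rv, hs]
    ring
  · rw [Quaternion.imK_mul, Quaternion.imK_mul]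
    simp only [gv, FACE_rv, hs]
    ring

theorem t_SIDE : S_SIDE := by
  intro c s t φ h
  rcases h with hs | ht
  · have hρ : rho s t φ = (MulAut.conj (FACE_rq φ)).toMonoidHom.comp (rho s t 0) := by
      apply FreeGroup.ext_hom
      intro i
      have e0 : (rho s t φ) (FreeGroup.of i) = ![gq s, hq t φ] i := FreeGroup.lift_apply_of
      have e1' : (rho s t 0) (FreeGroup.of i) = ![gq s, hq t 0] i := FreeGroup.lift_apply_of
      rw [e0, MonoidHom.comp_apply, e1']
      show ![gq s, hq t φ] i = FACE_rq φ * ![gq s, hq t 0] i * (FACE_rq φ)⁻¹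
      fin_cases i
      · exact FACE_conj_g s φ hs
      · exact FACE_conj_h t φ
    unfold R
    rw [hρ]
    exact FACE_re_conj _ _
  · have hh : hq t φ = hq t 0 := by
      apply Units.ext
      show hv t φ = hv t 0
      ext <;> simp [hv, ht]
    unfold R rho
    rw [hh]

end H67PP
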