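import Pool.Agent.H67.PP.GDefs2

namespace H67PG

open Quaternion H67PP

private theorem gd_cnt_scale (M X Z K : ℤ) (hM : 0 < M) (hZ : 0 < Z) (hK : 0 < K) :
    cnt (M * K) (X * K) (Z * K) = cnt M X Z := by
  unfold cnt
  congr 1
  ext s
  simp only [Finset.mem_filter, Finset.mem_Icc]
  have key : |2 * (M * K) * s - X * K| < Z * K ↔ |2 * M * s - X| < Z := by
    have : 2 * (M * K) * s - X * K = (2 * M * s - X) * K := by ring
    rw [this, abs_mul, abs_of_pos hK]
    exact mul_lt_mul_iff_of_pos_right hK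
  rw [key]
  constructor
  · rintro ⟨-, h⟩
    refine ⟨?_, h⟩
    rw [abs_lt] at h
    have h1 : |s| ≤ |X| + |Z| := by
      have h2 : |2 * M * s| ≤ |X| + |Z| := by
        have : 2 * M * s = (2 * M * s - X) + X := by ring
        rw [this]
        have h3 := abs_add_le (2 * M * s - X) X
        have h4 : |2 * M * s - X| ≤ Z := (abs_lt.2 h).le
        have h5 : Z ≤ |Z| := le_abs_self Z
        linarith
      have h6 : |s| ≤ |2 * M * s| := by
        rw [abs_mul, abs_of_pos (by positivity : 0 < 2 * M)]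
        have := abs_nonneg s
        nlinarith
      linarith
    exact abs_le.1 h1
  · rintro ⟨-, h⟩
    refine ⟨?_, h⟩
    rw [abs_lt] at h
    have h1 : |s| ≤ |X * K| + |Z * K| := by
      have h2 : |2 * M * s| ≤ |X| + |Z| := by
        have : 2 * M * s = (2 * M * s - X) + X := by ring
        rw [this]
        have h3 := abs_add_le (2 * M * s - X) X
        have h4 : |2 * M * s - X| ≤ Z := (abs_lt.2 h).le
        have h5 : Z ≤ |Z| := le_abs_self Z
        linarith
      have h6 : |s| ≤ |2 * M * s| := by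
        rw [abs_mul, abs_of_pos (by positivity : 0 < 2 * M)]
        have := abs_nonneg s
        nlinarith
      have h7 : |X| ≤ |X * K| := by
        rw [abs_mul, abs_of_pos hK]
        have := abs_nonneg X
        nlinarith
      have h8 : |Z| ≤ |Z * K| := by
        rw [abs_mul, abs_of_pos hK]
        have := abs_nonneg Z
        nlinarith
      linarith
    exact abs_le.1 h1

private theorem gd_cont (h1 : G_CONT) (n : ℕ) (c : FreeGroup (Fin (n + 1))) :
    Continuous (fun q : (Fin (n + 1) → ℝ) × ℝ =>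
      RN c (fun r => Real.pi * q.1 r) (Real.pi / 2 * q.2)) := by
  have hg : Continuous (fun q : (Fin (n + 1) → ℝ) × ℝ =>
      ((fun r => Real.pi * q.1 r, Real.pi / 2 * q.2) : (Fin (n + 1) → ℝ) × ℝ)) := by
    refine Continuous.prodMk ?_ (continuous_const.mul continuous_snd)
    exact continuous_pi fun r => continuous_const.mul ((continuous_apply r).comp continuous_fst)
  have h := Continuous.comp (h1 n c) hg
  exact h

open Classical in
/-- the sign functions -/
private noncomputable def gdS {n : ℕ} (M : ℕ) (u : Fin (n + 2) → FreeGroup (Fin (n + 1)))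
    (p : Fin (n + 2) → ℝ) (i : Fin (n + 2)) (x : Fin (n + 1) → ℤ) (τ : ℤ) : ZMod 2 :=
  if p i < RN (u i) (fun r => Real.pi * (((x r : ℤ) : ℝ) / M)) (Real.pi / 2 * ((τ : ℝ) / M))
  then 1 else 0

private theorem gd_bot (h3 : G_BOT) (h15 : S_COSNEAR) {n : ℕ} (M : ℕ) (hM : 0 < M)
    (u : Fin (n + 2) → FreeGroup (Fin (n + 1))) (p : Fin (n + 2) → ℝ) (i : Fin (n + 2))
    (a : ℤ) (ha : 0 ≤ a) (haM : a ≤ M) (hp : p i = Real.cos (Real.pi * a / (M : ℤ)))
    (x : Fin (n + 1) → ℤ) :
    gdS M u p i x 0 = nr M a (∑ j, ev (u i) j * x j) := by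
  have hMR : (M : ℝ) ≠ 0 := by positivity
  unfold gdS nr
  have e0 : Real.pi / 2 * (((0 : ℤ) : ℝ) / M) = 0 := by simp
  rw [e0, h3, hp]
  have e1 : (∑ j, (ev (u i) j : ℝ) * (Real.pi * (((x j : ℤ) : ℝ) / M))) =
      Real.pi * ((∑ j, ev (u i) j * x j : ℤ) : ℝ) / (M : ℤ) := by
    push_cast
    rw [Finset.mul_sum, Finset.sum_div]
    refine Finset.sum_congr rfl fun j _ => ?_
    field_simp
  rw [e1]
  have e2 := h15 M a (∑ j, ev (u i) j * x j) (by exact_mod_cast hM) ha haM
  by_cases k : Near M a (∑ j, ev (u i) j * x j)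
  · rw [if_pos (e2.2 k), if_pos k]
  · rw [if_neg (fun h => k (e2.1 h)), if_neg k]

private theorem gd_per (h5 : G_PER) {n : ℕ} (M : ℕ) (hMR : (M : ℝ) ≠ 0)
    (u : Fin (n + 2) → FreeGroup (Fin (n + 1))) (p : Fin (n + 2) → ℝ)
    (i : Fin (n + 2)) (x : Fin (n + 1) → ℤ) (τ : ℤ) (m : Fin (n + 1) → ℤ) :
    gdS M u p i (fun r => x r + 2 * M * m r) τ = gdS M u p i x τ := by
  unfold gdS
  have h := h5 n (u i) (fun r => Real.pi * (((x r : ℤ) : ℝ) / M)) (Real.pi / 2 * ((τ : ℝ) / M)) m
  have e : (fun r => Real.pi * (((x r + 2 * (M : ℤ) * m r : ℤ) : ℝ) / M)) =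
      fun r => Real.pi * (((x r : ℤ) : ℝ) / M) + 2 * Real.pi * m r := by
    funext r
    push_cast
    field_simp
  rw [e, h]

private theorem gd_side (h2 : G_SIDE) {n : ℕ} (M : ℕ) (hMR : (M : ℝ) ≠ 0)
    (u : Fin (n + 2) → FreeGroup (Fin (n + 1))) (p : Fin (n + 2) → ℝ)
    (i : Fin (n + 2)) (x : Fin (n + 1) → ℤ) (τ : ℤ) (hx : x 0 = 0 ∨ x 0 = (M : ℤ)) :
    gdS M u p i x τ = gdS M u p i x 0 := by
  unfold gdS
  have hsin : Real.sin (Real.pi * (((x 0 : ℤ) : ℝ) / M)) = 0 := by
    rcases hx with hx | hx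
    · simp [hx]
    · rw [hx]
      have : Real.pi * ((((M : ℕ) : ℤ) : ℝ) / M) = Real.pi := by
        push_cast
        rw [div_self hMR, mul_one]
      rw [this, Real.sin_pi]
  have e0 : Real.pi / 2 * (((0 : ℤ) : ℝ) / M) = 0 := by simp
  have key := h2 n (u i) (fun r => Real.pi * (((x r : ℤ) : ℝ) / M))
    (Real.pi / 2 * ((τ : ℝ) / M)) hsin
  rw [key, e0]

private theorem gd_top (h4 : G_REFL) {n : ℕ} (M : ℕ) (hMR : (M : ℝ) ≠ 0)
    (u : Fin (n + 2) → FreeGroup (Fin (n + 1))) (p : Fin (n + 2) → ℝ)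
    (i : Fin (n + 2)) (x : Fin (n + 1) → ℤ) :
    gdS M u p i (refl x) M = gdS M u p i x M := by
  unfold gdS
  have e1 : Real.pi / 2 * ((((M : ℕ) : ℤ) : ℝ) / M) = Real.pi / 2 := by
    push_cast
    rw [div_self hMR, mul_one]
  have e2 : (fun r => Real.pi * ((((refl x) r : ℤ) : ℝ) / M)) =
      refl (fun r => Real.pi * (((x r : ℤ) : ℝ) / M)) := by
    funext r
    unfold refl
    by_cases hr : r = 0
    · simp [hr]
    · simp only [hr, if_false]
      push_cast
      ring
  have key := h4 n (u i) (fun r => Real.pi * (((x r : ℤ) : ℝ) / M))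
  rw [e1, e2, key]

private theorem mo_of_ne {p : ℕ} (h : p ≠ 2) : mo p = p := by
  unfold mo
  rw [if_neg h]

private theorem mo_two : mo 2 = 4 := by
  unfold mo
  rw [if_pos rfl]

/-- the cofactor of the modulus -/
private def wo (p : ℕ) : ℤ := if p = 2 then 2 else 1

private theorem wo_pos (p : ℕ) : 0 < wo p := by
  unfold wo
  split_ifs <;> norm_num

private theorem mo_eq (p : ℕ) : (mo p : ℤ) = p * wo p := by
  unfold mo wo
  split_ifs with h
  · rw [h]; norm_num
  · ring

private theorem mo_three {p : ℕ} (hp : p.Prime) : 3 ≤ mo p := by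
  unfold mo
  split_ifs with h
  · norm_num
  · have := hp.two_le
    omega

private theorem mo_coprime {p q : ℕ} (hp : p.Prime) (hq : q.Prime) (h : p ≠ q) :
    Nat.Coprime (mo p) (mo q) := by
  have key : Nat.Coprime p q := (Nat.coprime_primes hp hq).2 h
  by_cases h1 : p = 2
  · rw [h1, mo_two, mo_of_ne (by rw [← h1]; exact h.symm)]
    rw [h1] at key
    have : (4 : ℕ) = 2 ^ 2 := by norm_num
    rw [this]
    exact Nat.Coprime.pow_left 2 key
  · rw [mo_of_ne h1]
    by_cases h2 : q = 2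
    · rw [h2, mo_two]
      rw [h2] at key
      have : (4 : ℕ) = 2 ^ 2 := by norm_num
      rw [this]
      exact Nat.Coprime.pow_right 2 key
    · rw [mo_of_ne h2]
      exact key

private theorem gd_angle (h13 : G_ANG) (p : ℕ) (A b : ℤ) (hp : p.Prime) (hA : ¬ (p : ℤ) ∣ A)
    (hb : 0 < b) (hb2 : 2 * b < mo p) :
    ∃ r : ℤ, 0 < r ∧ r < p ∧ ∃ k : ℤ, (A * r - 2 * p * k) * wo p = 2 * b ∨
      (A * r - 2 * p * k) * wo p = -(2 * b) := by
  by_cases h : p = 2
  · have hw : wo p = 2 := by unfold wo; rw [if_pos h]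
    have hm : (mo p : ℤ) = 4 := by rw [h, mo_two]; norm_num
    have hb1 : b = 1 := by rw [hm] at hb2; omega
    rw [hw, hb1]
    have hA2 : ¬ (2 : ℤ) ∣ A := by
      rw [h] at hA
      exact_mod_cast hA
    refine ⟨1, by norm_num, by rw [h]; norm_num, ?_⟩
    have h4 : (p : ℤ) = 2 := by exact_mod_cast h
    rw [h4]
    have hmod : A % 4 = 1 ∨ A % 4 = 3 := by omega
    rcases hmod with hm1 | hm1
    · refine ⟨A / 4, Or.inl ?_⟩
      omega
    · refine ⟨A / 4 + 1, Or.inr ?_⟩
      omega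
  · have hw : wo p = 1 := by unfold wo; rw [if_neg h]
    rw [mo_of_ne h] at hb2
    obtain ⟨r, hr0, hrp, k, hk⟩ := h13 p A b hp h hA hb hb2
    refine ⟨r, hr0, hrp, k, ?_⟩
    rw [hw, mul_one]
    exact hk

theorem g_CORE2 (h1 : G_CONT) (h2 : G_SIDE) (h3 : G_BOT) (h4 : G_REFL) (h5 : G_PER)
    (h6 : G_MESH) (h7 : G_TOP) (h8 : G_TRI) (h9 : G_NUMA) (h9' : G_EDGE) (h10 : G_NUMB)
    (h11 : G_RED) (h12 : G_EXISTM) (h13 : G_ANG) (h14 : G_LIN) (h15 : S_COSNEAR) : G_CORE2 := by
  intro n u l hn hprime hgood htri hdiag hspan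
  obtain ⟨hg0, hgl, hgs⟩ := hgood
  have hlpos : ∀ i, (0 : ℤ) < l i := fun i => by exact_mod_cast (hprime i).pos
  obtain ⟨hU, hinj, A, q, P, hA, hP, hnA, hnC⟩ := h14 n l (fun i j => ev (u i.castSucc) j)
    (fun j => ev (u (Fin.last (n + 1))) j) hprime htri hdiag (by
      intro q hq y hy hab
      refine hspan q hq y hy fun i => ?_
      refine Fin.lastCases hab.2 hab.1 i)
  set U : Fin (n + 1) → Fin (n + 1) → ℤ := fun i j => ev (u i.castSucc) j with hUdef
  set h : Fin (n + 1) → ℤ := fun j => ev (u (Fin.last (n + 1))) j with hhdef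
  have hU' : ∀ i, 0 < U i i := hU
  have htri' : ∀ i j, i < j → U i j = 0 := htri
  set C : ℤ := ∏ i, U i i with hC
  have hCpos : 0 < C := Finset.prod_pos fun i _ => hU' i
  have hml : (mo (l (Fin.last (n + 1))) : ℕ) = l (Fin.last (n + 1)) := mo_of_ne hgl
  have hm0 : (mo (l 0) : ℕ) = l 0 := mo_of_ne hg0
  have hl0odd : Odd (l 0) := (hprime 0).odd_of_ne_two hg0
  obtain ⟨bt, hbt⟩ := hl0odd
  have hbt0 : 0 < bt := by
    have := (hprime 0).two_le
    omega
  obtain ⟨b, hb, hodd⟩ := h12 n (fun i => mo (l i)) (bt : ℤ) hn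
    (fun i j hij => mo_coprime (hprime i) (hprime j) (fun h => hij (hinj h)))
    (fun i => mo_three (hprime i)) (by simp only [hml]; exact hprime _) (by exact_mod_cast hbt0)
    (by simp only [hm0]; rw [hbt]; push_cast; linarith)
    (by
      simp only [hm0]
      rw [hbt]
      refine ⟨-2, 1, ?_⟩
      push_cast
      ring)
    (by
      simp only [hm0, hml]
      intro hd
      rw [hbt] at hd
      have e : (2 * (bt : ℤ) - ((2 * bt + 1 : ℕ) : ℤ)) = -1 := by push_cast; ring
      rw [e, dvd_neg] at hd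
      have h1 := Int.le_of_dvd one_pos hd
      have h2 := (hprime (Fin.last (n + 1))).two_le
      have h3 : (2 : ℤ) ≤ l (Fin.last (n + 1)) := by exact_mod_cast h2
      linarith)
    (by
      refine lt_of_lt_of_eq hgs ?_
      simp only [hm0]
      have h0 : ((l 0 : ℕ) : ℚ) ≠ 0 := by exact_mod_cast (hprime 0).pos.ne'
      have h1 : ((l 0 : ℕ) : ℚ) = 2 * (bt : ℚ) + 1 := by rw [hbt]; push_cast; ring
      rw [h1] at h0 ⊢
      push_cast
      field_simp
      ring)
  -- the angles
  set A' : Fin (n + 2) → ℤ := fun i => Fin.lastCases (motive := fun _ => ℤ) C A i with hA'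
  have hA'c : ∀ j : Fin (n + 1), A' j.castSucc = A j := fun j => by
    simp only [hA', Fin.lastCases_castSucc]
  have hA'l : A' (Fin.last (n + 1)) = C := by simp only [hA', Fin.lastCases_last]
  have hr : ∀ i, ∃ r : ℤ, 0 < r ∧ r < l i ∧
      ∃ k : ℤ, (A' i * r - 2 * l i * k) * wo (l i) = 2 * b i ∨
        (A' i * r - 2 * l i * k) * wo (l i) = -(2 * b i) := by
    intro i
    refine gd_angle h13 (l i) (A' i) (b i) (hprime i) ?_ (hb i).1 (hb i).2
    · refine Fin.lastCases ?_ (fun j => ?_) i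
      · rw [hA'l]; exact hnC
      · rw [hA'c]; exact hnA j
  choose r hr0 hrl kk hkk using hr
  by_contra hno
  push Not at hno
  have hno' : ∀ (x : Fin (n + 1) → ℝ) (φ : ℝ), ¬ ∀ i, RN (u i) x φ =
      Real.cos (Real.pi * r i / l i) := by
    intro x φ hall
    obtain ⟨i, hi⟩ := hno x φ r
    exact hi (hr0 i) (hrl i) (hall i)
  set p : Fin (n + 2) → ℝ := fun i => Real.cos (Real.pi * r i / l i) with hp
  obtain ⟨M0, hM0⟩ := h6 n (fun i x y => RN (u i) (fun r => Real.pi * x r) (Real.pi / 2 * y)) p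
    (fun i => gd_cont h1 n (u i)) (by
      intro i x y m
      have := h5 n (u i) (fun r => Real.pi * x r) (Real.pi / 2 * y) m
      simp only
      rw [← this]
      congr 1
      funext r
      ring) (fun x y => hno' _ _)
  -- the grid
  set PP : ℤ := ∏ i, (mo (l i) : ℤ) with hPP
  set E : Fin (n + 2) → ℤ := fun i => ∏ j ∈ Finset.univ.erase i, (mo (l j) : ℤ) with hE
  have hmpos : ∀ i, (0 : ℤ) < mo (l i) := fun i => by
    rw [mo_eq]
    exact mul_pos (hlpos i) (wo_pos _)
  have hEl : ∀ i, (mo (l i) : ℤ) * E i = PP := fun i =>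
    Finset.mul_prod_erase Finset.univ (fun j => (mo (l j) : ℤ)) (Finset.mem_univ i)
  have hPPpos : 0 < PP := Finset.prod_pos fun i _ => hmpos i
  have hEpos : ∀ i, 0 < E i := fun i => Finset.prod_pos fun j _ => hmpos j
  set Q : ℤ := (2 * C) ^ (n + 3) with hQ
  have hQpos : 0 < Q := by positivity
  set K : ℤ := Q * ((M0 : ℤ) + 1) with hK
  have hKpos : 0 < K := by positivity
  set M : ℕ := (PP * K).toNat with hMdef
  have hM : (M : ℤ) = PP * K := Int.toNat_of_nonneg (by positivity)
  have hMpos : 0 < (M : ℤ) := by rw [hM]; positivity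
  have hMpos' : 0 < M := by exact_mod_cast hMpos
  have hMM0 : M0 ≤ M := by
    have h0 : (M0 : ℤ) ≤ M := by
      rw [hM, hK]
      have h1 : (1 : ℤ) ≤ PP * Q := by
        have : 0 < PP * Q := by positivity
        omega
      nlinarith
    exact_mod_cast h0
  have hMeven : Even M := by
    have h0 : Even (M : ℤ) := by
      rw [hM, hK, hQ, pow_succ]
      refine ⟨PP * ((2 * C) ^ (n + 2) * C * ((M0 : ℤ) + 1)), ?_⟩
      ring
    exact_mod_cast h0
  set a : Fin (n + 2) → ℤ := fun i => r i * (wo (l i) * (E i * K)) with ha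
  have hXK : ∀ i, 0 < E i * K := fun i => mul_pos (hEpos i) hKpos
  have hYK : ∀ i, 0 < wo (l i) * (E i * K) := fun i => mul_pos (wo_pos _) (hXK i)
  have hME : ∀ i, (M : ℤ) = l i * (wo (l i) * (E i * K)) := fun i => by
    rw [hM, ← hEl i, mo_eq]; ring
  have hME2 : ∀ i, (M : ℤ) = mo (l i) * (E i * K) := fun i => by
    rw [hM, ← hEl i]; ring
  have ha0 : ∀ i, 0 < a i := fun i => mul_pos (hr0 i) (hYK i)
  have haM : ∀ i, a i < M := fun i => by
    rw [hME i]; exact mul_lt_mul_of_pos_right (hrl i) (hYK i)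
  have hpa : ∀ i, p i = Real.cos (Real.pi * a i / (M : ℤ)) := by
    intro i
    simp only [hp]
    congr 1
    have h1 : ((l i : ℤ) : ℝ) ≠ 0 := by exact_mod_cast (hlpos i).ne'
    have h2 : ((wo (l i) * (E i * K) : ℤ) : ℝ) ≠ 0 := by exact_mod_cast (hYK i).ne'
    have h3 : ((M : ℤ) : ℝ) = ((l i : ℤ) : ℝ) * ((wo (l i) * (E i * K) : ℤ) : ℝ) := by
      rw [hME i]; push_cast; ring
    have h4 : ((a i : ℤ) : ℝ) = (r i : ℝ) * ((wo (l i) * (E i * K) : ℤ) : ℝ) := by
      simp only [ha]; push_cast; ring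
    rw [h3, h4]
    have h5 : ((l i : ℕ) : ℝ) = ((l i : ℤ) : ℝ) := by push_cast; rfl
    rw [h5]
    field_simp
  have hMR : (M : ℝ) ≠ 0 := by positivity
  -- parity lemma
  have hper := gd_per h5 M hMR u p
  have hside := gd_side h2 M hMR u p
  have htop := gd_top h4 M hMR u p
  have hbs := h7 n M (fun i x τ => gdS M u p i.castSucc x τ)
    (fun x τ => gdS M u p (Fin.last (n + 1)) x τ) hn hMeven hMpos'
    (fun i x τ m _ => hper i.castSucc x τ m) (fun x τ m _ => hper _ x τ m)
    (by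
      intro c τ _ _ hτ0 hτM
      obtain ⟨i, hi⟩ := hM0 M hMM0 hMpos' c τ hτ0 hτM
      have hi' : ∀ (ε : Fin (n + 1) → ℤ) (ε' : ℤ), (∀ r, ε r = 0 ∨ ε r = 1) →
          (ε' = 0 ∨ ε' = 1) → gdS M u p i (c + ε) (τ + ε') = gdS M u p i c τ := by
        intro ε ε' h1 h2
        have h3 : (p i < RN (u i) (fun r => Real.pi * ((((c + ε) r : ℤ) : ℝ) / M))
            (Real.pi / 2 * (((τ + ε' : ℤ) : ℝ) / M)) ↔
            p i < RN (u i) (fun r => Real.pi * (((c r : ℤ) : ℝ) / M))
            (Real.pi / 2 * ((τ : ℝ) / M))) := hi ε ε' h1 h2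
        unfold gdS
        by_cases k : p i < RN (u i) (fun r => Real.pi * (((c r : ℤ) : ℝ) / M))
          (Real.pi / 2 * ((τ : ℝ) / M))
        · rw [if_pos k, if_pos (h3.2 k)]
        · rw [if_neg k, if_neg (fun hh => k (h3.1 hh))]
      revert hi'
      refine Fin.lastCases ?_ (fun j => ?_) i
      · intro hi'
        exact Or.inr hi'
      · intro hi'
        exact Or.inl ⟨j, hi'⟩)
    (fun i x τ hx => hside _ x τ hx) (fun x τ hx => hside _ x τ hx)
    (fun i x => htop _ x) (fun x => htop _ x)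
  have hbot : ∀ (i : Fin (n + 2)) (x : Fin (n + 1) → ℤ),
      gdS M u p i x 0 = nr M (a i) (∑ j, ev (u i) j * x j) := fun i x =>
    gd_bot h3 h15 M hMpos' u p i (a i) (ha0 i).le (haM i).le (hpa i) x
  simp only [hbot] at hbs
  -- divisibilities
  have hcQ : ∀ i, 2 * U i i ∣ Q := by
    intro i
    have h1 : U i i ∣ C := Finset.dvd_prod_of_mem (fun i => U i i) (Finset.mem_univ i)
    have h2 : 2 * U i i ∣ 2 * C := mul_dvd_mul_left 2 h1
    exact h2.trans (dvd_pow_self _ (by omega))
  have hQM : Q ∣ (M : ℤ) := ⟨PP * ((M0 : ℤ) + 1), by rw [hM, hK]; ring⟩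
  have hQa : ∀ i, Q ∣ a i := fun i => ⟨r i * wo (l i) * E i * ((M0 : ℤ) + 1), by
    simp only [ha, hK]; ring⟩
  have hCQ : C ∣ Q := (Dvd.intro_left 2 rfl : C ∣ 2 * C).trans (dvd_pow_self _ (by omega))
  have hsum0 : ∀ x : Fin (n + 1) → ℤ, ∑ j, U 0 j * x j = U 0 0 * x 0 := by
    intro x
    refine Finset.sum_eq_single 0 (fun j _ hj => ?_) (fun h => absurd (Finset.mem_univ _) h)
    rw [htri' 0 j (Fin.pos_of_ne_zero hj), zero_mul]
  have hedge := h9' M (U 0 0) (a (0 : Fin (n + 1)).castSucc) (hU' 0) ((hcQ 0).trans hQM)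
    ((hcQ 0).trans (hQa _)) (ha0 _) (haM _)
  have htr := h8 n M (fun i x => nr M (a i.castSucc) (∑ j, U i j * x j))
    (fun x => nr M (a (Fin.last (n + 1))) (∑ j, h j * x j)) hMeven hMpos'
    (by
      intro i x y hxy
      congr 1
      refine Finset.sum_congr rfl fun j _ => ?_
      by_cases hj : j ≤ i
      · rw [hxy j hj]
      · rw [htri' i j (not_le.1 hj), zero_mul, zero_mul])
    (by
      intro x hx
      rw [hsum0, hsum0, hx, Function.update_self]
      exact hedge.1)
    (by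
      intro x hx
      rw [hsum0, hsum0, hx, Function.update_self]
      exact hedge.2)
  have hna := h9 n M U h (fun i => a i.castSucc) (a (Fin.last (n + 1))) htri' hU'
    (by rw [← hC, ← hQ]; exact hQM) (fun i => by rw [← hC, ← hQ]; exact hQa _)
    (fun i => ⟨ha0 _, haM _⟩)
  have hcard : ((zsN n M U h (fun i => a i.castSucc) (a (Fin.last (n + 1)))).card : ZMod 2) = 0 := by
    rw [← hna, ← hbs]
    exact htr.symm
  rw [h10 n M U h (fun i => a i.castSucc) A q P (a (Fin.last (n + 1))) htri' hU'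
    (hCQ.trans hQM) (fun i => hCQ.trans (hQa _)) (fun i => ⟨ha0 _, haM _⟩) (ha0 _) (haM _)
    hA hP] at hcard
  have hres : ∀ i, ∃ k : ℤ, A' i * a i - 2 * (M : ℤ) * k = 2 * b i * (E i * K) ∨
      A' i * a i - 2 * (M : ℤ) * k = -(2 * b i * (E i * K)) := by
    intro i
    refine ⟨kk i, ?_⟩
    have e : A' i * a i - 2 * (M : ℤ) * kk i =
        ((A' i * r i - 2 * l i * kk i) * wo (l i)) * (E i * K) := by
      rw [hME i]; simp only [ha]; ring
    rw [e]
    rcases hkk i with hk | hk
    · left; rw [hk]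
    · right; rw [hk]; ring
  have hred := h11 n M (C * a (Fin.last (n + 1))) (2 * b (Fin.last (n + 1)) *
      (E (Fin.last (n + 1)) * K)) (fun i => A i * a i.castSucc)
    (fun i => 2 * b i.castSucc * (E i.castSucc * K)) hn hMpos (mul_pos hCpos (ha0 _))
    (mul_pos (by have := (hb (Fin.last (n + 1))).1; linarith) (hXK _))
    (by rw [hME2 (Fin.last (n + 1))]; exact mul_lt_mul_of_pos_right (hb _).2 (hXK _))
    (by
      intro i
      have := hres i.castSucc
      rw [hA'c] at this
      exact this)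
    (by
      have := hres (Fin.last (n + 1))
      rw [hA'l] at this
      exact this)
    (by
      intro τ _
      have hlast : ∀ i : Fin (n + 1), (l (Fin.last (n + 1)) : ℤ) ∣ E i.castSucc := by
        intro i
        have h1 : (mo (l (Fin.last (n + 1))) : ℤ) ∣ E i.castSucc := by
          refine Finset.dvd_prod_of_mem (fun j => (mo (l j) : ℤ)) ?_
          rw [Finset.mem_erase]
          exact ⟨(Fin.castSucc_lt_last i).ne', Finset.mem_univ _⟩
        rwa [hml] at h1
      have hnotdvd : ¬ (l (Fin.last (n + 1)) : ℤ) ∣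
          b (Fin.last (n + 1)) * E (Fin.last (n + 1)) := by
        intro hd
        have hp := Nat.prime_iff_prime_int.1 (hprime (Fin.last (n + 1)))
        rcases hp.dvd_or_dvd hd with hd | hd
        · have := Int.le_of_dvd (hb _).1 hd
          have h2 := (hb (Fin.last (n + 1))).2
          simp only [hml] at h2
          have h3 := (hb (Fin.last (n + 1))).1
          linarith
        · obtain ⟨j, hj, hjd⟩ := (Prime.dvd_finsetProd_iff hp _).1 hd
          rw [Finset.mem_erase] at hj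
          have h1 : l (Fin.last (n + 1)) ∣ mo (l j) := by exact_mod_cast hjd
          by_cases h2j : l j = 2
          · rw [h2j, mo_two] at h1
            have h3 : l (Fin.last (n + 1)) ∣ 2 ^ 2 := by simpa using h1
            have h4 := (hprime (Fin.last (n + 1))).dvd_of_dvd_pow h3
            exact hgl ((Nat.prime_dvd_prime_iff_eq (hprime _) Nat.prime_two).1 h4)
          · rw [mo_of_ne h2j] at h1
            have h2 := (Nat.prime_dvd_prime_iff_eq (hprime _) (hprime _)).1 h1
            exact hj.1 (hinj h2).symm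
      have hgen : ∀ sgn : ℤ, sgn = 1 ∨ sgn = -1 → ¬ (2 * (M : ℤ) ∣
          (∑ i, τ i * (2 * b i.castSucc * (E i.castSucc * K))) + sgn *
          (2 * b (Fin.last (n + 1)) * (E (Fin.last (n + 1)) * K))) := by
        intro sgn hs hd
        have e : (∑ i, τ i * (2 * b i.castSucc * (E i.castSucc * K))) + sgn *
          (2 * b (Fin.last (n + 1)) * (E (Fin.last (n + 1)) * K)) =
          (2 * K) * ((∑ i, τ i * b i.castSucc * E i.castSucc) + sgn *
            (b (Fin.last (n + 1)) * E (Fin.last (n + 1)))) := by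
          rw [mul_add, Finset.mul_sum]
          congr 1
          · refine Finset.sum_congr rfl fun i _ => ?_
            ring
          · ring
        have e' : 2 * (M : ℤ) = (2 * K) * PP := by rw [hM]; ring
        rw [e, e'] at hd
        have hd2 := (mul_dvd_mul_iff_left (by positivity : (2 * K) ≠ 0)).1 hd
        have hd3 : (l (Fin.last (n + 1)) : ℤ) ∣ (∑ i, τ i * b i.castSucc * E i.castSucc) + sgn *
            (b (Fin.last (n + 1)) * E (Fin.last (n + 1))) :=
          (Dvd.intro _ (by rw [← hml]; exact hEl (Fin.last (n + 1)))).trans hd2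
        have hd4 : (l (Fin.last (n + 1)) : ℤ) ∣ ∑ i, τ i * b i.castSucc * E i.castSucc :=
          Finset.dvd_sum fun i _ => (hlast i).mul_left _
        have hd5 := (dvd_add_right hd4).1 hd3
        rcases hs with hs | hs
        · rw [hs, one_mul] at hd5; exact hnotdvd hd5
        · rw [hs] at hd5
          exact hnotdvd (by rwa [neg_one_mul, dvd_neg] at hd5)
      constructor
      · have := hgen (-1) (Or.inr rfl)
        rwa [neg_one_mul, ← sub_eq_add_neg] at this
      · have := hgen 1 (Or.inl rfl)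
        rwa [one_mul] at this)
  rw [hred] at hcard
  have hscale : ∀ τ ∈ sg n, cnt M (∑ i, τ i * (2 * b i.castSucc * (E i.castSucc * K)))
      (2 * b (Fin.last (n + 1)) * (E (Fin.last (n + 1)) * K)) =
      cnt PP (∑ i, τ i * (2 * b i.castSucc * E i.castSucc))
        (2 * b (Fin.last (n + 1)) * E (Fin.last (n + 1))) := by
    intro τ _
    rw [← gd_cnt_scale PP _ _ K hPPpos (by
      have := (hb (Fin.last (n + 1))).1
      have := hEpos (Fin.last (n + 1))
      positivity) hKpos, hM]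
    congr 1
    · rw [Finset.sum_mul]
      refine Finset.sum_congr rfl fun i _ => ?_
      ring
    · ring
  rw [Finset.sum_congr rfl hscale] at hcard
  have heven := (ZMod.natCast_eq_zero_iff_even).1 hcard
  exact (Nat.not_even_iff_odd.mpr hodd) heven

end H67PG
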