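import Pool.Agent.H67.PP.GDefs2

namespace H67PG

open Quaternion H67PP

private theorem gm_good (h1 : G_QFIN) (h2 : G_ABEL) (h4 : G_NORM) (h5 : G_AUT)
    (h6 : G_ORD) (h7 : G_CORE2) (n : ℕ) (u : Fin (n + 2) → FreeGroup (Fin (n + 1)))
    (p : Fin (n + 2) → ℕ) (hn : 1 ≤ n) (hp : ∀ i, (p i).Prime) (hg : Good n p) :
    HasFin (PN n u p) := by
  obtain ⟨φ, ht, hd⟩ := h4 n (fun i => u i.castSucc)
  refine h5 n u p φ ?_
  by_cases hq : ∃ q : ℕ, q.Prime ∧ ∃ y : Fin (n + 1) → ZMod q, y ≠ 0 ∧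
      ∀ i, (p i : ZMod q) * ∑ j, y j * (ev (φ (u i)) j : ZMod q) = 0
  · obtain ⟨q, hqp, y, hy, hy0⟩ := hq
    exact h2 n q (fun i => φ (u i)) p y hqp hy hy0
  · push Not at hq
    obtain ⟨x, ψ, r, hr⟩ := h7 n (fun i => φ (u i)) p hn hp hg ht hd (by
      intro q hqp y hy hall
      obtain ⟨i, hi⟩ := hq q hqp y hy
      exact hi (hall i))
    have ho := fun i => h6 n (φ (u i)) x ψ (p i) (r i) (hr i).1 (hr i).2.1 (by
      have := (hr i).2.2
      rw [this]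
      push_cast
      rfl)
    simp only [Int.toNat_natCast] at ho
    exact h1 n (fun i => φ (u i)) p (rhoN x ψ) (fun i => (ho i).1) (ho 0).2

private theorem gm_inj (h2 : G_ABEL) (h4 : G_NORM) (h5 : G_AUT) (h8 : G_LIN)
    (n : ℕ) (u : Fin (n + 2) → FreeGroup (Fin (n + 1)))
    (p : Fin (n + 2) → ℕ) (hp : ∀ i, (p i).Prime) :
    HasFin (PN n u p) ∨ Function.Injective p := by
  obtain ⟨φ, ht, hd⟩ := h4 n (fun i => u i.castSucc)
  by_cases hq : ∃ q : ℕ, q.Prime ∧ ∃ y : Fin (n + 1) → ZMod q, y ≠ 0 ∧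
      ∀ i, (p i : ZMod q) * ∑ j, y j * (ev (φ (u i)) j : ZMod q) = 0
  · obtain ⟨q, hqp, y, hy, hy0⟩ := hq
    exact Or.inl (h5 n u p φ (h2 n q (fun i => φ (u i)) p y hqp hy hy0))
  · push Not at hq
    right
    refine (h8 n p (fun i j => ev (φ (u i.castSucc)) j)
      (fun j => ev (φ (u (Fin.last (n + 1)))) j) hp ht hd ?_).2.1
    intro q hqp y hy hab
    obtain ⟨i, hi⟩ := hq q hqp y hy
    refine hi ?_
    exact Fin.lastCases hab.2 hab.1 i

theorem g_MAIN2 (h1 : G_QFIN) (h2 : G_ABEL) (h3 : G_PRIME) (h4 : G_NORM) (h5 : G_AUT)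
    (h6 : G_ORD) (h7 : G_CORE2) (h8 : G_LIN) (h9 : G_PERM) : G_MAIN2 := by
  intro n u l hn hcond
  obtain ⟨p, hp, hpl, hc⟩ : ∃ p : Fin (n + 2) → ℕ, (∀ i, (p i).Prime) ∧ (∀ i, p i ∣ l i) ∧
      (n ≤ 2 ∨ ∀ i, 2 * (n + 1) ≤ p i) := by
    rcases hcond with ⟨hn2, h2l⟩ | hex
    · have hex : ∀ i, ∃ p : ℕ, p.Prime ∧ p ∣ l i := fun i =>
        Nat.exists_prime_and_dvd (by have := h2l i; omega)
      choose p hp hpl using hex
      exact ⟨p, hp, hpl, Or.inl hn2⟩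
    · choose p hp hpl hge using hex
      exact ⟨p, hp, hpl, Or.inr hge⟩
  refine h3 n u l p hpl ?_
  rcases gm_inj h2 h4 h5 h8 n u p hp with h | hinj
  · exact h
  obtain ⟨σ, hσ⟩ := h9 n p hn hp hinj hc
  have hgood := gm_good h1 h2 h4 h5 h6 h7 n (fun i => u (σ i)) (fun i => p (σ i)) hn
    (fun i => hp (σ i)) hσ
  have hset : (Set.range (fun i => u (σ i) ^ p (σ i)) : Set (FreeGroup (Fin (n + 1)))) =
      Set.range (fun i => u i ^ p i) := by
    have := σ.surjective.range_comp (fun i => u i ^ p i)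
    simpa [Function.comp_def] using this
  unfold PN at hgood ⊢
  rw [hset] at hgood
  exact hgood

end H67PG
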