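import Pool.Agent.H67.PP.Defs

set_option autoImplicit false

/-!
# Two-generator groups with three proper-power relators: final assembly
-/

namespace H67PP

open Quaternion

/-- integers without a common prime divisor are coprime -/
theorem main_coprime {a b : ℤ} (ha : a ≠ 0)
    (h : ∀ q : ℕ, q.Prime → (q : ℤ) ∣ a → (q : ℤ) ∣ b → False) : IsCoprime a b := by
  rw [Int.isCoprime_iff_gcd_eq_one]
  by_contra hne
  obtain ⟨q, hq, hqd⟩ := Nat.exists_prime_and_dvd hne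
  refine h q hq ?_ ?_
  · exact (Int.natCast_dvd_natCast.mpr hqd).trans (Int.gcd_dvd_left (a := a) (b := b))
  · exact (Int.natCast_dvd_natCast.mpr hqd).trans (Int.gcd_dvd_right (a := a) (b := b))

/-- the theorem for prime exponents and normalised words -/
theorem main_prime (h1 : S_QFIN) (h2 : S_ABEL) (h6 : S_ORD) (h7 : S_ANG) (h8 : S_CORE)
    (u v w : F2) (l m n : ℕ) (hl : l.Prime) (hm : m.Prime) (hn : n.Prime)
    (hu1 : 0 ≤ e1 u) (hu2 : e2 u = 0) (hv2 : 0 ≤ e2 v) : HasFin (PG u v w l m n) := by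
  by_cases hq : ∃ q : ℕ, q.Prime ∧ (q : ℤ) ∣ m * n * (e1 v * e2 w - e2 v * e1 w) ∧
      (q : ℤ) ∣ l * n * (e1 w * e2 u - e2 w * e1 u) ∧
      (q : ℤ) ∣ l * m * (e1 u * e2 v - e2 u * e1 v)
  · obtain ⟨q, hqp, hqA, hqB, hqC⟩ := hq
    exact h2 u v w l m n q hqp hqA hqB hqC
  have hno : ∀ q : ℕ, q.Prime → (q : ℤ) ∣ m * n * (e1 v * e2 w - e2 v * e1 w) →
      (q : ℤ) ∣ l * n * (e1 u * e2 w) → (q : ℤ) ∣ l * m * (e1 u * e2 v) → False := by
    intro q hqp hA hB hC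
    refine hq ⟨q, hqp, hA, ?_, ?_⟩
    · have : (l : ℤ) * n * (e1 w * e2 u - e2 w * e1 u) = -(l * n * (e1 u * e2 w)) := by
        rw [hu2]; ring
      rw [this]
      exact (dvd_neg).mpr hB
    · have : (l : ℤ) * m * (e1 u * e2 v - e2 u * e1 v) = l * m * (e1 u * e2 v) := by
        rw [hu2]; ring
      rw [this]
      exact hC
  have hlm : l ≠ m := by
    rintro rfl
    refine hno l hl ?_ ?_ ?_
    · exact Dvd.intro _ (by ring_nf : (l : ℤ) * (n * (e1 v * e2 w - e2 v * e1 w)) =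
        l * n * (e1 v * e2 w - e2 v * e1 w))
    · exact Dvd.intro (n * (e1 u * e2 w)) (by ring)
    · exact Dvd.intro (l * (e1 u * e2 v)) (by ring)
  have hln : l ≠ n := by
    rintro rfl
    refine hno l hl ?_ ?_ ?_
    · exact Dvd.intro (m * (e1 v * e2 w - e2 v * e1 w)) (by ring)
    · exact Dvd.intro (l * (e1 u * e2 w)) (by ring)
    · exact Dvd.intro (m * (e1 u * e2 v)) (by ring)
  have hmn : m ≠ n := by
    rintro rfl
    refine hno m hm ?_ ?_ ?_
    · exact Dvd.intro (m * (e1 v * e2 w - e2 v * e1 w)) (by ring)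
    · exact Dvd.intro (l * (e1 u * e2 w)) (by ring)
    · exact Dvd.intro (l * (e1 u * e2 v)) (by ring)
  have hA : ¬ (l : ℤ) ∣ (e1 v * e2 w - e2 v * e1 w) := by
    intro h
    refine hno l hl (h.mul_left _) ?_ ?_
    · exact Dvd.intro (n * (e1 u * e2 w)) (by ring)
    · exact Dvd.intro (m * (e1 u * e2 v)) (by ring)
  have hB : ¬ (m : ℤ) ∣ (e1 u * e2 w) := by
    intro h
    refine hno m hm ?_ (h.mul_left _) ?_
    · exact Dvd.intro (n * (e1 v * e2 w - e2 v * e1 w)) (by ring)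
    · exact Dvd.intro (l * (e1 u * e2 v)) (by ring)
  have hC : ¬ (n : ℤ) ∣ (e1 u * e2 v) := by
    intro h
    refine hno n hn ?_ ?_ (h.mul_left _)
    · exact Dvd.intro (m * (e1 v * e2 w - e2 v * e1 w)) (by ring)
    · exact Dvd.intro (l * (e1 u * e2 w)) (by ring)
  have hC0 : e1 u * e2 v ≠ 0 := fun h => hC (by rw [h]; exact dvd_zero _)
  have hu0 : e1 u ≠ 0 := left_ne_zero_of_mul hC0
  have hv0 : e2 v ≠ 0 := right_ne_zero_of_mul hC0
  have hu : 0 < e1 u := lt_of_le_of_ne hu1 hu0.symm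
  have hv : 0 < e2 v := lt_of_le_of_ne hv2 hv0.symm
  have hcop1 : IsCoprime (e2 v) (e2 w) := by
    refine main_coprime hv0 fun q hqp ha hb => hno q hqp ?_ ?_ ?_
    · exact Dvd.dvd.mul_left (dvd_sub (hb.mul_left _) (ha.mul_right _)) _
    · exact Dvd.dvd.mul_left (hb.mul_left _) _
    · exact Dvd.dvd.mul_left (ha.mul_left _) _
  have hcop2 : IsCoprime (e1 u) (e1 v * e2 w - e2 v * e1 w) := by
    refine main_coprime hu0 fun q hqp ha hb => hno q hqp ?_ ?_ ?_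
    · exact hb.mul_left _
    · exact Dvd.dvd.mul_left (ha.mul_right _) _
    · exact Dvd.dvd.mul_left (ha.mul_right _) _
  obtain ⟨r, q1, hr0, hrl, hk1, ha1, hb1, hc1⟩ := h7 l _ hl hA
  obtain ⟨s, q2, hs0, hsm, hk2, ha2, hb2, hc2⟩ := h7 m _ hm hB
  obtain ⟨t, q3, ht0, htn, hk3, ha3, hb3, hc3⟩ := h7 n _ hn hC
  have hl0 : (0 : ℤ) < l := by exact_mod_cast hl.pos
  have hm0 : (0 : ℤ) < m := by exact_mod_cast hm.pos
  have hn0 : (0 : ℤ) < n := by exact_mod_cast hn.pos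
  have hmn0 : (0 : ℤ) < m * n := mul_pos hm0 hn0
  have hln0 : (0 : ℤ) < l * n := mul_pos hl0 hn0
  have hlm0 : (0 : ℤ) < l * m := mul_pos hl0 hm0
  have hP : (0 : ℤ) < l * m * n := mul_pos hlm0 hn0
  -- the six basic inequalities
  have i1 : 2 * ((l : ℤ) * m * n) ≤ 5 * (q1 * (m * n)) := by
    have := mul_le_mul_of_nonneg_right ha1 hmn0.le
    linarith
  have i2 : 2 * ((l : ℤ) * m * n) ≤ 5 * (q2 * (l * n)) := by
    have := mul_le_mul_of_nonneg_right ha2 hln0.le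
    linarith
  have i3 : 2 * ((l : ℤ) * m * n) ≤ 5 * (q3 * (l * m)) := by
    have := mul_le_mul_of_nonneg_right ha3 hlm0.le
    linarith
  have j1 : 3 * (q1 * ((m : ℤ) * n)) ≤ 2 * (l * m * n) := by
    have := mul_le_mul_of_nonneg_right hb1 hmn0.le
    linarith
  have j2 : 3 * (q2 * ((l : ℤ) * n)) ≤ 2 * (l * m * n) := by
    have := mul_le_mul_of_nonneg_right hb2 hln0.le
    linarith
  have j3 : 3 * (q3 * ((l : ℤ) * m)) ≤ 2 * (l * m * n) := by
    have := mul_le_mul_of_nonneg_right hb3 hlm0.le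
    linarith
  have hsum : q1 * ((m : ℤ) * n) + q2 * (l * n) + q3 * (l * m) < 2 * (l * m * n) := by
    by_cases hl3 : l = 3
    · have hm3 : m ≠ 3 := by
        intro h
        exact hlm (hl3.trans h.symm)
      have := mul_lt_mul_of_pos_right (hc2 hm3) hln0
      linarith
    · have := mul_lt_mul_of_pos_right (hc1 hl3) hmn0
      linarith
  obtain ⟨x, y, z, hx, hy, hz⟩ := h8 u v w l m n r s t q1 q2 q3 hu hu2 hv hcop1 hcop2 hr0 hrl
    hs0 hsm ht0 htn hk1 hk2 hk3 (by linarith) (by linarith) (by linarith) hsum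
  have o1 := h6 u x y z l r hr0 hrl hx
  have o2 := h6 v x y z m s hs0 hsm hy
  have o3 := h6 w x y z n t ht0 htn hz
  rw [Int.toNat_natCast] at o1 o2 o3
  exact h1 u v w l m n (rho x y z) o1.1 o2.1 o3.1 o1.2

/-- `⟨a, b | u^l, v^m, w^n⟩` has a proper subgroup of finite index. -/
theorem t_MAIN (h1 : S_QFIN) (h2 : S_ABEL) (h3 : S_PRIME) (h4 : S_NORM) (h5 : S_AUT)
    (h6 : S_ORD) (h7 : S_ANG) (h8 : S_CORE) : S_MAIN := by
  intro u v w l m n hl hm hn
  obtain ⟨l', hl', hll⟩ := Nat.exists_prime_and_dvd (show l ≠ 1 by omega)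
  obtain ⟨m', hm', hmm⟩ := Nat.exists_prime_and_dvd (show m ≠ 1 by omega)
  obtain ⟨n', hn', hnn⟩ := Nat.exists_prime_and_dvd (show n ≠ 1 by omega)
  obtain ⟨φ, ha, hb, hc⟩ := h4 u v
  exact h3 u v w l m n l' m' n' hll hmm hnn (h5 u v w l' m' n' φ
    (main_prime h1 h2 h6 h7 h8 (φ u) (φ v) (φ w) l' m' n' hl' hm' hn' ha hb hc))

end H67PP
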