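import Pool.Agent.H67.PP.Defs

/-! MALCEV: a finitely generated real linear group is residually finite. -/

set_option autoImplicit false

namespace H67PP

theorem malcev_jac_int : IsJacobsonRing ℤ := by
  rw [isJacobsonRing_iff_prime_eq]
  intro P hP
  by_cases h : P = ⊥
  · subst h
    rw [eq_bot_iff]
    intro x hx
    rw [Ideal.mem_jacobson_bot] at hx
    have h1 := hx x
    rw [Int.isUnit_iff] at h1
    rw [Ideal.mem_bot]
    rcases h1 with h1 | h1
    · have : x * x = 0 := by linarith
      exact mul_self_eq_zero.1 this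
    · exfalso
      nlinarith [mul_self_nonneg x]
  · have : P.IsMaximal := IsPrime.to_maximal_ideal h
    exact Ideal.jacobson_eq_self_of_isMaximal

/-- residue fields of finitely generated commutative rings are finite -/
theorem malcev_residue_finite (S : Type) [CommRing S] [Algebra.FiniteType ℤ S] (m : Ideal S)
    [hm : m.IsMaximal] : Finite (S ⧸ m) := by
  let F : Field (S ⧸ m) := Ideal.Quotient.field m
  have h0 : Algebra.FiniteType ℤ (S ⧸ m) :=
    Algebra.FiniteType.of_surjective ((Ideal.Quotient.mkₐ S m).restrictScalars ℤ)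
      Ideal.Quotient.mk_surjective
  have hJ : IsJacobsonRing ℤ := malcev_jac_int
  have h1 : Module.Finite ℤ (S ⧸ m) := finite_of_finite_type_of_isJacobsonRing ℤ (S ⧸ m)
  obtain ⟨p, hp⟩ := CharP.exists (S ⧸ m)
  rcases Nat.eq_zero_or_pos p with h2 | h2
  · exfalso
    subst h2
    have hc : CharZero (S ⧸ m) := CharP.charP_to_charZero (S ⧸ m)
    have h3 : Function.Injective (algebraMap ℤ (S ⧸ m)) := by
      have : (algebraMap ℤ (S ⧸ m)) = Int.castRingHom (S ⧸ m) := RingHom.ext_int _ _
      rw [this]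
      exact RingHom.injective_int _
    have hi : Algebra.IsIntegral ℤ (S ⧸ m) := Algebra.IsIntegral.of_finite ℤ (S ⧸ m)
    have h4 : IsField ℤ := isField_of_isIntegral_of_isField h3 (Field.toIsField _)
    exact Int.not_isField h4
  · apply Module.finite_of_fg_torsion (S ⧸ m)
    intro x
    refine ⟨⟨(p : ℤ), ?_⟩, ?_⟩
    · rw [mem_nonZeroDivisors_iff_ne_zero]
      exact_mod_cast h2.ne'
    · change (p : ℤ) • x = 0
      rw [zsmul_eq_mul]
      simp

/-- the entries of a finitely generated linear group lie in a finitely generated ring -/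
theorem malcev_entries {H : Type} [Group H] {N : ℕ} (φ : H →* GL (Fin N) ℝ) (T : Set H)
    (hT : Subgroup.closure T = ⊤) (R : Subalgebra ℤ ℝ)
    (h1 : ∀ t ∈ T, ∀ i j, (φ t).val i j ∈ R) (h2 : ∀ t ∈ T, ∀ i j, (φ t⁻¹).val i j ∈ R)
    (h : H) : ∀ i j, (φ h).val i j ∈ R := by
  have hmem : h ∈ Subgroup.closure T := by rw [hT]; trivial
  have hmul : ∀ x y : H, (∀ i j, (φ x).val i j ∈ R) → (∀ i j, (φ y).val i j ∈ R) →
      ∀ i j, (φ (x * y)).val i j ∈ R := by
    intro x y hx hy i j
    rw [map_mul, Units.val_mul, Matrix.mul_apply]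
    exact R.sum_mem (fun k _ => R.mul_mem (hx i k) (hy k j))
  induction hmem using Subgroup.closure_induction_left with
  | one =>
    intro i j
    rw [map_one, Units.val_one, Matrix.one_apply]
    split_ifs
    · exact R.one_mem
    · exact R.zero_mem
  | mul_left x hx y _ ih => exact hmul x y (h1 x hx) ih
  | inv_mul_cancel x hx y _ ih => exact hmul x⁻¹ y (h2 x hx) ih

theorem t_MALCEV : S_MALCEV := by
  intro G _ _ k f g hg
  classical
  obtain ⟨T, hT⟩ := Group.fg_def.1 (inferInstance : Group.FG G)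
  let s : Finset ℝ := T.biUnion fun t => Finset.univ.biUnion fun i : Fin k =>
    Finset.univ.biUnion fun j : Fin k => {(f t).val i j, (f t⁻¹).val i j}
  let R : Subalgebra ℤ ℝ := Algebra.adjoin ℤ (s : Set ℝ)
  have hR : Algebra.FiniteType ℤ R := by
    rw [← Subalgebra.fg_iff_finiteType]
    exact ⟨s, rfl⟩
  have hent : ∀ h : G, ∀ i j, (f h).val i j ∈ R := by
    apply malcev_entries f (T : Set G) hT R
    · intro t ht i j
      apply Algebra.subset_adjoin
      simp only [s, Finset.coe_biUnion, Set.mem_iUnion]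
      exact ⟨t, ht, i, by simp, j, by simp, by simp⟩
    · intro t ht i j
      apply Algebra.subset_adjoin
      simp only [s, Finset.coe_biUnion, Set.mem_iUnion]
      exact ⟨t, ht, i, by simp, j, by simp, by simp⟩
  let ψ0 : G →* Matrix (Fin k) (Fin k) R :=
    { toFun := fun h => Matrix.of fun i j => ⟨(f h).val i j, hent h i j⟩
      map_one' := by
        ext i j
        simp only [Matrix.of_apply, map_one, Units.val_one, Matrix.one_apply]
        split_ifs <;> rfl
      map_mul' := by
        intro x y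
        ext i j
        simp only [Matrix.of_apply, map_mul, Units.val_mul, Matrix.mul_apply]
        rw [AddSubmonoidClass.coe_finset_sum]
        rfl }
  -- a nonzero entry
  have hne : ψ0 g ≠ 1 := by
    intro h0
    apply hg
    apply Units.ext
    ext i j
    have h1 : (ψ0 g) i j = (1 : Matrix (Fin k) (Fin k) R) i j := by rw [h0]
    have h2 := congrArg Subtype.val h1
    have h3 : (((1 : Matrix (Fin k) (Fin k) R) i j : R) : ℝ) =
        (1 : Matrix (Fin k) (Fin k) ℝ) i j := by
      rw [Matrix.one_apply, Matrix.one_apply]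
      split_ifs <;> rfl
    rw [h3] at h2
    rw [Units.val_one]
    exact h2
  obtain ⟨i, j, hij⟩ : ∃ i j, (ψ0 g) i j ≠ (1 : Matrix (Fin k) (Fin k) R) i j := by
    by_contra hcon
    push Not at hcon
    exact hne (by ext1 i j; exact hcon i j)
  -- a maximal ideal
  have hJ : IsJacobsonRing ℤ := malcev_jac_int
  have hJR : IsJacobsonRing R := isJacobsonRing_of_finiteType (A := ℤ) (B := R)
  have h3 : (⊥ : Ideal R).jacobson = ⊥ :=
    isJacobsonRing_iff_prime_eq.1 hJR ⊥ Ideal.isPrime_bot
  obtain ⟨m, hm, hem⟩ : ∃ m : Ideal R, m.IsMaximal ∧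
      (ψ0 g) i j - (1 : Matrix (Fin k) (Fin k) R) i j ∉ m := by
    by_contra hcon
    push Not at hcon
    have h4 : (ψ0 g) i j - (1 : Matrix (Fin k) (Fin k) R) i j ∈ (⊥ : Ideal R).jacobson := by
      rw [Ideal.jacobson, Submodule.mem_sInf]
      intro (m : Ideal R) hm
      exact hcon m hm.2
    rw [h3] at h4
    exact hij (sub_eq_zero.1 ((Submodule.mem_bot R).1 h4))
  have hfin : Finite (R ⧸ m) := malcev_residue_finite R m
  let θ0 : G →* Matrix (Fin k) (Fin k) (R ⧸ m) :=
    ((Ideal.Quotient.mk m).mapMatrix (m := Fin k)).toMonoidHom.comp ψ0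
  let θ : G →* (Matrix (Fin k) (Fin k) (R ⧸ m))ˣ := θ0.toHomUnits
  haveI : Finite (Matrix (Fin k) (Fin k) (R ⧸ m))ˣ := inferInstance
  refine ⟨θ.ker, Subgroup.finiteIndex_ker θ, fun hk => ?_⟩
  rw [MonoidHom.mem_ker] at hk
  have h5 : θ0 g = 1 := congrArg Units.val hk
  have h6 : (Ideal.Quotient.mk m) ((ψ0 g) i j) = (1 : Matrix (Fin k) (Fin k) (R ⧸ m)) i j := by
    rw [← h5]
    rfl
  have h7 : (1 : Matrix (Fin k) (Fin k) (R ⧸ m)) i j =
      (Ideal.Quotient.mk m) ((1 : Matrix (Fin k) (Fin k) R) i j) := by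
    rw [Matrix.one_apply, Matrix.one_apply]
    split_ifs
    · rw [map_one]
    · rw [map_zero]
  rw [h7] at h6
  exact hem ((Ideal.Quotient.mk_eq_mk_iff_sub_mem _ _).1 h6)

end H67PP
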