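import Pool.Agent.H67.PP.Defs

/-!
# The mesh lemma
-/

namespace H67PP

theorem mesh_lab0 {p1 p2 p3 y1 y2 y3 : ℝ} (h : lab p1 p2 p3 y1 y2 y3 = 0) : p1 < y1 := by
  unfold lab at h
  by_contra h1
  rw [if_neg h1] at h
  split_ifs at h <;> simp_all

theorem mesh_lab1 {p1 p2 p3 y1 y2 y3 : ℝ} (h : lab p1 p2 p3 y1 y2 y3 = 1) : p2 < y2 := by
  unfold lab at h
  by_contra h1
  rw [if_neg h1] at h
  split_ifs at h <;> simp_all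

theorem mesh_lab2 {p1 p2 p3 y1 y2 y3 : ℝ} (h : lab p1 p2 p3 y1 y2 y3 = 2) : p3 < y3 := by
  unfold lab at h
  by_contra h1
  rw [if_neg h1] at h
  split_ifs at h <;> simp_all

theorem mesh_lab3 {p1 p2 p3 y1 y2 y3 : ℝ} (h : lab p1 p2 p3 y1 y2 y3 = 3) :
    y1 ≤ p1 ∧ y2 ≤ p2 ∧ y3 ≤ p3 := by
  unfold lab at h
  split_ifs at h with h1 h2 h3
  · simp_all
  · simp_all
  · simp_all
  · exact ⟨not_lt.1 h1, not_lt.1 h2, not_lt.1 h3⟩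

theorem mesh_coord {M i a a' : ℕ} (hM : 0 < M) (ha : a ≤ 1) (ha' : a' ≤ 1) {δ : ℝ}
    (hδ : 1 / (M : ℝ) < δ) : |((i + a : ℕ) : ℝ) / M - ((i + a' : ℕ) : ℝ) / M| < δ := by
  have hM' : (0 : ℝ) < M := by exact_mod_cast hM
  refine lt_of_le_of_lt ?_ hδ
  rw [← sub_div, abs_div, abs_of_pos hM']
  refine div_le_div_of_nonneg_right ?_ hM'.le
  have h1 : (a : ℝ) ≤ 1 := by exact_mod_cast ha
  have h2 : (a' : ℝ) ≤ 1 := by exact_mod_cast ha'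
  have h3 : (0 : ℝ) ≤ a := Nat.cast_nonneg _
  have h4 : (0 : ℝ) ≤ a' := Nat.cast_nonneg _
  rw [abs_le]
  push_cast
  constructor <;> linarith

theorem mesh_mem {M i a : ℕ} (hi : i < M) (ha : a ≤ 1) :
    0 ≤ ((i + a : ℕ) : ℝ) / M ∧ ((i + a : ℕ) : ℝ) / M ≤ 1 := by
  have hM' : (0 : ℝ) < M := by exact_mod_cast (by omega : 0 < M)
  refine ⟨by positivity, ?_⟩
  rw [div_le_one hM']
  exact_mod_cast (by omega : i + a ≤ M)

theorem t_MESH : S_MESH := by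
  intro F1 F2 F3 p1 p2 p3 h1 h2 h3 hne
  let G : ℝ × ℝ × ℝ → ℝ × ℝ × ℝ := fun q =>
    (F1 q.1 q.2.1 q.2.2, F2 q.1 q.2.1 q.2.2, F3 q.1 q.2.1 q.2.2)
  have hG : Continuous G := h1.prodMk (h2.prodMk h3)
  let K : Set (ℝ × ℝ × ℝ) := Set.Icc (0 : ℝ) 1 ×ˢ (Set.Icc (0 : ℝ) 1 ×ˢ Set.Icc (0 : ℝ) 1)
  have hK : IsCompact K := isCompact_Icc.prod (isCompact_Icc.prod isCompact_Icc)
  have hKne : K.Nonempty := ⟨(0, 0, 0), by simp [K]⟩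
  have hd : Continuous fun q => dist (G q) (p1, p2, p3) := hG.dist continuous_const
  obtain ⟨q0, hq0, hmin⟩ := hK.exists_isMinOn hKne hd.continuousOn
  have hm : 0 < dist (G q0) (p1, p2, p3) := by
    rw [dist_pos]
    intro h
    simp only [K, Set.mem_prod, Set.mem_Icc] at hq0
    simp only [G, Prod.mk.injEq] at h
    exact hne q0.1 q0.2.1 q0.2.2 hq0.1.1 hq0.1.2 hq0.2.1.1 hq0.2.1.2 hq0.2.2.1 hq0.2.2.2 h
  have hu := hK.uniformContinuousOn_of_continuous hG.continuousOn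
  rw [Metric.uniformContinuousOn_iff] at hu
  obtain ⟨δ, hδ, hu⟩ := hu _ hm
  obtain ⟨M0, hM0⟩ := exists_nat_gt (1 / δ)
  refine ⟨M0, fun M hM hMpos i hi j hj k hk => ?_⟩
  by_contra hcon
  push Not at hcon
  have hM' : (0 : ℝ) < M := by exact_mod_cast hMpos
  have hMδ : 1 / (M : ℝ) < δ := by
    rw [div_lt_iff₀ hM']
    have : (M0 : ℝ) ≤ M := by exact_mod_cast hM
    rw [div_lt_iff₀ hδ] at hM0
    nlinarith
  have hmem : ∀ a ≤ 1, ∀ b ≤ 1, ∀ c ≤ 1,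
      ((((i + a : ℕ) : ℝ) / M, ((j + b : ℕ) : ℝ) / M, ((k + c : ℕ) : ℝ) / M) : ℝ × ℝ × ℝ) ∈ K := by
    intro a ha b hb c hc
    exact ⟨mesh_mem hi ha, mesh_mem hj hb, mesh_mem hk hc⟩
  have hclose : ∀ a ≤ 1, ∀ b ≤ 1, ∀ c ≤ 1, ∀ a' ≤ 1, ∀ b' ≤ 1, ∀ c' ≤ 1,
      dist (G (((i + a : ℕ) : ℝ) / M, ((j + b : ℕ) : ℝ) / M, ((k + c : ℕ) : ℝ) / M))
        (G (((i + a' : ℕ) : ℝ) / M, ((j + b' : ℕ) : ℝ) / M, ((k + c' : ℕ) : ℝ) / M)) <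
        dist (G q0) (p1, p2, p3) := by
    intro a ha b hb c hc a' ha' b' hb' c' hc'
    refine hu _ (hmem a ha b hb c hc) _ (hmem a' ha' b' hb' c' hc') ?_
    rw [Prod.dist_eq, Prod.dist_eq, max_lt_iff, max_lt_iff]
    refine ⟨?_, ?_, ?_⟩
    · rw [Real.dist_eq]
      exact mesh_coord hMpos ha ha' hMδ
    · rw [Real.dist_eq]
      exact mesh_coord hMpos hb hb' hMδ
    · rw [Real.dist_eq]
      exact mesh_coord hMpos hc hc' hMδ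
  obtain ⟨a0, ha0, b0, hb0, c0, hc0, l0⟩ := hcon 0
  obtain ⟨a1, ha1, b1, hb1, c1, hc1, l1⟩ := hcon 1
  obtain ⟨a2, ha2, b2, hb2, c2, hc2, l2⟩ := hcon 2
  obtain ⟨a3, ha3, b3, hb3, c3, hc3, l3⟩ := hcon 3
  have e0 := mesh_lab0 l0
  have e1 := mesh_lab1 l1
  have e2 := mesh_lab2 l2
  obtain ⟨e31, e32, e33⟩ := mesh_lab3 l3
  have d0 := hclose a0 ha0 b0 hb0 c0 hc0 a3 ha3 b3 hb3 c3 hc3
  have d1 := hclose a1 ha1 b1 hb1 c1 hc1 a3 ha3 b3 hb3 c3 hc3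
  have d2 := hclose a2 ha2 b2 hb2 c2 hc2 a3 ha3 b3 hb3 c3 hc3
  have hmin' := hmin (hmem a3 ha3 b3 hb3 c3 hc3)
  simp only [Set.mem_ofPred_eq] at hmin'
  refine absurd hmin' (not_le.2 ?_)
  set m := dist (G q0) (p1, p2, p3)
  rw [Prod.dist_eq, Prod.dist_eq, max_lt_iff, max_lt_iff, Real.dist_eq, Real.dist_eq,
    Real.dist_eq] at d0 d1 d2
  rw [Prod.dist_eq, Prod.dist_eq, max_lt_iff, max_lt_iff, Real.dist_eq, Real.dist_eq,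
    Real.dist_eq]
  have k0 := (abs_lt.1 d0.1).2
  have k1 := (abs_lt.1 d1.2.1).2
  have k2 := (abs_lt.1 d2.2.2).2
  simp only [G] at k0 k1 k2 ⊢
  refine ⟨?_, ?_, ?_⟩
  · rw [abs_lt]
    constructor <;> linarith
  · rw [abs_lt]
    constructor <;> linarith
  · rw [abs_lt]
    constructor <;> linarith

end H67PP
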