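import Pool.Agent.H67.PP.Defs

/-! H67PP, task NORM: normal form of the abelianised words. -/

namespace H67PP

/-! ### exponent sums -/

theorem norm_e1_mul (x y : F2) : e1 (x * y) = e1 x + e1 y := by
  simp [e1]

theorem norm_e2_mul (x y : F2) : e2 (x * y) = e2 x + e2 y := by
  simp [e2]

theorem norm_e1_inv (x : F2) : e1 x⁻¹ = - e1 x := by
  simp [e1]

theorem norm_e2_inv (x : F2) : e2 x⁻¹ = - e2 x := by
  simp [e2]

theorem norm_e1_a : e1 (FreeGroup.of 0) = 1 := by simp [e1, ex]
theorem norm_e1_b : e1 (FreeGroup.of 1) = 0 := by simp [e1, ex]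
theorem norm_e2_a : e2 (FreeGroup.of 0) = 0 := by simp [e2, ex]
theorem norm_e2_b : e2 (FreeGroup.of 1) = 1 := by simp [e2, ex]

/-- the value of a homomorphism to `ℤ` -/
theorem norm_hom (ψ : F2 →* Multiplicative ℤ) (c : F2) :
    Multiplicative.toAdd (ψ c) = e1 c * Multiplicative.toAdd (ψ (FreeGroup.of 0)) +
      e2 c * Multiplicative.toAdd (ψ (FreeGroup.of 1)) := by
  induction c using FreeGroup.induction_on with
  | C1 => simp [e1, e2]
  | of i =>
    fin_cases i
    · simp [norm_e1_a, norm_e2_a]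
    · simp [norm_e1_b, norm_e2_b]
  | inv_of i h =>
    rw [map_inv, toAdd_inv, h, norm_e1_inv, norm_e2_inv]
    ring
  | mul x y hx hy =>
    rw [map_mul, toAdd_mul, hx, hy, norm_e1_mul, norm_e2_mul]
    ring

theorem norm_eff1 (ψ : F2 ≃* F2) (c : F2) :
    e1 (ψ c) = e1 c * e1 (ψ (FreeGroup.of 0)) + e2 c * e1 (ψ (FreeGroup.of 1)) :=
  norm_hom ((ex 0).comp ψ.toMonoidHom) c

theorem norm_eff2 (ψ : F2 ≃* F2) (c : F2) :
    e2 (ψ c) = e1 c * e2 (ψ (FreeGroup.of 0)) + e2 c * e2 (ψ (FreeGroup.of 1)) :=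
  norm_hom ((ex 1).comp ψ.toMonoidHom) c

/-! ### elementary automorphisms -/

/-- the endomorphism with given values -/
noncomputable def normL (x y : F2) : F2 →* F2 := FreeGroup.lift ![x, y]

theorem normL_a (x y : F2) : normL x y (FreeGroup.of 0) = x := by simp [normL]
theorem normL_b (x y : F2) : normL x y (FreeGroup.of 1) = y := by simp [normL]

/-- an automorphism from two endomorphisms inverse to each other on the generators -/
noncomputable def normA (x y x' y' : F2) (h1 : normL x' y' x = FreeGroup.of 0)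
    (h2 : normL x' y' y = FreeGroup.of 1) (h3 : normL x y x' = FreeGroup.of 0)
    (h4 : normL x y y' = FreeGroup.of 1) : F2 ≃* F2 :=
  MonoidHom.toMulEquiv (normL x y) (normL x' y')
    (by
      apply FreeGroup.ext_hom
      intro i
      fin_cases i
      · simpa [normL_a] using h1
      · simpa [normL_b] using h2)
    (by
      apply FreeGroup.ext_hom
      intro i
      fin_cases i
      · simpa [normL_a] using h3
      · simpa [normL_b] using h4)

theorem normA_a (x y x' y' : F2) (h1 h2 h3 h4) :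
    normA x y x' y' h1 h2 h3 h4 (FreeGroup.of 0) = x := normL_a x y
theorem normA_b (x y x' y' : F2) (h1 h2 h3 h4) :
    normA x y x' y' h1 h2 h3 h4 (FreeGroup.of 1) = y := normL_b x y

/-- every elementary change of the exponent sums is induced by an automorphism -/
theorem norm_T (ε : ℤ) (hε : ε = 1 ∨ ε = -1) :
    ∃ ψ : F2 ≃* F2, ∀ c, e1 (ψ c) = e1 c ∧ e2 (ψ c) = ε * e1 c + e2 c := by
  set a : F2 := FreeGroup.of 0 with ha
  set b : F2 := FreeGroup.of 1 with hb
  refine ⟨normA (a * b ^ ε) b (a * b ^ (-ε)) b ?_ ?_ ?_ ?_, fun c => ?_⟩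
  · rw [map_mul, map_zpow, ha, hb, normL_a, normL_b, ← hb]
    group
  · rw [hb, normL_b]
  · rw [map_mul, map_zpow, ha, hb, normL_a, normL_b, ← hb]
    group
  · rw [hb, normL_b]
  · rw [norm_eff1, norm_eff2, normA_a, normA_b]
    rcases hε with rfl | rfl
    · rw [zpow_one, norm_e1_mul, norm_e2_mul, ha, hb, norm_e1_a, norm_e1_b, norm_e2_a, norm_e2_b]
      constructor <;> ring
    · rw [zpow_neg, zpow_one, norm_e1_mul, norm_e2_mul, norm_e1_inv, norm_e2_inv, ha, hb,
        norm_e1_a, norm_e1_b, norm_e2_a, norm_e2_b]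
      constructor <;> ring

theorem norm_S : ∃ ψ : F2 ≃* F2, ∀ c, e1 (ψ c) = e2 c ∧ e2 (ψ c) = e1 c := by
  set a : F2 := FreeGroup.of 0 with ha
  set b : F2 := FreeGroup.of 1 with hb
  refine ⟨normA b a b a ?_ ?_ ?_ ?_, fun c => ?_⟩
  · rw [hb, normL_b]
  · rw [ha, normL_a]
  · rw [hb, normL_b]
  · rw [ha, normL_a]
  · rw [norm_eff1, norm_eff2, normA_a, normA_b, ha, hb, norm_e1_a, norm_e1_b, norm_e2_a,
      norm_e2_b]
    constructor <;> ring

theorem norm_N : ∃ ψ : F2 ≃* F2, ∀ c, e1 (ψ c) = - e1 c ∧ e2 (ψ c) = e2 c := by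
  set a : F2 := FreeGroup.of 0 with ha
  set b : F2 := FreeGroup.of 1 with hb
  refine ⟨normA a⁻¹ b a⁻¹ b ?_ ?_ ?_ ?_, fun c => ?_⟩
  · rw [map_inv, ha, normL_a, inv_inv]
  · rw [hb, normL_b]
  · rw [map_inv, ha, normL_a, inv_inv]
  · rw [hb, normL_b]
  · rw [norm_eff1, norm_eff2, normA_a, normA_b, norm_e1_inv, norm_e2_inv, ha, hb, norm_e1_a,
      norm_e1_b, norm_e2_a, norm_e2_b]
    constructor <;> ring

theorem norm_N2 : ∃ ψ : F2 ≃* F2, ∀ c, e1 (ψ c) = e1 c ∧ e2 (ψ c) = - e2 c := by
  obtain ⟨s, hs⟩ := norm_S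
  obtain ⟨n, hn⟩ := norm_N
  refine ⟨(s.trans n).trans s, fun c => ?_⟩
  have h1 := hs (n (s c))
  have h2 := hn (s c)
  have h3 := hs c
  constructor
  · calc e1 (((s.trans n).trans s) c) = e2 (n (s c)) := h1.1
      _ = e1 c := by rw [h2.2, h3.2]
  · calc e2 (((s.trans n).trans s) c) = e1 (n (s c)) := h1.2
      _ = - e2 c := by rw [h2.1, h3.1]

theorem norm_U (ε : ℤ) (hε : ε = 1 ∨ ε = -1) :
    ∃ ψ : F2 ≃* F2, ∀ c, e1 (ψ c) = e1 c + ε * e2 c ∧ e2 (ψ c) = e2 c := by
  obtain ⟨s, hs⟩ := norm_S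
  obtain ⟨t, ht⟩ := norm_T ε hε
  refine ⟨(s.trans t).trans s, fun c => ?_⟩
  have h1 := hs (t (s c))
  have h2 := ht (s c)
  have h3 := hs c
  constructor
  · calc e1 (((s.trans t).trans s) c) = e2 (t (s c)) := h1.1
      _ = e1 c + ε * e2 c := by rw [h2.2, h3.1, h3.2]; ring
  · calc e2 (((s.trans t).trans s) c) = e1 (t (s c)) := h1.2
      _ = e2 c := by rw [h2.1, h3.1]

/-- Euclid's algorithm -/
theorem norm_euclid (n : ℕ) : ∀ u : F2, (e1 u).natAbs + (e2 u).natAbs ≤ n →
    ∃ φ : F2 ≃* F2, e2 (φ u) = 0 := by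
  induction n with
  | zero =>
    intro u hu
    exact ⟨MulEquiv.refl _, by
      show e2 u = 0
      omega⟩
  | succ n ih =>
    intro u hu
    by_cases h2 : e2 u = 0
    · exact ⟨MulEquiv.refl _, h2⟩
    by_cases h1 : e1 u = 0
    · obtain ⟨s, hs⟩ := norm_S
      exact ⟨s, by rw [(hs u).2, h1]⟩
    -- a step
    have key : ∃ ψ : F2 ≃* F2, (e1 (ψ u)).natAbs + (e2 (ψ u)).natAbs ≤ n := by
      rcases le_or_gt (e2 u).natAbs (e1 u).natAbs with h | h
      · rcases le_or_gt 0 (e1 u * e2 u) with h3 | h3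
        · obtain ⟨ψ, hψ⟩ := norm_U (-1) (Or.inr rfl)
          refine ⟨ψ, ?_⟩
          rw [(hψ u).1, (hψ u).2]
          rcases lt_or_gt_of_ne h1 with h4 | h4
          · have h5 : e2 u < 0 := by
              by_contra h6
              have h7 : 0 < e2 u := lt_of_le_of_ne (not_lt.mp h6) (Ne.symm h2)
              nlinarith
            omega
          · have h5 : 0 < e2 u := by
              by_contra h6
              have h7 : e2 u < 0 := lt_of_le_of_ne (not_lt.mp h6) h2
              nlinarith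
            omega
        · obtain ⟨ψ, hψ⟩ := norm_U 1 (Or.inl rfl)
          refine ⟨ψ, ?_⟩
          rw [(hψ u).1, (hψ u).2]
          rcases lt_or_gt_of_ne h1 with h4 | h4
          · have h5 : 0 < e2 u := by
              by_contra h6
              have h7 : e2 u < 0 := lt_of_le_of_ne (not_lt.mp h6) h2
              nlinarith
            omega
          · have h5 : e2 u < 0 := by
              by_contra h6
              have h7 : 0 < e2 u := lt_of_le_of_ne (not_lt.mp h6) (Ne.symm h2)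
              nlinarith
            omega
      · rcases le_or_gt 0 (e1 u * e2 u) with h3 | h3
        · obtain ⟨ψ, hψ⟩ := norm_T (-1) (Or.inr rfl)
          refine ⟨ψ, ?_⟩
          rw [(hψ u).1, (hψ u).2]
          rcases lt_or_gt_of_ne h1 with h4 | h4
          · have h5 : e2 u < 0 := by
              by_contra h6
              have h7 : 0 < e2 u := lt_of_le_of_ne (not_lt.mp h6) (Ne.symm h2)
              nlinarith
            omega
          · have h5 : 0 < e2 u := by
              by_contra h6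
              have h7 : e2 u < 0 := lt_of_le_of_ne (not_lt.mp h6) h2
              nlinarith
            omega
        · obtain ⟨ψ, hψ⟩ := norm_T 1 (Or.inl rfl)
          refine ⟨ψ, ?_⟩
          rw [(hψ u).1, (hψ u).2]
          rcases lt_or_gt_of_ne h1 with h4 | h4
          · have h5 : 0 < e2 u := by
              by_contra h6
              have h7 : e2 u < 0 := lt_of_le_of_ne (not_lt.mp h6) h2
              nlinarith
            omega
          · have h5 : e2 u < 0 := by
              by_contra h6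
              have h7 : 0 < e2 u := lt_of_le_of_ne (not_lt.mp h6) (Ne.symm h2)
              nlinarith
            omega
    obtain ⟨ψ, hψ⟩ := key
    obtain ⟨φ, hφ⟩ := ih (ψ u) hψ
    exact ⟨ψ.trans φ, hφ⟩

theorem t_NORM : S_NORM := by
  intro u v
  obtain ⟨φ, hφ⟩ := norm_euclid _ u le_rfl
  obtain ⟨n, hn⟩ := norm_N
  obtain ⟨n2, hn2⟩ := norm_N2
  -- first sign
  have h1 : ∃ φ' : F2 ≃* F2, 0 ≤ e1 (φ' u) ∧ e2 (φ' u) = 0 := by
    rcases le_or_gt 0 (e1 (φ u)) with h | h
    · exact ⟨φ, h, hφ⟩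
    · refine ⟨φ.trans n, ?_, ?_⟩
      · show 0 ≤ e1 (n (φ u))
        rw [(hn _).1]
        omega
      · show e2 (n (φ u)) = 0
        rw [(hn _).2, hφ]
  obtain ⟨φ', h2, h3⟩ := h1
  rcases le_or_gt 0 (e2 (φ' v)) with h | h
  · exact ⟨φ', h2, h3, h⟩
  · refine ⟨φ'.trans n2, ?_, ?_, ?_⟩
    · show 0 ≤ e1 (n2 (φ' u))
      rw [(hn2 _).1]
      exact h2
    · show e2 (n2 (φ' u)) = 0
      rw [(hn2 _).2, h3]
      rfl
    · show 0 ≤ e2 (n2 (φ' v))
      rw [(hn2 _).2]
      omega

theorem t_AUT : S_AUT := by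
  intro u v w l m n φ h
  obtain ⟨H, hH, hfin⟩ := h
  set rels : Set F2 := {u ^ l, v ^ m, w ^ n} with hrels
  set rels' : Set F2 := {φ u ^ l, φ v ^ m, φ w ^ n} with hrels'
  have hlift : ∀ c : F2, FreeGroup.lift (fun i => PresentedGroup.mk rels' (φ (FreeGroup.of i))) c =
      PresentedGroup.mk rels' (φ c) := by
    intro c
    have : FreeGroup.lift (fun i => PresentedGroup.mk rels' (φ (FreeGroup.of i))) =
        (PresentedGroup.mk rels').comp φ.toMonoidHom := by
      apply FreeGroup.ext_hom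
      intro i
      simp
    rw [this]
    rfl
  have hone : ∀ x ∈ rels', PresentedGroup.mk rels' x = 1 := fun x hx =>
    PresentedGroup.one_of_mem hx
  have hr : ∀ r ∈ rels, FreeGroup.lift
      (fun i => PresentedGroup.mk rels' (φ (FreeGroup.of i))) r = 1 := by
    intro r hr
    rw [hlift]
    apply hone
    rw [hrels] at hr
    rcases hr with rfl | rfl | rfl
    · rw [map_pow, hrels']
      exact Or.inl rfl
    · rw [map_pow, hrels']
      exact Or.inr (Or.inl rfl)
    · rw [map_pow, hrels']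
      exact Or.inr (Or.inr rfl)
  set F : PresentedGroup rels →* PresentedGroup rels' := PresentedGroup.toGroup hr with hF
  have hsurj : Function.Surjective F := by
    intro y
    obtain ⟨c, rfl⟩ := PresentedGroup.mk_surjective rels' y
    refine ⟨PresentedGroup.mk rels (φ.symm c), ?_⟩
    have : F (PresentedGroup.mk rels (φ.symm c)) = FreeGroup.lift
      (fun i => PresentedGroup.mk rels' (φ (FreeGroup.of i))) (φ.symm c) := rfl
    rw [this, hlift, MulEquiv.apply_symm_apply]
  refine ⟨H.comap F, ?_, ?_⟩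
  · intro htop
    apply hH
    rw [← Subgroup.map_comap_eq_self_of_surjective hsurj H, htop]
    exact Subgroup.map_top_of_surjective F hsurj
  · exact ⟨by
      rw [Subgroup.index_comap_of_surjective _ hsurj]
      exact hfin.index_ne_zero⟩

end H67PP
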