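import Pool.Agent.H67.PP.Defs

/-!
# NT1: the zeros are parametrised by integers in two intervals
-/

set_option autoImplicit false

namespace H67PP

/-- the point `(i, j)` is a zero (first sign `+`, second sign `τ`) with parameter `s` -/
def NT1rel (M α β γ d e f g h i j τ s : ℤ) : Prop :=
  ∃ k k' k'' : ℤ, d * i = α + 2 * M * k ∧ e * i + f * j = τ * β + 2 * M * k' ∧
    |g * i + h * j - 2 * M * k''| < γ ∧ s = -(e * h - f * g) * k + d * h * k' - d * f * k''

theorem NT1_shift {M α β γ d e f g h i j τ s : ℤ} (H : NT1rel M α β γ d e f g h i j τ s)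
    (a b : ℤ) : NT1rel M α β γ d e f g h (i + 2 * M * a) (j + 2 * M * b) τ s := by
  obtain ⟨k, k', k'', h1, h2, h3, h4⟩ := H
  refine ⟨k + d * a, k' + e * a + f * b, k'' + g * a + h * b, ?_, ?_, ?_, ?_⟩
  · linear_combination h1
  · linear_combination h2
  · have : g * (i + 2 * M * a) + h * (j + 2 * M * b) - 2 * M * (k'' + g * a + h * b) =
        g * i + h * j - 2 * M * k'' := by ring
    rw [this]; exact h3
  · linear_combination h4

theorem NT1_key {M α β d e f g h i j τ s k k' k'' : ℤ}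
    (h1 : d * i = α + 2 * M * k) (h2 : e * i + f * j = τ * β + 2 * M * k')
    (h4 : s = -(e * h - f * g) * k + d * h * k' - d * f * k'') :
    2 * M * s - ((e * h - f * g) * α - τ * (d * h * β)) =
      (d * f) * (g * i + h * j - 2 * M * k'') := by
  subst h4
  linear_combination (e * h - f * g) * h1 - d * h * h2

theorem NT1_abs {M α β γ d e f g h i j τ s : ℤ} (H : NT1rel M α β γ d e f g h i j τ s)
    (hd : 0 < d) (hf : 0 < f) :
    |2 * M * s - ((e * h - f * g) * α - τ * (d * h * β))| < d * f * γ := by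
  obtain ⟨k, k', k'', h1, h2, h3, h4⟩ := H
  rw [NT1_key h1 h2 h4, abs_mul, abs_of_pos (mul_pos hd hf)]
  exact mul_lt_mul_of_pos_left h3 (mul_pos hd hf)

theorem NT1_inj {M α β γ d e f g h i j i' j' τ s : ℤ} (H : NT1rel M α β γ d e f g h i j τ s)
    (H' : NT1rel M α β γ d e f g h i' j' τ s) (hd : 0 < d) (hf : 0 < f) (hfh : IsCoprime f h)
    (hdA : IsCoprime d (e * h - f * g)) :
    ∃ a b : ℤ, i' = i + 2 * M * a ∧ j' = j + 2 * M * b := by
  obtain ⟨k, k', k'', h1, h2, -, h4⟩ := H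
  obtain ⟨l, l', l'', g1, g2, -, g4⟩ := H'
  have hdvd : d ∣ (e * h - f * g) * (l - k) := by
    refine ⟨h * (l' - k') - f * (l'' - k''), ?_⟩
    linear_combination g4 - h4
  obtain ⟨a, ha⟩ := hdA.dvd_of_dvd_mul_left hdvd
  have hi : i' = i + 2 * M * a := by
    have : d * i' = d * (i + 2 * M * a) := by
      linear_combination g1 - h1 + 2 * M * ha
    exact mul_left_cancel₀ hd.ne' this
  have hA : h * (l' - k') - f * (l'' - k'') = (e * h - f * g) * a := by
    have : d * (h * (l' - k') - f * (l'' - k'')) = d * ((e * h - f * g) * a) := by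
      linear_combination h4 - g4 + (e * h - f * g) * ha
    exact mul_left_cancel₀ hd.ne' this
  have hdvd2 : f ∣ h * (l' - k' - e * a) := by
    refine ⟨l'' - k'' - g * a, ?_⟩
    linear_combination hA
  obtain ⟨b, hb⟩ := hfh.dvd_of_dvd_mul_left hdvd2
  refine ⟨a, b, hi, ?_⟩
  have : f * j' = f * (j + 2 * M * b) := by
    rw [hi] at g2
    linear_combination g2 - h2 + 2 * M * hb
  exact mul_left_cancel₀ hf.ne' this

theorem NT1_surj {M α β γ d e f g h τ s : ℤ} (hd : 0 < d) (hf : 0 < f) (hM : d * f ∣ M)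
    (hα : d * f ∣ α) (hβ : d * f ∣ β) (hfh : IsCoprime f h)
    (hdA : IsCoprime d (e * h - f * g))
    (hs : |2 * M * s - ((e * h - f * g) * α - τ * (d * h * β))| < d * f * γ) :
    ∃ i j : ℤ, NT1rel M α β γ d e f g h i j τ s := by
  obtain ⟨m, hm⟩ := hM
  obtain ⟨a0, ha0⟩ := hα
  obtain ⟨b0, hb0⟩ := hβ
  obtain ⟨u, v, huv⟩ := hdA
  obtain ⟨u2, v2, huv2⟩ := hfh
  have h1 : d * (f * a0 + 2 * f * m * (-(s * v))) = α + 2 * M * (-(s * v)) := by
    rw [hm, ha0]; ring
  have h2 : e * (f * a0 + 2 * f * m * (-(s * v))) +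
      f * (τ * d * b0 + 2 * d * m * (s * u * v2) - e * (a0 + 2 * m * (-(s * v)))) =
      τ * β + 2 * M * (s * u * v2) := by
    rw [hm, hb0]; ring
  have h4 : s = -(e * h - f * g) * (-(s * v)) + d * h * (s * u * v2) -
      d * f * (-(s * u * u2)) := by
    linear_combination (-s) * huv + (-(d * s * u)) * huv2
  refine ⟨_, _, _, _, _, h1, h2, ?_, h4⟩
  have hk := NT1_key h1 h2 h4
  rw [hk, abs_mul, abs_of_pos (mul_pos hd hf)] at hs
  exact lt_of_mul_lt_mul_left hs (mul_pos hd hf).le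

/-- `τ` and `s` are determined by the point -/
theorem NT1_uniq {M α β γ d e f g h i j τ s τ' s' : ℤ}
    (H : NT1rel M α β γ d e f g h i j τ s) (H' : NT1rel M α β γ d e f g h i j τ' s')
    (hτ : τ = 1 ∨ τ = -1) (hτ' : τ' = 1 ∨ τ' = -1) (hβ : 0 < β) (hβM : β < M) (hγM : γ < M) :
    τ = τ' ∧ s = s' := by
  obtain ⟨k, k', k'', h1, h2, h3, h4⟩ := H
  obtain ⟨l, l', l'', g1, g2, g3, g4⟩ := H'
  have hM : 0 < M := hβ.trans hβM
  have hk : k = l := by
    have : 2 * M * k = 2 * M * l := by linear_combination g1 - h1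
    exact mul_left_cancel₀ (by positivity) this
  have hne : ∀ c : ℤ, β ≠ M * c := by
    intro c hc
    have h0 : 0 < c := by
      by_contra hcn
      push Not at hcn
      nlinarith
    nlinarith
  have hττ : τ = τ' := by
    rcases hτ with rfl | rfl <;> rcases hτ' with rfl | rfl
    · rfl
    · exfalso
      apply hne (l' - k')
      have : 2 * β = 2 * (M * (l' - k')) := by linear_combination g2 - h2
      exact mul_left_cancel₀ (by norm_num) this
    · exfalso
      apply hne (k' - l')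
      have : 2 * β = 2 * (M * (k' - l')) := by linear_combination h2 - g2
      exact mul_left_cancel₀ (by norm_num) this
    · rfl
  subst hττ
  have hk' : k' = l' := by
    have : 2 * M * k' = 2 * M * l' := by linear_combination g2 - h2
    exact mul_left_cancel₀ (by positivity) this
  have hk'' : k'' = l'' := by
    rw [abs_lt] at h3 g3
    have e1 : M * (k'' - l'') < M * 1 := by nlinarith [h3.1, h3.2, g3.1, g3.2]
    have e2 : M * (l'' - k'') < M * 1 := by nlinarith [h3.1, h3.2, g3.1, g3.2]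
    have e3 := lt_of_mul_lt_mul_left e1 hM.le
    have e4 := lt_of_mul_lt_mul_left e2 hM.le
    omega
  refine ⟨rfl, ?_⟩
  rw [h4, g4, hk, hk', hk'']

/-- the two signs exclude each other -/
theorem NT1_sign {M α β γ d e f g h i j τ s τ' s' : ℤ}
    (H : NT1rel M α β γ d e f g h i j τ s) (H' : NT1rel M α β γ d e f g h (-i) (-j) τ' s')
    (hα : 0 < α) (hαM : α < M) : False := by
  obtain ⟨k, k', k'', h1, h2, h3, h4⟩ := H
  obtain ⟨l, l', l'', g1, g2, g3, g4⟩ := H'
  have hM : 0 < M := hα.trans hαM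
  have : 2 * α = 2 * (M * (-(k + l))) := by linear_combination -h1 - g1
  have hc : α = M * (-(k + l)) := mul_left_cancel₀ (by norm_num) this
  have h0 : 0 < -(k + l) := by
    by_contra hcn
    push Not at hcn
    nlinarith
  nlinarith

/-- the zeros -/
theorem NT1_mem {M : ℕ} {α β γ d e f g h : ℤ} (p : ℤ × ℤ) :
    p ∈ zs M α β γ d e f g h ↔ (0 < p.1 ∧ p.1 < M ∧ -(M : ℤ) ≤ p.2 ∧ p.2 < M) ∧
      ∃ σ τ s : ℤ, (σ = 1 ∨ σ = -1) ∧ (τ = 1 ∨ τ = -1) ∧
        NT1rel M α β γ d e f g h (σ * p.1) (σ * p.2) τ s := by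
  classical
  unfold zs
  rw [Finset.mem_filter, Finset.mem_product, Finset.mem_Ioo, Finset.mem_Ico]
  constructor
  · rintro ⟨⟨⟨h1, h2⟩, h3, h4⟩, h5, h6, ⟨c'', h7⟩⟩
    refine ⟨⟨h1, h2, h3, h4⟩, ?_⟩
    rcases h5 with ⟨c, h5⟩ | ⟨c, h5⟩ <;> rcases h6 with ⟨c', h6⟩ | ⟨c', h6⟩
    · refine ⟨1, 1, _, Or.inl rfl, Or.inl rfl, c, c', c'', ?_, ?_, ?_, rfl⟩
      · linear_combination h5
      · linear_combination h6
      · rw [one_mul, one_mul]; exact h7
    · refine ⟨1, -1, _, Or.inl rfl, Or.inr rfl, c, c', c'', ?_, ?_, ?_, rfl⟩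
      · linear_combination h5
      · linear_combination h6
      · rw [one_mul, one_mul]; exact h7
    · refine ⟨-1, -1, _, Or.inr rfl, Or.inr rfl, -c, -c', -c'', ?_, ?_, ?_, rfl⟩
      · linear_combination -h5
      · linear_combination -h6
      · have : g * (-1 * p.1) + h * (-1 * p.2) - 2 * (M : ℤ) * -c'' =
          -(g * p.1 + h * p.2 - 2 * (M : ℤ) * c'') := by ring
        rw [this, abs_neg]; exact h7
    · refine ⟨-1, 1, _, Or.inr rfl, Or.inl rfl, -c, -c', -c'', ?_, ?_, ?_, rfl⟩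
      · linear_combination -h5
      · linear_combination -h6
      · have : g * (-1 * p.1) + h * (-1 * p.2) - 2 * (M : ℤ) * -c'' =
          -(g * p.1 + h * p.2 - 2 * (M : ℤ) * c'') := by ring
        rw [this, abs_neg]; exact h7
  · rintro ⟨⟨h1, h2, h3, h4⟩, σ, τ, s, hσ, hτ, k, k', k'', e1, e2, e3, -⟩
    refine ⟨⟨⟨h1, h2⟩, h3, h4⟩, ?_, ?_, ?_⟩
    · rcases hσ with rfl | rfl
      · left; exact ⟨k, by linear_combination e1⟩
      · right; exact ⟨-k, by linear_combination -e1⟩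
    · rcases hσ with rfl | rfl <;> rcases hτ with rfl | rfl
      · left; exact ⟨k', by linear_combination e2⟩
      · right; exact ⟨k', by linear_combination e2⟩
      · right; exact ⟨-k', by linear_combination -e2⟩
      · left; exact ⟨-k', by linear_combination -e2⟩
    · rcases hσ with rfl | rfl
      · refine ⟨k'', ?_⟩
        rw [one_mul, one_mul] at e3; exact e3
      · refine ⟨-k'', ?_⟩
        have : g * p.1 + h * p.2 - 2 * (M : ℤ) * -k'' =
          -(g * (-1 * p.1) + h * (-1 * p.2) - 2 * (M : ℤ) * k'') := by ring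
        rw [this, abs_neg]; exact e3

/-- the integers counted by `cnt` -/
noncomputable def NT1set (M X Z : ℤ) : Finset ℤ :=
  (Finset.Icc (-(|X| + |Z|)) (|X| + |Z|)).filter (fun s => |2 * M * s - X| < Z)

theorem NT1_mem_set {M X Z s : ℤ} (hM : 0 < M) : s ∈ NT1set M X Z ↔ |2 * M * s - X| < Z := by
  unfold NT1set
  rw [Finset.mem_filter, Finset.mem_Icc, and_iff_right_iff_imp]
  intro hs
  have h1 : |2 * M * s| ≤ |2 * M * s - X| + |X| := by
    have := abs_add_le (2 * M * s - X) X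
    rwa [sub_add_cancel] at this
  have h2 : |s| ≤ |2 * M * s| := by
    rw [abs_mul, abs_of_pos (by positivity : (0 : ℤ) < 2 * M)]
    nlinarith [abs_nonneg s]
  have h3 : Z ≤ |Z| := le_abs_self Z
  have h4 : |s| ≤ |X| + |Z| := by linarith
  exact abs_le.1 h4

theorem t_NT1 : S_NT1 := by
  intro M α β γ d e f g h hd hf hM hα hβ hα0 hαM hβ0 hβM hγ0 hγM hfh hdA
  classical
  have hM0 : (0 : ℤ) < M := hα0.trans hαM
  let X : ℤ → ℤ := fun τ => (e * h - f * g) * α - τ * (d * h * β)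
  let T : Finset (Σ _ : ℤ, ℤ) :=
    ({1, -1} : Finset ℤ).sigma (fun τ => NT1set M (X τ) (d * f * γ))
  have hT : T.card = cnt M ((e * h - f * g) * α + d * h * β) (d * f * γ) +
      cnt M ((e * h - f * g) * α - d * h * β) (d * f * γ) := by
    show (({1, -1} : Finset ℤ).sigma (fun τ => NT1set M (X τ) (d * f * γ))).card = _
    rw [Finset.card_sigma, Finset.sum_pair (by norm_num), add_comm]
    have e1 : X (-1) = (e * h - f * g) * α + d * h * β := by
      show (e * h - f * g) * α - -1 * (d * h * β) = _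
      ring
    have e2 : X 1 = (e * h - f * g) * α - d * h * β := by
      show (e * h - f * g) * α - 1 * (d * h * β) = _
      ring
    rw [e1, e2]
    rfl
  rw [← hT]
  have hmemT : ∀ τ s : ℤ, (⟨τ, s⟩ : Σ _ : ℤ, ℤ) ∈ T ↔ (τ = 1 ∨ τ = -1) ∧
      |2 * (M : ℤ) * s - X τ| < d * f * γ := by
    intro τ s
    show (⟨τ, s⟩ : Σ _ : ℤ, ℤ) ∈
      ({1, -1} : Finset ℤ).sigma (fun τ => NT1set M (X τ) (d * f * γ)) ↔ _
    rw [Finset.mem_sigma, NT1_mem_set hM0, Finset.mem_insert, Finset.mem_singleton]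
  -- the relation
  let R : ℤ × ℤ → (Σ _ : ℤ, ℤ) → Prop := fun p q => ∃ σ : ℤ, (σ = 1 ∨ σ = -1) ∧
    (q.1 = 1 ∨ q.1 = -1) ∧ NT1rel M α β γ d e f g h (σ * p.1) (σ * p.2) q.1 q.2
  have ha : ∀ p ∈ zs M α β γ d e f g h, ∃ q ∈ T, R p q := by
    intro p hp
    obtain ⟨-, σ, τ, s, hσ, hτ, hr⟩ := (NT1_mem p).1 hp
    exact ⟨⟨τ, s⟩, (hmemT τ s).2 ⟨hτ, NT1_abs hr hd hf⟩, σ, hσ, hτ, hr⟩
  have hb : ∀ p ∈ zs M α β γ d e f g h, ∀ p' ∈ zs M α β γ d e f g h, ∀ q, R p q → R p' q →
      p = p' := by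
    rintro ⟨i, j⟩ hp ⟨i', j'⟩ hp' q ⟨σ, hσ, -, hr⟩ ⟨σ', hσ', -, hr'⟩
    obtain ⟨⟨h1, h2, h3, h4⟩, -⟩ := (NT1_mem _).1 hp
    obtain ⟨⟨h1', h2', h3', h4'⟩, -⟩ := (NT1_mem _).1 hp'
    obtain ⟨a, b, ea, eb⟩ := NT1_inj hr hr' hd hf hfh hdA
    simp only at h1 h2 h3 h4 h1' h2' h3' h4' ea eb
    have ha0 : a = 0 := by
      have e1 : (M : ℤ) * a < M * 1 := by
        rcases hσ with rfl | rfl <;> rcases hσ' with rfl | rfl <;> nlinarith
      have e2 : (M : ℤ) * (-1) < M * a := by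
        rcases hσ with rfl | rfl <;> rcases hσ' with rfl | rfl <;> nlinarith
      have e3 := lt_of_mul_lt_mul_left e1 hM0.le
      have e4 := lt_of_mul_lt_mul_left e2 hM0.le
      omega
    subst ha0
    have hσσ : σ = σ' := by
      rcases hσ with rfl | rfl <;> rcases hσ' with rfl | rfl
      · rfl
      · exfalso; nlinarith
      · exfalso; nlinarith
      · rfl
    subst hσσ
    have hb0 : b = 0 := by
      have e1 : (M : ℤ) * b < M * 1 := by
        rcases hσ with rfl | rfl <;> nlinarith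
      have e2 : (M : ℤ) * (-1) < M * b := by
        rcases hσ with rfl | rfl <;> nlinarith
      have e3 := lt_of_mul_lt_mul_left e1 hM0.le
      have e4 := lt_of_mul_lt_mul_left e2 hM0.le
      omega
    subst hb0
    rcases hσ with rfl | rfl
    · ext
      · show i = i'
        linarith
      · show j = j'
        linarith
    · ext
      · show i = i'
        linarith
      · show j = j'
        linarith
  have hc : ∀ q ∈ T, ∃ p ∈ zs M α β γ d e f g h, R p q := by
    rintro ⟨τ, s⟩ hq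
    obtain ⟨hτ, hs⟩ := (hmemT τ s).1 hq
    obtain ⟨i, j, hr⟩ := NT1_surj (τ := τ) hd hf hM hα hβ hfh hdA hs
    -- reduce `i`
    have hi := Int.emod_add_mul_ediv i (2 * M)
    have hr0 := Int.emod_nonneg i (by positivity : (2 * (M : ℤ)) ≠ 0)
    have hr1 := Int.emod_lt_of_pos i (by positivity : (0 : ℤ) < 2 * M)
    set r := i % (2 * (M : ℤ)) with hrdef
    set a := i / (2 * (M : ℤ)) with hadef
    have hri : r = i + 2 * M * (-a) := by linarith
    obtain ⟨k, -, -, hk, -⟩ := id hr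
    have hne : ∀ c : ℤ, α ≠ M * c := by
      intro c hcc
      have h0 : 0 < c := by
        by_contra hcn
        push Not at hcn
        nlinarith
      nlinarith
    have hrne0 : r ≠ 0 := by
      intro h0
      apply hne (2 * d * a - 2 * k)
      rw [h0] at hri
      linear_combination (-d) * hri - hk
    have hrneM : r ≠ M := by
      intro h0
      apply hne (d + 2 * d * a - 2 * k)
      rw [h0] at hri
      linear_combination (-d) * hri - hk
    obtain ⟨σ, i1, a1, hσ, hi1, hi1', hi1''⟩ : ∃ σ i1 a1 : ℤ, (σ = 1 ∨ σ = -1) ∧ 0 < i1 ∧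
        i1 < M ∧ σ * i1 = i + 2 * M * a1 := by
      rcases lt_or_gt_of_ne hrneM with hlt | hgt
      · exact ⟨1, r, -a, Or.inl rfl, by omega, hlt, by linarith⟩
      · refine ⟨-1, 2 * M - r, -a - 1, Or.inr rfl, by linarith, by linarith, ?_⟩
        linear_combination hri
    -- reduce `j`
    obtain ⟨j1, b1, hj1, hj1', hj1''⟩ : ∃ j1 b1 : ℤ, -(M : ℤ) ≤ j1 ∧ j1 < M ∧
        σ * j1 = j + 2 * M * b1 := by
      have hj := Int.emod_add_mul_ediv (σ * j + M) (2 * M)
      have hs0 := Int.emod_nonneg (σ * j + M) (by positivity : (2 * (M : ℤ)) ≠ 0)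
      have hs1 := Int.emod_lt_of_pos (σ * j + M) (by positivity : (0 : ℤ) < 2 * M)
      refine ⟨(σ * j + M) % (2 * (M : ℤ)) - M, -(σ * ((σ * j + M) / (2 * (M : ℤ)))),
        by linarith, by linarith, ?_⟩
      have hσ2 : σ * σ = 1 := by rcases hσ with rfl | rfl <;> norm_num
      linear_combination σ * hj + j * hσ2
    have hfin := NT1_shift hr a1 b1
    rw [← hi1'', ← hj1''] at hfin
    have hsig : NT1rel M α β γ d e f g h (σ * i1) (σ * j1) τ s := hfin
    exact ⟨(i1, j1), (NT1_mem _).2 ⟨⟨hi1, hi1', hj1, hj1'⟩, σ, τ, s, hσ, hτ, hsig⟩,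
      σ, hσ, hτ, hsig⟩
  have hd' : ∀ p q q', R p q → R p q' → q = q' := by
    rintro ⟨i, j⟩ ⟨τ, s⟩ ⟨τ', s'⟩ ⟨σ, hσ, hτ, hr⟩ ⟨σ', hσ', hτ', hr'⟩
    have hσσ : σ = σ' := by
      rcases hσ with rfl | rfl <;> rcases hσ' with rfl | rfl
      · rfl
      · exfalso
        simp only [one_mul, neg_mul] at hr hr'
        exact NT1_sign hr hr' hα0 hαM
      · exfalso
        simp only [one_mul, neg_mul] at hr hr'
        exact NT1_sign hr' hr hα0 hαM
      · rfl
    subst hσσ
    obtain ⟨e1, e2⟩ := NT1_uniq hr hr' hτ hτ' hβ0 hβM hγM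
    simp only at e1 e2
    subst e1
    subst e2
    rfl
  refine Finset.card_bij (fun p hp => (ha p hp).choose) ?_ ?_ ?_
  · intro p hp
    exact (ha p hp).choose_spec.1
  · intro p hp p' hp' he
    refine hb p hp p' hp' (ha p hp).choose (ha p hp).choose_spec.2 ?_
    rw [he]
    exact (ha p' hp').choose_spec.2
  · intro q hq
    obtain ⟨p, hp, hR⟩ := hc q hq
    exact ⟨p, hp, hd' p _ _ (ha p hp).choose_spec.2 hR⟩

end H67PP
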