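import Pool.Agent.H67.PP.Defs

/-! NT2: the parity of the count. -/

namespace H67PP

theorem NT2_fl {N : ℤ} (hN : 0 < N) (t k : ℤ) (h1 : k * N ≤ t) (h2 : t < (k + 1) * N) :
    t / N = k := by
  apply le_antisymm
  · exact Int.lt_add_one_iff.1 ((Int.ediv_lt_iff_lt_mul hN).2 h2)
  · exact (Int.le_ediv_iff_mul_le hN).2 h1

theorem NT2_nd {N : ℤ} (hN : 0 < N) (t k : ℤ) (h1 : k * N < t) (h2 : t < (k + 1) * N) :
    ¬ N ∣ t := by
  rintro ⟨j, rfl⟩
  have h3 : k < j := by
    by_contra hc
    push Not at hc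
    nlinarith
  have h4 : j < k + 1 := by
    by_contra hc
    push Not at hc
    nlinarith
  omega

theorem NT2_floor (M W Z : ℤ) (hM : 0 < M) (hZ : 0 < Z) (h : ¬ 2 * M ∣ W + Z) :
    ((cnt M W Z : ℕ) : ℤ) = (W + Z) / (2 * M) - (W - Z) / (2 * M) := by
  have hN : 0 < 2 * M := by linarith
  have hset : ((Finset.Icc (-(|W| + |Z|)) (|W| + |Z|)).filter (fun s => |2 * M * s - W| < Z)) =
      Finset.Ioc ((W - Z) / (2 * M)) ((W + Z) / (2 * M)) := by
    ext s
    simp only [Finset.mem_filter, Finset.mem_Icc, Finset.mem_Ioc, abs_lt]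
    rw [Int.ediv_lt_iff_lt_mul hN, Int.le_ediv_iff_mul_le hN]
    constructor
    · rintro ⟨-, h1, h2⟩
      constructor
      · linarith
      · linarith
    · rintro ⟨h1, h2⟩
      have h3 : s * (2 * M) ≠ W + Z := fun hc => h ⟨s, by linarith⟩
      have h4 : s * (2 * M) < W + Z := lt_of_le_of_ne h2 h3
      have hW1 := le_abs_self W
      have hW2 := neg_abs_le W
      have hZ1 := le_abs_self Z
      refine ⟨⟨?_, ?_⟩, by linarith, by linarith⟩
      · rcases le_or_gt 0 s with hs | hs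
        · have := abs_nonneg W
          have := abs_nonneg Z
          linarith
        · nlinarith
      · rcases le_or_gt s 0 with hs | hs
        · have := abs_nonneg W
          have := abs_nonneg Z
          linarith
        · nlinarith
  unfold cnt
  rw [hset, Int.card_Ioc]
  have hle : (W - Z) / (2 * M) ≤ (W + Z) / (2 * M) :=
    Int.ediv_le_ediv hN (by linarith)
  rw [Int.toNat_of_nonneg (by linarith)]

theorem NT2_par {M X Y Z : ℤ} (hM : 0 < M) (hZ : 0 < Z) (K d1 d2 d3 d4 k1 k2 k3 : ℤ)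
    (f1 : (k1 + k2 + k3 + d1) * (2 * M) < X + Y + Z)
    (g1 : X + Y + Z < (k1 + k2 + k3 + d1 + 1) * (2 * M))
    (f2 : (k1 + k2 - k3 + d2) * (2 * M) < X + Y - Z)
    (g2 : X + Y - Z < (k1 + k2 - k3 + d2 + 1) * (2 * M))
    (f3 : (k1 - k2 + k3 + d3) * (2 * M) < X - Y + Z)
    (g3 : X - Y + Z < (k1 - k2 + k3 + d3 + 1) * (2 * M))
    (f4 : (k1 - k2 - k3 + d4) * (2 * M) < X - Y - Z)
    (g4 : X - Y - Z < (k1 - k2 - k3 + d4 + 1) * (2 * M))
    (hd : d1 - d2 + d3 - d4 = 2 * K + 1) :
    Odd (cnt M (X + Y) Z + cnt M (X - Y) Z) := by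
  have hN : 0 < 2 * M := by linarith
  have e1 := NT2_floor M (X + Y) Z hM hZ (NT2_nd hN _ _ f1 g1)
  have e2 := NT2_floor M (X - Y) Z hM hZ (NT2_nd hN _ _ f3 g3)
  rw [NT2_fl hN _ _ f1.le g1, NT2_fl hN _ _ f2.le g2] at e1
  rw [NT2_fl hN _ _ f3.le g3, NT2_fl hN _ _ f4.le g4] at e2
  have : Odd (((cnt M (X + Y) Z + cnt M (X - Y) Z : ℕ) : ℤ)) := by
    push_cast
    rw [e1, e2]
    exact ⟨2 * k3 + K, by linarith⟩
  exact_mod_cast this

theorem t_NT2 : S_NT2 := by
  rintro M X Y Z a b c hM hZ ⟨k1, h1⟩ ⟨k2, h2⟩ ⟨k3, h3⟩ t1 t2 t3 t4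
  rcases h1 with h1 | h1 <;> rcases h2 with h2 | h2 <;> rcases h3 with h3 | h3
  · exact NT2_par hM hZ (0) (0) (0) (0) (-1) k1 k2 k3 (by linarith) (by linarith) (by linarith)
      (by linarith) (by linarith) (by linarith) (by linarith) (by linarith) (by norm_num)
  · exact NT2_par hM hZ (-1) (0) (0) (-1) (0) k1 k2 k3 (by linarith) (by linarith) (by linarith)
      (by linarith) (by linarith) (by linarith) (by linarith) (by linarith) (by norm_num)
  · exact NT2_par hM hZ (0) (0) (-1) (0) (0) k1 k2 k3 (by linarith) (by linarith) (by linarith)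
      (by linarith) (by linarith) (by linarith) (by linarith) (by linarith) (by norm_num)
  · exact NT2_par hM hZ (-1) (-1) (0) (0) (0) k1 k2 k3 (by linarith) (by linarith) (by linarith)
      (by linarith) (by linarith) (by linarith) (by linarith) (by linarith) (by norm_num)
  · exact NT2_par hM hZ (0) (0) (-1) (-1) (-1) k1 k2 k3 (by linarith) (by linarith) (by linarith)
      (by linarith) (by linarith) (by linarith) (by linarith) (by linarith) (by norm_num)
  · exact NT2_par hM hZ (-1) (-1) (0) (-1) (-1) k1 k2 k3 (by linarith) (by linarith) (by linarith)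
      (by linarith) (by linarith) (by linarith) (by linarith) (by linarith) (by norm_num)
  · exact NT2_par hM hZ (0) (-1) (-1) (0) (-1) k1 k2 k3 (by linarith) (by linarith) (by linarith)
      (by linarith) (by linarith) (by linarith) (by linarith) (by linarith) (by norm_num)
  · exact NT2_par hM hZ (-1) (-1) (-1) (-1) (0) k1 k2 k3 (by linarith) (by linarith) (by linarith)
      (by linarith) (by linarith) (by linarith) (by linarith) (by linarith) (by norm_num)

end H67PP
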