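import Pool.Agent.H67.PP.Defs

/-!
# Orders of unit quaternions
-/

namespace H67PP

open Quaternion

private theorem ORD_normSq (s t φ : ℝ) (c : F2) :
    Quaternion.normSq (((rho s t φ) c : ℍ[ℝ]ˣ) : ℍ[ℝ]) = 1 := by
  induction c using FreeGroup.induction_on with
  | C1 => simp
  | of x =>
    unfold rho
    rw [FreeGroup.lift_apply_of]
    fin_cases x
    · exact normSq_gv s
    · exact normSq_hv t φ
  | inv_of x hx =>
    have h : (((rho s t φ) (FreeGroup.of x)⁻¹ : ℍ[ℝ]ˣ) : ℍ[ℝ]) *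
        (((rho s t φ) (FreeGroup.of x) : ℍ[ℝ]ˣ) : ℍ[ℝ]) = 1 := by
      rw [map_inv, Units.inv_mul]
    have h2 := congrArg Quaternion.normSq h
    rw [map_mul, hx, mul_one, map_one] at h2
    exact h2
  | mul x y hx hy =>
    rw [map_mul, Units.val_mul, map_mul, hx, hy, mul_one]

/-- a unit quaternion satisfies its quadratic equation -/
private theorem ORD_sq (q : ℍ[ℝ]) (θ : ℝ) (hn : Quaternion.normSq q = 1)
    (hre : q.re = Real.cos θ) : q * q = (2 * Real.cos θ) • q - 1 := by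
  rw [Quaternion.normSq_def'] at hn
  ext <;> simp [← hre] <;> nlinarith [hn]

private theorem ORD_pow (q : ℍ[ℝ]) (θ : ℝ) (hn : Quaternion.normSq q = 1)
    (hre : q.re = Real.cos θ) (k : ℕ) :
    Real.sin θ • q ^ k = Real.sin (k * θ) • q - Real.sin ((k - 1 : ℝ) * θ) • (1 : ℍ[ℝ]) := by
  induction k with
  | zero => simp
  | succ k ih =>
    rw [pow_succ, ← smul_mul_assoc, ih, sub_mul, smul_mul_assoc, ORD_sq q θ hn hre,
      smul_mul_assoc, one_mul, smul_sub, smul_smul]
    have e1 : Real.sin (((k + 1 : ℕ) : ℝ) * θ) =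
        Real.sin (k * θ) * (2 * Real.cos θ) - Real.sin ((k - 1 : ℝ) * θ) := by
      have a1 : ((k + 1 : ℕ) : ℝ) * θ = k * θ + θ := by push_cast; ring
      have a2 : (k - 1 : ℝ) * θ = k * θ - θ := by ring
      rw [a1, a2, Real.sin_add, Real.sin_sub]
      ring
    have e2 : (((k + 1 : ℕ) : ℝ) - 1) * θ = k * θ := by push_cast; ring
    rw [e1, e2, sub_smul]
    abel

theorem t_ORD : S_ORD := by
  intro c s t φ l r hr hrl hR
  have hn := ORD_normSq s t φ c
  set q : ℍ[ℝ] := (((rho s t φ) c : ℍ[ℝ]ˣ) : ℍ[ℝ]) with hq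
  have hre : q.re = Real.cos (Real.pi * r / l) := hR
  have hl0 : (0 : ℝ) < l := by
    have : (0 : ℤ) < l := lt_trans hr hrl
    exact_mod_cast this
  have hr0 : (0 : ℝ) < r := by exact_mod_cast hr
  have hrl' : (r : ℝ) < l := by exact_mod_cast hrl
  have hθ0 : 0 < Real.pi * r / l := by positivity
  have hθπ : Real.pi * r / l < Real.pi := by
    rw [div_lt_iff₀ hl0]
    exact mul_lt_mul_of_pos_left hrl' Real.pi_pos
  set θ : ℝ := Real.pi * r / l with hθ
  have hsin : 0 < Real.sin θ := Real.sin_pos_of_pos_of_lt_pi hθ0 hθπ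
  have hlnat : ((l.toNat : ℕ) : ℝ) = (l : ℝ) := by
    have : ((l.toNat : ℕ) : ℤ) = l := Int.toNat_of_nonneg (le_of_lt (lt_trans hr hrl))
    exact_mod_cast this
  have hlθ : (l.toNat : ℝ) * θ = r * Real.pi := by
    rw [hlnat, hθ]; field_simp
  have hlθ' : ((l.toNat : ℝ) - 1) * θ = r * Real.pi - θ := by
    rw [sub_mul, hlθ, one_mul]
  have hpow := ORD_pow q θ hn hre l.toNat
  rw [hlθ, hlθ', Real.sin_int_mul_pi, zero_smul, zero_sub, Real.sin_sub, Real.sin_int_mul_pi,
    zero_mul, zero_sub, neg_smul, neg_neg] at hpow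
  refine ⟨?_, ?_⟩
  · have hcos : Real.cos (r * Real.pi) = 1 ∨ Real.cos (r * Real.pi) = -1 := by
      have h := Real.sin_sq_add_cos_sq (r * Real.pi)
      rw [Real.sin_int_mul_pi] at h
      have h' : Real.cos (r * Real.pi) ^ 2 = 1 := by linarith
      have h2 : (Real.cos (r * Real.pi) - 1) * (Real.cos (r * Real.pi) + 1) = 0 := by
        linear_combination h'
      rcases mul_eq_zero.mp h2 with h3 | h3
      · left; linarith
      · right; linarith
    rcases hcos with h | h
    · left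
      rw [h, one_mul] at hpow
      have := smul_right_injective ℍ[ℝ] (ne_of_gt hsin) hpow
      exact this
    · right
      rw [h, neg_one_mul, neg_smul, ← smul_neg] at hpow
      have := smul_right_injective ℍ[ℝ] (ne_of_gt hsin) hpow
      exact this
  · by_contra hcon
    push Not at hcon
    obtain ⟨I, hI⟩ : ∃ I : ℍ[ℝ], I = ⟨0, 1, 0, 0⟩ := ⟨_, rfl⟩
    obtain ⟨J, hJ⟩ : ∃ J : ℍ[ℝ], J = ⟨0, 0, 1, 0⟩ := ⟨_, rfl⟩
    have hi := hcon I
    have hj := hcon J
    have hi3 : (q * I).imK = (I * q).imK := by rw [hi]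
    have hi2 : (q * I).imJ = (I * q).imJ := by rw [hi]
    have hj3 : (q * J).imK = (J * q).imK := by rw [hj]
    rw [Quaternion.imK_mul, Quaternion.imK_mul] at hi3 hj3
    rw [Quaternion.imJ_mul, Quaternion.imJ_mul] at hi2
    rw [hI] at hi3 hi2
    rw [hJ] at hj3
    dsimp only at hi3 hi2 hj3
    have h2 : q.imJ = 0 := by linarith
    have h3 : q.imK = 0 := by linarith
    have h1 : q.imI = 0 := by linarith
    rw [Quaternion.normSq_def', h1, h2, h3] at hn
    have h := Real.sin_sq_add_cos_sq θ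
    rw [hre] at hn
    have : Real.sin θ ^ 2 = 0 := by nlinarith
    have : 0 < Real.sin θ ^ 2 := by positivity
    linarith

end H67PP
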