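import Pool.Agent.H67.PP.Defs

namespace H67PP

open Quaternion

private theorem ordb_norm (s t φ : ℝ) (c : F2) :
    Quaternion.normSq (((rho s t φ) c : ℍ[ℝ]ˣ) : ℍ[ℝ]) = 1 := by
  induction c using FreeGroup.induction_on with
  | C1 => simp
  | of x =>
    fin_cases x
    · simpa [rho, gq] using normSq_gv s
    · simpa [rho, hq] using normSq_hv t φ
  | inv_of x ih =>
    rw [map_inv]
    have := map_inv₀ (Quaternion.normSq (R := ℝ)) (((rho s t φ) (FreeGroup.of x) : ℍ[ℝ]ˣ) : ℍ[ℝ])
    rw [Units.val_inv_eq_inv_val, this, ih, inv_one]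
  | mul x y hx hy => rw [map_mul, Units.val_mul, map_mul, hx, hy, mul_one]

private theorem ordb_sq (q : ℍ[ℝ]) (hq : Quaternion.normSq q = 1) :
    q * q = (2 * q.re) • q - 1 := by
  rw [Quaternion.normSq_def'] at hq
  ext
  · simp; nlinarith [hq]
  · simp; ring
  · simp; ring
  · simp; ring

private theorem ordb_pow (q : ℍ[ℝ]) (th : ℝ) (hq : Quaternion.normSq q = 1)
    (hre : q.re = Real.cos th) (k : ℕ) :
    (Real.sin th) • q ^ (k + 1) =
      (Real.sin ((k + 1) * th)) • q - (Real.sin (k * th)) • (1 : ℍ[ℝ]) := by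
  induction k with
  | zero => simp
  | succ n ih =>
    have h1 : (Real.sin th) • q ^ (n + 1 + 1) = ((Real.sin th) • q ^ (n + 1)) * q := by
      rw [pow_succ q (n + 1), smul_mul_assoc]
    rw [h1, ih, sub_mul, smul_mul_assoc, ordb_sq q hq, hre, smul_mul_assoc, one_mul, smul_sub,
      smul_smul]
    have e1 : Real.sin ((((n + 1 : ℕ) : ℝ) + 1) * th) =
        Real.sin ((n + 1) * th) * (2 * Real.cos th) - Real.sin (n * th) := by
      have a1 : (((n + 1 : ℕ) : ℝ) + 1) * th = (n + 1) * th + th := by push_cast; ring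
      have a2 : (n : ℝ) * th = (n + 1) * th - th := by ring
      rw [a1, a2, Real.sin_add, Real.sin_sub]
      ring
    have e2 : Real.sin (((n + 1 : ℕ) : ℝ) * th) = Real.sin ((n + 1) * th) := by push_cast; ring_nf
    rw [e1, e2, sub_smul]
    abel

theorem t_ORDb : S_ORD := by
  intro c s t φ l r hr hrl hR
  set q : ℍ[ℝ] := (((rho s t φ) c : ℍ[ℝ]ˣ) : ℍ[ℝ]) with hqdef
  have hn : Quaternion.normSq q = 1 := ordb_norm s t φ c
  have hl : 0 < l := by omega
  have hlR : (0 : ℝ) < l := by exact_mod_cast hl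
  set th : ℝ := Real.pi * r / l with hth
  have hre : q.re = Real.cos th := hR
  have hth0 : 0 < th := by
    have : (0 : ℝ) < r := by exact_mod_cast hr
    positivity
  have hthpi : th < Real.pi := by
    rw [hth, div_lt_iff₀ hlR]
    have : (r : ℝ) < l := by exact_mod_cast hrl
    exact mul_lt_mul_of_pos_left this Real.pi_pos
  have hsin : 0 < Real.sin th := Real.sin_pos_of_pos_of_lt_pi hth0 hthpi
  constructor
  · obtain ⟨k, hk⟩ : ∃ k : ℕ, l.toNat = k + 1 := ⟨l.toNat - 1, by omega⟩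
    have hkl : ((k : ℝ) + 1) = l := by
      have : ((k + 1 : ℕ) : ℤ) = l := by rw [← hk]; exact Int.toNat_of_nonneg hl.le
      exact_mod_cast this
    have hp := ordb_pow q th hn hre k
    have a1 : ((k : ℝ) + 1) * th = r * Real.pi := by
      rw [hkl, hth]; field_simp
    have a2 : (k : ℝ) * th = r * Real.pi - th := by
      have : (k : ℝ) * th = ((k : ℝ) + 1) * th - th := by ring
      rw [this, a1]
    rw [a1, a2, Real.sin_int_mul_pi, zero_smul, zero_sub, Real.sin_sub, Real.sin_int_mul_pi,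
      zero_mul, zero_sub] at hp
    have hc : Real.cos (r * Real.pi) = 1 ∨ Real.cos (r * Real.pi) = -1 := by
      have := Real.cos_int_mul_pi r
      rw [this]
      rcases Int.even_or_odd r with he | ho
      · left; exact he.neg_one_zpow
      · right; exact ho.neg_one_zpow
    rw [hk]
    have hs0 : Real.sin th ≠ 0 := hsin.ne'
    rcases hc with hc | hc
    · left
      rw [hc, one_mul, neg_smul, neg_neg] at hp
      exact smul_right_injective _ hs0 hp
    · right
      rw [hc] at hp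
      have : (Real.sin th) • q ^ (k + 1) = (Real.sin th) • (-1 : ℍ[ℝ]) := by
        rw [hp]; simp
      exact smul_right_injective _ hs0 this
  · by_contra hcon
    push Not at hcon
    obtain ⟨x, x0, x1, x2, x3⟩ : ∃ x : ℍ[ℝ], x.re = 0 ∧ x.imI = 1 ∧ x.imJ = 0 ∧ x.imK = 0 :=
      ⟨⟨0, 1, 0, 0⟩, rfl, rfl, rfl, rfl⟩
    obtain ⟨y, y0, y1, y2, y3⟩ : ∃ x : ℍ[ℝ], x.re = 0 ∧ x.imI = 0 ∧ x.imJ = 1 ∧ x.imK = 0 :=
      ⟨⟨0, 0, 1, 0⟩, rfl, rfl, rfl, rfl⟩
    have i1 : (q * x).imJ = (x * q).imJ := by rw [hcon x]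
    have i2 : (q * x).imK = (x * q).imK := by rw [hcon x]
    have i3 : (q * y).imK = (y * q).imK := by rw [hcon y]
    rw [Quaternion.imJ_mul, Quaternion.imJ_mul, x0, x1, x2, x3] at i1
    rw [Quaternion.imK_mul, Quaternion.imK_mul, x0, x1, x2, x3] at i2
    rw [Quaternion.imK_mul, Quaternion.imK_mul, y0, y1, y2, y3] at i3
    have z1 : q.imK = 0 := by linarith
    have z2 : q.imJ = 0 := by linarith
    have z3 : q.imI = 0 := by linarith
    rw [Quaternion.normSq_def', z1, z2, z3] at hn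
    have : Real.cos th ^ 2 = 1 := by rw [← hre]; linarith
    have h3 := Real.sin_sq_add_cos_sq th
    nlinarith
end H67PP
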