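import Pool.Agent.H67.PP.Defs

/-!
# Sperner's parity lemma on the cubical grid
-/

namespace H67PP

/-- local fact: a tetrahedron which misses a label has an even number of doors -/
private theorem PAR3_local (a b c d x : Fin 4) (ha : a ≠ x) (hb : b ≠ x) (hc : c ≠ x)
    (hd : d ≠ x) : D b c d + D a c d + D a b d + D a b c = 0 := by
  revert a b c d x
  unfold D
  decide

private theorem PAR3_aab (a b : Fin 4) : D a a b = 0 := by
  revert a b
  unfold D
  decide

private theorem PAR3_abb (a b : Fin 4) : D a b b = 0 := by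
  revert a b
  unfold D
  decide

private theorem PAR3_two (x : ZMod 2) : x + x = 0 := CharTwo.add_self_eq_zero x

/-- telescoping modulo 2 -/
private theorem PAR3_tel (M : ℕ) (f : ℕ → ZMod 2) :
    ∑ m ∈ Finset.range M, (f m + f (m + 1)) = f 0 + f M := by
  induction M with
  | zero => simp [PAR3_two]
  | succ M ih =>
    rw [Finset.sum_range_succ, ih]
    linear_combination PAR3_two (f M)

theorem t_PAR3 : S_PAR3 := by
  intro M L hL hx0 hxM hy0 hyM
  -- the squares
  set Exy : ℕ → ℕ → ℕ → ZMod 2 := fun i j k =>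
    D (L i j k) (L (i + 1) j k) (L (i + 1) (j + 1) k) with hExy
  set Eyx : ℕ → ℕ → ℕ → ZMod 2 := fun i j k =>
    D (L i j k) (L i (j + 1) k) (L (i + 1) (j + 1) k) with hEyx
  set Exz : ℕ → ℕ → ℕ → ZMod 2 := fun i j k =>
    D (L i j k) (L (i + 1) j k) (L (i + 1) j (k + 1)) with hExz
  set Ezx : ℕ → ℕ → ℕ → ZMod 2 := fun i j k =>
    D (L i j k) (L i j (k + 1)) (L (i + 1) j (k + 1)) with hEzx
  set Eyz : ℕ → ℕ → ℕ → ZMod 2 := fun i j k =>
    D (L i j k) (L i (j + 1) k) (L i (j + 1) (k + 1)) with hEyz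
  set Ezy : ℕ → ℕ → ℕ → ZMod 2 := fun i j k =>
    D (L i j k) (L i j (k + 1)) (L i (j + 1) (k + 1)) with hEzy
  have hcube : ∀ i < M, ∀ j < M, ∀ k < M,
      ((Exy i j k + Eyx i j k) + (Exy i j (k + 1) + Eyx i j (k + 1))) +
      ((Exz i j k + Ezx i j k) + (Exz i (j + 1) k + Ezx i (j + 1) k)) +
      ((Eyz i j k + Ezy i j k) + (Eyz (i + 1) j k + Ezy (i + 1) j k)) = 0 := by
    intro i hi j hj k hk
    obtain ⟨x, hx⟩ := hL i hi j hj k hk
    have h000 := hx 0 (by norm_num) 0 (by norm_num) 0 (by norm_num)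
    have h100 := hx 1 (by norm_num) 0 (by norm_num) 0 (by norm_num)
    have h010 := hx 0 (by norm_num) 1 (by norm_num) 0 (by norm_num)
    have h001 := hx 0 (by norm_num) 0 (by norm_num) 1 (by norm_num)
    have h110 := hx 1 (by norm_num) 1 (by norm_num) 0 (by norm_num)
    have h101 := hx 1 (by norm_num) 0 (by norm_num) 1 (by norm_num)
    have h011 := hx 0 (by norm_num) 1 (by norm_num) 1 (by norm_num)
    have h111 := hx 1 (by norm_num) 1 (by norm_num) 1 (by norm_num)
    simp only [add_zero] at h000 h100 h010 h001 h110 h101 h011 h111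
    have t1 := PAR3_local _ _ _ _ x h000 h100 h110 h111
    have t2 := PAR3_local _ _ _ _ x h000 h100 h101 h111
    have t3 := PAR3_local _ _ _ _ x h000 h010 h110 h111
    have t4 := PAR3_local _ _ _ _ x h000 h010 h011 h111
    have t5 := PAR3_local _ _ _ _ x h000 h001 h101 h111
    have t6 := PAR3_local _ _ _ _ x h000 h001 h011 h111
    simp only [hExy, hEyx, hExz, hEzx, hEyz, hEzy]
    have d1 := PAR3_two (D (L i j k) (L (i + 1) (j + 1) k) (L (i + 1) (j + 1) (k + 1)))
    have d2 := PAR3_two (D (L i j k) (L (i + 1) j (k + 1)) (L (i + 1) (j + 1) (k + 1)))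
    have d3 := PAR3_two (D (L i j k) (L i (j + 1) (k + 1)) (L (i + 1) (j + 1) (k + 1)))
    have d4 := PAR3_two (D (L i j k) (L (i + 1) j k) (L (i + 1) (j + 1) (k + 1)))
    have d5 := PAR3_two (D (L i j k) (L i (j + 1) k) (L (i + 1) (j + 1) (k + 1)))
    have d6 := PAR3_two (D (L i j k) (L i j (k + 1)) (L (i + 1) (j + 1) (k + 1)))
    linear_combination t1 + t2 + t3 + t4 + t5 + t6 - d1 - d2 - d3 - d4 - d5 - d6
  have hsum : ∑ i ∈ Finset.range M, ∑ j ∈ Finset.range M, ∑ k ∈ Finset.range M,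
      (((Exy i j k + Eyx i j k) + (Exy i j (k + 1) + Eyx i j (k + 1))) +
      ((Exz i j k + Ezx i j k) + (Exz i (j + 1) k + Ezx i (j + 1) k)) +
      ((Eyz i j k + Ezy i j k) + (Eyz (i + 1) j k + Ezy (i + 1) j k))) = 0 := by
    refine Finset.sum_eq_zero fun i hi => Finset.sum_eq_zero fun j hj =>
      Finset.sum_eq_zero fun k hk => ?_
    exact hcube i (Finset.mem_range.mp hi) j (Finset.mem_range.mp hj) k (Finset.mem_range.mp hk)
  have hA : ∑ i ∈ Finset.range M, ∑ j ∈ Finset.range M, ∑ k ∈ Finset.range M,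
      ((Exy i j k + Eyx i j k) + (Exy i j (k + 1) + Eyx i j (k + 1))) =
      ∑ i ∈ Finset.range M, ∑ j ∈ Finset.range M,
        ((Exy i j 0 + Eyx i j 0) + (Exy i j M + Eyx i j M)) := by
    refine Finset.sum_congr rfl fun i _ => Finset.sum_congr rfl fun j _ => ?_
    exact PAR3_tel M (fun k => Exy i j k + Eyx i j k)
  have hB : ∑ i ∈ Finset.range M, ∑ j ∈ Finset.range M, ∑ k ∈ Finset.range M,
      ((Exz i j k + Ezx i j k) + (Exz i (j + 1) k + Ezx i (j + 1) k)) = 0 := by
    refine Finset.sum_eq_zero fun i hi => ?_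
    rw [Finset.sum_comm]
    refine Finset.sum_eq_zero fun k hk => ?_
    have hi' := Finset.mem_range.mp hi
    have hk' := Finset.mem_range.mp hk
    rw [PAR3_tel M (fun j => Exz i j k + Ezx i j k)]
    simp only [hExz, hEzx]
    rw [hy0 i (by omega) k (by omega), hy0 (i + 1) (by omega) k (by omega),
      hy0 (i + 1) (by omega) (k + 1) (by omega), hy0 i (by omega) (k + 1) (by omega),
      hyM i (by omega) k (by omega), hyM (i + 1) (by omega) k (by omega),
      hyM (i + 1) (by omega) (k + 1) (by omega), hyM i (by omega) (k + 1) (by omega),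
      PAR3_abb, PAR3_aab, PAR3_abb, PAR3_aab]
    rfl
  have hC : ∑ i ∈ Finset.range M, ∑ j ∈ Finset.range M, ∑ k ∈ Finset.range M,
      ((Eyz i j k + Ezy i j k) + (Eyz (i + 1) j k + Ezy (i + 1) j k)) = 0 := by
    rw [Finset.sum_comm]
    refine Finset.sum_eq_zero fun j hj => ?_
    rw [Finset.sum_comm]
    refine Finset.sum_eq_zero fun k hk => ?_
    have hj' := Finset.mem_range.mp hj
    have hk' := Finset.mem_range.mp hk
    rw [PAR3_tel M (fun i => Eyz i j k + Ezy i j k)]
    simp only [hEyz, hEzy]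
    rw [hx0 j (by omega) k (by omega), hx0 (j + 1) (by omega) k (by omega),
      hx0 (j + 1) (by omega) (k + 1) (by omega), hx0 j (by omega) (k + 1) (by omega),
      hxM j (by omega) k (by omega), hxM (j + 1) (by omega) k (by omega),
      hxM (j + 1) (by omega) (k + 1) (by omega), hxM j (by omega) (k + 1) (by omega),
      PAR3_abb, PAR3_aab, PAR3_abb, PAR3_aab]
    rfl
  have hsplit : ∑ i ∈ Finset.range M, ∑ j ∈ Finset.range M, ∑ k ∈ Finset.range M,
      (((Exy i j k + Eyx i j k) + (Exy i j (k + 1) + Eyx i j (k + 1))) +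
      ((Exz i j k + Ezx i j k) + (Exz i (j + 1) k + Ezx i (j + 1) k)) +
      ((Eyz i j k + Ezy i j k) + (Eyz (i + 1) j k + Ezy (i + 1) j k))) =
      (∑ i ∈ Finset.range M, ∑ j ∈ Finset.range M, ∑ k ∈ Finset.range M,
      ((Exy i j k + Eyx i j k) + (Exy i j (k + 1) + Eyx i j (k + 1)))) +
      (∑ i ∈ Finset.range M, ∑ j ∈ Finset.range M, ∑ k ∈ Finset.range M,
      ((Exz i j k + Ezx i j k) + (Exz i (j + 1) k + Ezx i (j + 1) k))) +
      (∑ i ∈ Finset.range M, ∑ j ∈ Finset.range M, ∑ k ∈ Finset.range M,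
      ((Eyz i j k + Ezy i j k) + (Eyz (i + 1) j k + Ezy (i + 1) j k))) := by
    rw [← Finset.sum_add_distrib, ← Finset.sum_add_distrib]
    refine Finset.sum_congr rfl fun i _ => ?_
    rw [← Finset.sum_add_distrib, ← Finset.sum_add_distrib]
    refine Finset.sum_congr rfl fun j _ => ?_
    rw [← Finset.sum_add_distrib, ← Finset.sum_add_distrib]
  rw [hsplit, hB, hC, add_zero, add_zero, hA] at hsum
  have hfin : ∑ i ∈ Finset.range M, ∑ j ∈ Finset.range M,
        ((Exy i j 0 + Eyx i j 0) + (Exy i j M + Eyx i j M)) =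
      (∑ i ∈ Finset.range M, ∑ j ∈ Finset.range M, (Exy i j 0 + Eyx i j 0)) +
      (∑ i ∈ Finset.range M, ∑ j ∈ Finset.range M, (Exy i j M + Eyx i j M)) := by
    rw [← Finset.sum_add_distrib]
    refine Finset.sum_congr rfl fun i _ => ?_
    rw [← Finset.sum_add_distrib]
  rw [hfin] at hsum
  exact hsum

end H67PP
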