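import Pool.Agent.H67.PP.Defs

namespace H67PP

private theorem p3_local : ∀ a b c d : Fin 4, (∃ x : Fin 4, a ≠ x ∧ b ≠ x ∧ c ≠ x ∧ d ≠ x) →
    D b c d + D a c d + D a b d + D a b c = 0 := by
  unfold D
  decide

private theorem p3_aab : ∀ a b : Fin 4, D a a b = 0 := by unfold D; decide
private theorem p3_abb : ∀ a b : Fin 4, D a b b = 0 := by unfold D; decide

private theorem p3_tel (f : ℕ → ZMod 2) (M : ℕ) :
    ∑ m ∈ Finset.range M, (f m + f (m + 1)) = f 0 + f M := by
  induction M with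
  | zero => simp; exact (CharTwo.add_self_eq_zero _).symm
  | succ n ih =>
    rw [Finset.sum_range_succ, ih]
    have := CharTwo.add_self_eq_zero (f n)
    linear_combination this

/-- the cube relation -/
private theorem p3_cube (L : ℕ → ℕ → ℕ → Fin 4) (i j k : ℕ)
    (h : ∃ x : Fin 4, ∀ a ≤ 1, ∀ b ≤ 1, ∀ c ≤ 1, L (i + a) (j + b) (k + c) ≠ x) :
    ((D (L i j k) (L (i + 1) j k) (L (i + 1) (j + 1) k) +
      D (L i j k) (L i (j + 1) k) (L (i + 1) (j + 1) k)) +
     (D (L i j (k + 1)) (L (i + 1) j (k + 1)) (L (i + 1) (j + 1) (k + 1)) +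
      D (L i j (k + 1)) (L i (j + 1) (k + 1)) (L (i + 1) (j + 1) (k + 1)))) +
    ((D (L i j k) (L i (j + 1) k) (L i (j + 1) (k + 1)) +
      D (L i j k) (L i j (k + 1)) (L i (j + 1) (k + 1))) +
     (D (L (i + 1) j k) (L (i + 1) (j + 1) k) (L (i + 1) (j + 1) (k + 1)) +
      D (L (i + 1) j k) (L (i + 1) j (k + 1)) (L (i + 1) (j + 1) (k + 1)))) +
    ((D (L i j k) (L (i + 1) j k) (L (i + 1) j (k + 1)) +
      D (L i j k) (L i j (k + 1)) (L (i + 1) j (k + 1))) +
     (D (L i (j + 1) k) (L (i + 1) (j + 1) k) (L (i + 1) (j + 1) (k + 1)) +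
      D (L i (j + 1) k) (L i (j + 1) (k + 1)) (L (i + 1) (j + 1) (k + 1)))) = 0 := by
  obtain ⟨x, hx⟩ := h
  have h000 := hx 0 (by norm_num) 0 (by norm_num) 0 (by norm_num)
  have h001 := hx 0 (by norm_num) 0 (by norm_num) 1 (by norm_num)
  have h010 := hx 0 (by norm_num) 1 (by norm_num) 0 (by norm_num)
  have h011 := hx 0 (by norm_num) 1 (by norm_num) 1 (by norm_num)
  have h100 := hx 1 (by norm_num) 0 (by norm_num) 0 (by norm_num)
  have h101 := hx 1 (by norm_num) 0 (by norm_num) 1 (by norm_num)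
  have h110 := hx 1 (by norm_num) 1 (by norm_num) 0 (by norm_num)
  have h111 := hx 1 (by norm_num) 1 (by norm_num) 1 (by norm_num)
  simp only [add_zero] at h000 h001 h010 h011 h100 h101 h110
  generalize L i j k = v000 at *
  generalize L i j (k + 1) = v001 at *
  generalize L i (j + 1) k = v010 at *
  generalize L i (j + 1) (k + 1) = v011 at *
  generalize L (i + 1) j k = v100 at *
  generalize L (i + 1) j (k + 1) = v101 at *
  generalize L (i + 1) (j + 1) k = v110 at *
  generalize L (i + 1) (j + 1) (k + 1) = v111 at *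
  -- six tetrahedra
  have t1 := p3_local v000 v100 v110 v111 ⟨x, h000, h100, h110, h111⟩
  have t2 := p3_local v000 v100 v101 v111 ⟨x, h000, h100, h101, h111⟩
  have t3 := p3_local v000 v010 v110 v111 ⟨x, h000, h010, h110, h111⟩
  have t4 := p3_local v000 v010 v011 v111 ⟨x, h000, h010, h011, h111⟩
  have t5 := p3_local v000 v001 v101 v111 ⟨x, h000, h001, h101, h111⟩
  have t6 := p3_local v000 v001 v011 v111 ⟨x, h000, h001, h011, h111⟩
  have c1 := CharTwo.add_self_eq_zero (D v000 v110 v111)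
  have c2 := CharTwo.add_self_eq_zero (D v000 v101 v111)
  have c3 := CharTwo.add_self_eq_zero (D v000 v011 v111)
  have c4 := CharTwo.add_self_eq_zero (D v000 v100 v111)
  have c5 := CharTwo.add_self_eq_zero (D v000 v010 v111)
  have c6 := CharTwo.add_self_eq_zero (D v000 v001 v111)
  linear_combination t1 + t2 + t3 + t4 + t5 + t6 - c1 - c2 - c3 - c4 - c5 - c6

theorem t_PAR3b : S_PAR3 := by
  intro M L h hx0 hxM hy0 hyM
  -- the three families of faces
  set Ez : ℕ → ℕ → ℕ → ZMod 2 := fun i j k =>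
    (D (L i j k) (L (i + 1) j k) (L (i + 1) (j + 1) k) +
      D (L i j k) (L i (j + 1) k) (L (i + 1) (j + 1) k)) with hEz
  set Ex : ℕ → ℕ → ℕ → ZMod 2 := fun i j k =>
    (D (L i j k) (L i (j + 1) k) (L i (j + 1) (k + 1)) +
      D (L i j k) (L i j (k + 1)) (L i (j + 1) (k + 1))) with hEx
  set Ey : ℕ → ℕ → ℕ → ZMod 2 := fun i j k =>
    (D (L i j k) (L (i + 1) j k) (L (i + 1) j (k + 1)) +
      D (L i j k) (L i j (k + 1)) (L (i + 1) j (k + 1))) with hEy
  have hsum : ∑ i ∈ Finset.range M, ∑ j ∈ Finset.range M, ∑ k ∈ Finset.range M,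
      ((Ez i j k + Ez i j (k + 1)) + (Ex i j k + Ex (i + 1) j k) + (Ey i j k + Ey i (j + 1) k)) = 0 := by
    refine Finset.sum_eq_zero fun i hi => Finset.sum_eq_zero fun j hj =>
      Finset.sum_eq_zero fun k hk => ?_
    exact p3_cube L i j k (h i (Finset.mem_range.1 hi) j (Finset.mem_range.1 hj) k
      (Finset.mem_range.1 hk))
  simp only [Finset.sum_add_distrib] at hsum
  have sz : ∑ i ∈ Finset.range M, ∑ j ∈ Finset.range M, ∑ k ∈ Finset.range M, Ez i j k +
      ∑ i ∈ Finset.range M, ∑ j ∈ Finset.range M, ∑ k ∈ Finset.range M, Ez i j (k + 1) =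
      ∑ i ∈ Finset.range M, ∑ j ∈ Finset.range M, Ez i j 0 +
      ∑ i ∈ Finset.range M, ∑ j ∈ Finset.range M, Ez i j M := by
    simp only [← Finset.sum_add_distrib]
    refine Finset.sum_congr rfl fun i _ => Finset.sum_congr rfl fun j _ => ?_
    exact p3_tel (fun k => Ez i j k) M
  have sx : ∑ i ∈ Finset.range M, ∑ j ∈ Finset.range M, ∑ k ∈ Finset.range M, Ex i j k +
      ∑ i ∈ Finset.range M, ∑ j ∈ Finset.range M, ∑ k ∈ Finset.range M, Ex (i + 1) j k = 0 := by
    have e1 : ∀ g : ℕ → ℕ → ℕ → ZMod 2,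
        ∑ i ∈ Finset.range M, ∑ j ∈ Finset.range M, ∑ k ∈ Finset.range M, g i j k =
        ∑ j ∈ Finset.range M, ∑ k ∈ Finset.range M, ∑ i ∈ Finset.range M, g i j k := by
      intro g
      rw [Finset.sum_comm]
      refine Finset.sum_congr rfl fun j _ => ?_
      rw [Finset.sum_comm]
    rw [e1 (fun i j k => Ex i j k), e1 (fun i j k => Ex (i + 1) j k)]
    simp only [← Finset.sum_add_distrib]
    refine Finset.sum_eq_zero fun j hj => Finset.sum_eq_zero fun k hk => ?_
    rw [p3_tel (fun i => Ex i j k) M]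
    have hj := Finset.mem_range.1 hj
    have hk := Finset.mem_range.1 hk
    have a0 : Ex 0 j k = 0 := by
      simp only [hEx]
      rw [hx0 j hj.le k hk.le, hx0 j hj.le (k + 1) hk, hx0 (j + 1) hj k hk.le,
        hx0 (j + 1) hj (k + 1) hk, p3_aab, p3_abb, add_zero]
    have aM : Ex M j k = 0 := by
      simp only [hEx]
      rw [hxM j hj.le k hk.le, hxM j hj.le (k + 1) hk, hxM (j + 1) hj k hk.le,
        hxM (j + 1) hj (k + 1) hk, p3_aab, p3_abb, add_zero]
    simp only [a0, aM, add_zero]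
  have sy : ∑ i ∈ Finset.range M, ∑ j ∈ Finset.range M, ∑ k ∈ Finset.range M, Ey i j k +
      ∑ i ∈ Finset.range M, ∑ j ∈ Finset.range M, ∑ k ∈ Finset.range M, Ey i (j + 1) k = 0 := by
    have e1 : ∀ g : ℕ → ℕ → ℕ → ZMod 2,
        ∑ i ∈ Finset.range M, ∑ j ∈ Finset.range M, ∑ k ∈ Finset.range M, g i j k =
        ∑ i ∈ Finset.range M, ∑ k ∈ Finset.range M, ∑ j ∈ Finset.range M, g i j k := by
      intro g
      refine Finset.sum_congr rfl fun i _ => ?_
      rw [Finset.sum_comm]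
    rw [e1 (fun i j k => Ey i j k), e1 (fun i j k => Ey i (j + 1) k)]
    simp only [← Finset.sum_add_distrib]
    refine Finset.sum_eq_zero fun i hi => Finset.sum_eq_zero fun k hk => ?_
    rw [p3_tel (fun j => Ey i j k) M]
    have hi := Finset.mem_range.1 hi
    have hk := Finset.mem_range.1 hk
    have a0 : Ey i 0 k = 0 := by
      simp only [hEy]
      rw [hy0 i hi.le k hk.le, hy0 i hi.le (k + 1) hk, hy0 (i + 1) hi k hk.le,
        hy0 (i + 1) hi (k + 1) hk, p3_aab, p3_abb, add_zero]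
    have aM : Ey i M k = 0 := by
      simp only [hEy]
      rw [hyM i hi.le k hk.le, hyM i hi.le (k + 1) hk, hyM (i + 1) hi k hk.le,
        hyM (i + 1) hi (k + 1) hk, p3_aab, p3_abb, add_zero]
    simp only [a0, aM, add_zero]
  have key : ∑ i ∈ Finset.range M, ∑ j ∈ Finset.range M, Ez i j 0 +
      ∑ i ∈ Finset.range M, ∑ j ∈ Finset.range M, Ez i j M = 0 := by
    linear_combination hsum - sz - sx - sy
  exact key

end H67PP
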