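import Pool.Agent.H67.PP.Defs

/-!
# From a quaternion representation to a finite-index subgroup
-/

namespace H67PP

open Quaternion

/-- conjugation by a unit as a linear map -/
noncomputable def QFIN_c : ℍ[ℝ]ˣ →* Module.End ℝ ℍ[ℝ] where
  toFun q := (LinearMap.mulLeft ℝ (q : ℍ[ℝ])) ∘ₗ (LinearMap.mulRight ℝ ((q⁻¹ : ℍ[ℝ]ˣ) : ℍ[ℝ]))
  map_one' := by
    ext1 x
    simp
  map_mul' p q := by
    refine LinearMap.ext fun x => ?_
    simp [mul_assoc]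

theorem QFIN_c_apply (q : ℍ[ℝ]ˣ) (x : ℍ[ℝ]) :
    QFIN_c q x = (q : ℍ[ℝ]) * (x * ((q⁻¹ : ℍ[ℝ]ˣ) : ℍ[ℝ])) := rfl

/-- conjugation as a homomorphism to matrices -/
noncomputable def QFIN_C : ℍ[ℝ]ˣ →* GL (Fin 4) ℝ :=
  MonoidHom.toHomUnits (((LinearMap.toMatrixAlgEquiv
    (QuaternionAlgebra.basisOneIJK (R := ℝ) (-1) 0 (-1)) :
      Module.End ℝ ℍ[ℝ] ≃ₐ[ℝ] Matrix (Fin 4) (Fin 4) ℝ) :
      Module.End ℝ ℍ[ℝ] →* Matrix (Fin 4) (Fin 4) ℝ).comp QFIN_c)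

theorem QFIN_C_eq_one (q : ℍ[ℝ]ˣ) : QFIN_C q = 1 ↔ QFIN_c q = 1 := by
  rw [Units.ext_iff]
  constructor
  · intro h
    have h1 : (LinearMap.toMatrixAlgEquiv
      (QuaternionAlgebra.basisOneIJK (R := ℝ) (-1) 0 (-1))) (QFIN_c q) = 1 := h
    rw [← map_one (LinearMap.toMatrixAlgEquiv
      (QuaternionAlgebra.basisOneIJK (R := ℝ) (-1) 0 (-1)))] at h1
    exact (LinearMap.toMatrixAlgEquiv _).injective h1
  · intro h
    show (LinearMap.toMatrixAlgEquiv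
      (QuaternionAlgebra.basisOneIJK (R := ℝ) (-1) 0 (-1))) (QFIN_c q) = 1
    rw [h]
    exact map_one (LinearMap.toMatrixAlgEquiv
      (QuaternionAlgebra.basisOneIJK (R := ℝ) (-1) 0 (-1)))

theorem QFIN_c_central (q : ℍ[ℝ]ˣ) (h : (q : ℍ[ℝ]) = 1 ∨ (q : ℍ[ℝ]) = -1) : QFIN_c q = 1 := by
  refine LinearMap.ext fun x => ?_
  rw [QFIN_c_apply, Module.End.one_apply]
  have h1 : (q : ℍ[ℝ]) * x = x * q := by
    rcases h with h | h <;> rw [h] <;> simp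
  rw [← mul_assoc, h1, mul_assoc, Units.mul_inv, mul_one]

theorem QFIN_comm (q : ℍ[ℝ]ˣ) (h : QFIN_c q = 1) (x : ℍ[ℝ]) : (q : ℍ[ℝ]) * x = x * q := by
  have h1 : QFIN_c q x = x := by rw [h]; rfl
  rw [QFIN_c_apply] at h1
  calc (q : ℍ[ℝ]) * x = ((q : ℍ[ℝ]) * (x * ((q⁻¹ : ℍ[ℝ]ˣ) : ℍ[ℝ]))) * q := by
        rw [mul_assoc, mul_assoc, Units.inv_mul, mul_one]
    _ = x * q := by rw [h1]

theorem t_QFIN (h : S_MALCEV) : S_QFIN := by
  intro u v w l m n ρ hu hv hw hx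
  set F : F2 →* GL (Fin 4) ℝ := QFIN_C.comp ρ with hF
  have hpow : ∀ (r : F2) (k : ℕ), (((ρ r : ℍ[ℝ]ˣ) : ℍ[ℝ]) ^ k = 1 ∨
      ((ρ r : ℍ[ℝ]ˣ) : ℍ[ℝ]) ^ k = -1) → F (r ^ k) = 1 := by
    intro r k hk
    rw [hF, MonoidHom.comp_apply, QFIN_C_eq_one]
    apply QFIN_c_central
    rw [map_pow, Units.val_pow_eq_pow_val]
    exact hk
  have hle : Subgroup.normalClosure ({u ^ l, v ^ m, w ^ n} : Set F2) ≤ F.ker := by
    apply Subgroup.normalClosure_le_normal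
    intro r hr
    rw [SetLike.mem_coe, MonoidHom.mem_ker]
    rcases hr with rfl | rfl | rfl
    · exact hpow u l hu
    · exact hpow v m hv
    · exact hpow w n hw
  let F' : PG u v w l m n →* GL (Fin 4) ℝ :=
    QuotientGroup.lift (Subgroup.normalClosure ({u ^ l, v ^ m, w ^ n} : Set F2)) F hle
  have hfg : Group.FG (PG u v w l m n) :=
    QuotientGroup.fg (Subgroup.normalClosure ({u ^ l, v ^ m, w ^ n} : Set F2))
  have hne : F' (QuotientGroup.mk u) ≠ 1 := by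
    intro h1
    have h2 : F u = 1 := h1
    rw [hF, MonoidHom.comp_apply, QFIN_C_eq_one] at h2
    obtain ⟨x, hx⟩ := hx
    exact hx (QFIN_comm (ρ u) h2 x)
  obtain ⟨H, hH, hg⟩ := h (PG u v w l m n) 4 F' (QuotientGroup.mk u) hne
  refine ⟨H, ?_, hH⟩
  rintro rfl
  exact hg (Subgroup.mem_top _)

end H67PP
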