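import Pool.Agent.H67.PP.Defs

/-! (STRIP) the boundary count equals the number of planar zeros modulo 2 (helper303) -/

namespace H67PP

/-- the edge indicator: the labels are `1, 2` -/
def stripE (a b : Fin 4) : ZMod 2 := if (a = 1 ∧ b = 2) ∨ (a = 2 ∧ b = 1) then 1 else 0

theorem strip_E_symm (a b : Fin 4) : stripE a b = stripE b a := by
  revert a b; decide

theorem strip_cell (a b a' b' : Fin 4) (h1 : a = 0 ↔ b = 0) (h2 : a' = 0 ↔ b' = 0) :
    D a a' b' + D a b b' = (if a = 0 ∧ a' ≠ 0 then stripE a' b' else 0) +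
      (if a ≠ 0 ∧ a' = 0 then stripE a b else 0) := by
  revert a b a' b'; decide

theorem strip_sum_Ico (F : ℤ → ZMod 2) (M : ℕ) :
    ∑ j ∈ Finset.range M, F j + ∑ j ∈ Finset.range M, F (-((j : ℤ) + 1)) =
      ∑ j ∈ Finset.Ico (-(M : ℤ)) M, F j := by
  induction M with
  | zero => simp
  | succ n ih =>
    rw [Finset.sum_range_succ, Finset.sum_range_succ]
    have hset : Finset.Ico (-((n + 1 : ℕ) : ℤ)) ((n + 1 : ℕ) : ℤ) =
        insert (-((n : ℤ) + 1)) (insert (n : ℤ) (Finset.Ico (-(n : ℤ)) n)) := by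
      ext x
      simp only [Finset.mem_Ico, Finset.mem_insert]
      push_cast
      omega
    rw [hset, Finset.sum_insert, Finset.sum_insert, ← ih]
    · ring
    · simp
    · simp only [Finset.mem_insert, Finset.mem_Ico]
      omega

theorem strip_sum_Ioo (U V : ℤ → ZMod 2) (M : ℕ) (hU : U M = 0) (hV : V 0 = 0) :
    ∑ i ∈ Finset.range M, U ((i : ℤ) + 1) + ∑ i ∈ Finset.range M, V (i : ℤ) =
      ∑ i ∈ Finset.Ioo (0 : ℤ) M, (U i + V i) := by
  have h1 : ∀ N : ℕ, ∑ i ∈ Finset.range N, U ((i : ℤ) + 1) = ∑ i ∈ Finset.Ioc (0 : ℤ) N, U i := by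
    intro N
    induction N with
    | zero => simp
    | succ n ih =>
      rw [Finset.sum_range_succ, ih]
      have hset : Finset.Ioc (0 : ℤ) ((n + 1 : ℕ) : ℤ) =
          insert ((n : ℤ) + 1) (Finset.Ioc (0 : ℤ) n) := by
        ext x
        simp only [Finset.mem_Ioc, Finset.mem_insert]
        push_cast
        omega
      rw [hset, Finset.sum_insert]
      · ring
      · simp
  have h2 : ∀ N : ℕ, ∑ i ∈ Finset.range N, V (i : ℤ) = ∑ i ∈ Finset.Ico (0 : ℤ) N, V i := by
    intro N
    induction N with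
    | zero => simp
    | succ n ih =>
      rw [Finset.sum_range_succ, ih]
      have hset : Finset.Ico (0 : ℤ) ((n + 1 : ℕ) : ℤ) =
          insert (n : ℤ) (Finset.Ico (0 : ℤ) n) := by
        ext x
        simp only [Finset.mem_Ico, Finset.mem_insert]
        push_cast
        omega
      rw [hset, Finset.sum_insert]
      · ring
      · simp
  rw [h1, h2, Finset.sum_add_distrib]
  rcases Nat.eq_zero_or_pos M with h0 | h0
  · subst h0; simp
  congr 1
  · have hset : Finset.Ioc (0 : ℤ) (M : ℤ) = insert (M : ℤ) (Finset.Ioo (0 : ℤ) M) := by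
      ext x
      simp only [Finset.mem_Ioc, Finset.mem_Ioo, Finset.mem_insert]
      omega
    rw [hset, Finset.sum_insert (by simp), hU, zero_add]
  · have hset : Finset.Ico (0 : ℤ) (M : ℤ) = insert (0 : ℤ) (Finset.Ioo (0 : ℤ) M) := by
      ext x
      simp only [Finset.mem_Ico, Finset.mem_Ioo, Finset.mem_insert]
      omega
    rw [hset, Finset.sum_insert (by simp), hV, zero_add]

/-- multiples of `2M` -/
theorem strip_mul_bound (M : ℤ) (k : ℤ) (hM : 0 < M) (h : |2 * M * k| < 2 * M) : k = 0 := by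
  rw [abs_mul, abs_of_pos (by linarith : (0 : ℤ) < 2 * M)] at h
  by_contra hk
  have : 1 ≤ |k| := Int.one_le_abs hk
  nlinarith

theorem strip_near_down (M α d c j : ℤ) (_hM : 0 < M) (hd : 0 < d) (hdM : d ∣ M) (hda : d ∣ α)
    (hdc : d ∣ c) (ha : 0 < α) (haM : α < M) :
    (Near M α (c + d * j) ∧ ¬ Near M α (c + d * (j + 1))) ↔ 2 * M ∣ c + d * (j + 1) - α := by
  constructor
  · rintro ⟨⟨k, hk⟩, hn⟩
    have h1 : ¬ |c + d * (j + 1) - 2 * M * k| < α := fun h => hn ⟨k, h⟩
    rw [not_lt] at h1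
    rw [abs_lt] at hk
    have h3 : α ≤ c + d * (j + 1) - 2 * M * k := by
      rcases le_abs.mp h1 with h | h
      · exact h
      · nlinarith
    have h4 : c + d * (j + 1) - 2 * M * k - α < d := by nlinarith
    have h5 : d ∣ c + d * (j + 1) - 2 * M * k - α := by
      refine dvd_sub (dvd_sub (dvd_add hdc (dvd_mul_right _ _)) ?_) hda
      exact dvd_mul_of_dvd_left (dvd_mul_of_dvd_right hdM 2) k
    have h6 : c + d * (j + 1) - 2 * M * k - α = 0 := by
      have h7 : 0 ≤ c + d * (j + 1) - 2 * M * k - α := by linarith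
      exact Int.eq_zero_of_dvd_of_nonneg_of_lt h7 h4 h5
    exact ⟨k, by linarith⟩
  · rintro ⟨k, hk⟩
    have hdle : d ≤ α := Int.le_of_dvd ha hda
    refine ⟨⟨k, ?_⟩, ?_⟩
    · have : c + d * j - 2 * M * k = α - d := by linear_combination hk
      rw [this, abs_lt]
      constructor <;> linarith
    · rintro ⟨k', hk'⟩
      have h1 : c + d * (j + 1) - 2 * M * k' = α + 2 * M * (k - k') := by linear_combination hk
      rw [h1, abs_lt] at hk'
      have h2 : |2 * M * (k - k')| < 2 * M := by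
        rw [abs_lt]
        constructor <;> linarith
      have h3 := strip_mul_bound M (k - k') (by linarith) h2
      rw [h3] at hk'
      linarith [hk'.2]

theorem strip_near_neg (M α n : ℤ) : Near M α (-n) ↔ Near M α n := by
  constructor
  · rintro ⟨k, hk⟩
    refine ⟨-k, ?_⟩
    rw [← abs_neg]
    convert hk using 2
    ring
  · rintro ⟨k, hk⟩
    refine ⟨-k, ?_⟩
    rw [← abs_neg]
    convert hk using 2
    ring

theorem strip_near_up (M α d c j : ℤ) (hM : 0 < M) (hd : 0 < d) (hdM : d ∣ M) (hda : d ∣ α)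
    (hdc : d ∣ c) (ha : 0 < α) (haM : α < M) :
    (¬ Near M α (c + d * j) ∧ Near M α (c + d * (j + 1))) ↔ 2 * M ∣ c + d * j + α := by
  have h := strip_near_down M α d (-c) (-(j + 1)) hM hd hdM hda ((dvd_neg).mpr hdc) ha haM
  have e1 : -c + d * -(j + 1) = -(c + d * (j + 1)) := by ring
  have e2 : -c + d * (-(j + 1) + 1) = -(c + d * j) := by ring
  rw [e1, e2, strip_near_neg, strip_near_neg] at h
  rw [and_comm, h]
  have e3 : -(c + d * j) - α = -(c + d * j + α) := by ring
  rw [e3, dvd_neg]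

theorem strip_near_per (M γ x y : ℤ) : Near M γ (x + 2 * M * y) ↔ Near M γ x := by
  constructor
  · rintro ⟨k, hk⟩
    refine ⟨k - y, ?_⟩
    convert hk using 2
    ring
  · rintro ⟨k, hk⟩
    refine ⟨k + y, ?_⟩
    convert hk using 2
    ring

theorem strip_lam_zero (M α β γ d e f g h i j : ℤ) :
    lam M α β γ d e f g h i j = 0 ↔ Near M α (d * i) := by
  classical
  unfold lam
  by_cases h1 : Near M α (d * i)
  · simp [h1]
  · simp only [h1, if_false, iff_false]
    split_ifs <;> decide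

theorem strip_lam_one (M α β γ d e f g h i j : ℤ) (h1 : ¬ Near M α (d * i)) :
    lam M α β γ d e f g h i j = 1 ↔ Near M β (e * i + f * j) := by
  classical
  unfold lam
  by_cases h2 : Near M β (e * i + f * j)
  · simp [h1, h2]
  · simp only [h1, h2, if_false, iff_false]
    split_ifs <;> decide

theorem strip_lam_two (M α β γ d e f g h i j : ℤ) (h1 : ¬ Near M α (d * i)) :
    lam M α β γ d e f g h i j = 2 ↔ ¬ Near M β (e * i + f * j) ∧ Near M γ (g * i + h * j) := by
  classical
  unfold lam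
  by_cases h2 : Near M β (e * i + f * j)
  · simp only [h1, h2, if_false, if_true]
    simp
  · by_cases h3 : Near M γ (g * i + h * j)
    · simp [h1, h2, h3]
    · simp only [h1, h2, h3, if_false]
      simp

open Classical in
/-- the edge indicator along a column that is not near -/
theorem strip_edge (M α β γ d e f g h i j : ℤ) (hM : 0 < M) (hf : 0 < f) (hfM : f ∣ M)
    (hfb : f ∣ β) (hfe : f ∣ e * i) (hb : 0 < β) (hbM : β < M) (h1 : ¬ Near M α (d * i)) :
    stripE (lam M α β γ d e f g h i j) (lam M α β γ d e f g h i (j + 1)) =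
      (if 2 * M ∣ e * i + f * (j + 1) - β ∧ Near M γ (g * i + h * (j + 1)) then 1 else 0) +
      (if 2 * M ∣ e * i + f * j + β ∧ Near M γ (g * i + h * j) then 1 else 0) := by
  have k1 := strip_near_down M β f (e * i) j hM hf hfM hfb hfe hb hbM
  have k2 := strip_near_up M β f (e * i) j hM hf hfM hfb hfe hb hbM
  unfold stripE
  simp only [strip_lam_one _ _ _ _ _ _ _ _ _ _ _ h1, strip_lam_two _ _ _ _ _ _ _ _ _ _ _ h1]
  simp only [← k1, ← k2]
  by_cases n1 : Near M β (e * i + f * j) <;> by_cases n2 : Near M β (e * i + f * (j + 1)) <;>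
    by_cases g1 : Near M γ (g * i + h * j) <;> by_cases g2 : Near M γ (g * i + h * (j + 1)) <;>
    simp [n1, n2, g1, g2]

open Classical in
/-- the column sum -/
theorem strip_T (M : ℕ) (α β γ d e f g h i : ℤ) (hM : (0 : ℤ) < M) (hf : 0 < f)
    (hfM : f ∣ (M : ℤ)) (hfb : f ∣ β) (hfe : f ∣ e * i) (hb : 0 < β) (hbM : β < M)
    (h1 : ¬ Near M α (d * i)) :
    ∑ j ∈ Finset.range M, stripE (lam M α β γ d e f g h i j) (lam M α β γ d e f g h i (j + 1)) +
    ∑ j ∈ Finset.range M, stripE (lam M α β γ d e f g h i (-j))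
      (lam M α β γ d e f g h i (-((j : ℤ) + 1))) =
    ∑ j ∈ Finset.Ico (-(M : ℤ)) M, (if (2 * (M : ℤ) ∣ e * i + f * j - β ∨
      2 * (M : ℤ) ∣ e * i + f * j + β) ∧ Near M γ (g * i + h * j) then (1 : ZMod 2) else 0) := by
  set A : ℤ → ZMod 2 := fun j =>
    if 2 * (M : ℤ) ∣ e * i + f * j - β ∧ Near M γ (g * i + h * j) then 1 else 0 with hA
  set B : ℤ → ZMod 2 := fun j =>
    if 2 * (M : ℤ) ∣ e * i + f * j + β ∧ Near M γ (g * i + h * j) then 1 else 0 with hB
  have e1 : ∀ j : ℤ, stripE (lam M α β γ d e f g h i j) (lam M α β γ d e f g h i (j + 1)) =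
      A (j + 1) + B j := fun j =>
    strip_edge M α β γ d e f g h i j hM hf hfM hfb hfe hb hbM h1
  have e2 : ∀ j : ℤ, stripE (lam M α β γ d e f g h i (-j))
      (lam M α β γ d e f g h i (-(j + 1))) = A (-j) + B (-(j + 1)) := by
    intro j
    rw [strip_E_symm]
    have := e1 (-(j + 1))
    rw [show -(j + 1) + 1 = -j by ring] at this
    exact this
  simp only [e1, e2]
  rw [Finset.sum_add_distrib, Finset.sum_add_distrib]
  have hper : A M = A (-M) := by
    simp only [hA]
    have c1 : (2 * (M : ℤ) ∣ e * i + f * M - β) ↔ (2 * (M : ℤ) ∣ e * i + f * -M - β) := by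
      have : e * i + f * M - β = (e * i + f * -M - β) + 2 * M * f := by ring
      rw [this]
      exact dvd_add_left (dvd_mul_right _ _)
    have c2 : Near M γ (g * i + h * M) ↔ Near M γ (g * i + h * -M) := by
      have : g * i + h * M = (g * i + h * -M) + 2 * M * h := by ring
      rw [this]
      exact strip_near_per _ _ _ _
    exact if_congr (and_congr c1 c2) rfl rfl
  have hAsum : ∑ j ∈ Finset.range M, A ((j : ℤ) + 1) + ∑ j ∈ Finset.range M, A (-(j : ℤ)) =
      ∑ j ∈ Finset.Ico (-(M : ℤ)) M, A j := by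
    have h2 := strip_sum_Ico (fun j => A (-j)) M
    have h3 : ∑ j ∈ Finset.range M, A ((j : ℤ) + 1) =
        ∑ j ∈ Finset.range M, A (-(-((j : ℤ) + 1))) := by simp
    rw [h3, add_comm, h2]
    -- sum over [-M, M) of A (-j) = sum over (-M, M] of A
    have h4 : ∑ j ∈ Finset.Ico (-(M : ℤ)) M, A (-j) = ∑ j ∈ Finset.Ioc (-(M : ℤ)) M, A j := by
      refine Finset.sum_bij (fun j _ => -j) ?_ ?_ ?_ ?_
      · intro j hj
        rw [Finset.mem_Ico] at hj
        rw [Finset.mem_Ioc]
        omega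
      · intro a _ b _ hab
        exact neg_injective hab
      · intro b hb
        rw [Finset.mem_Ioc] at hb
        refine ⟨-b, ?_, by simp⟩
        rw [Finset.mem_Ico]
        omega
      · intro j _
        rfl
    rw [h4]
    have s1 : Finset.Ioc (-(M : ℤ)) M = insert (M : ℤ) (Finset.Ioo (-(M : ℤ)) M) := by
      ext x
      simp only [Finset.mem_Ioc, Finset.mem_Ioo, Finset.mem_insert]
      omega
    have s2 : Finset.Ico (-(M : ℤ)) M = insert (-(M : ℤ)) (Finset.Ioo (-(M : ℤ)) M) := by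
      ext x
      simp only [Finset.mem_Ico, Finset.mem_Ioo, Finset.mem_insert]
      omega
    rw [s1, s2, Finset.sum_insert (by simp), Finset.sum_insert (by simp), hper]
  have hBsum := strip_sum_Ico B M
  have : ∑ j ∈ Finset.range M, A ((j : ℤ) + 1) + ∑ j ∈ Finset.range M, B (j : ℤ) +
      (∑ j ∈ Finset.range M, A (-(j : ℤ)) + ∑ j ∈ Finset.range M, B (-((j : ℤ) + 1))) =
      (∑ j ∈ Finset.range M, A ((j : ℤ) + 1) + ∑ j ∈ Finset.range M, A (-(j : ℤ))) +
      (∑ j ∈ Finset.range M, B (j : ℤ) + ∑ j ∈ Finset.range M, B (-((j : ℤ) + 1))) := by ring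
  rw [this, hAsum, hBsum, ← Finset.sum_add_distrib]
  refine Finset.sum_congr rfl fun j _ => ?_
  simp only [hA, hB]
  have hex : ¬ (2 * (M : ℤ) ∣ e * i + f * j - β ∧ 2 * (M : ℤ) ∣ e * i + f * j + β) := by
    rintro ⟨⟨k1, hk1⟩, ⟨k2, hk2⟩⟩
    have h3 : 2 * (M : ℤ) * (k2 - k1) = 2 * β := by linear_combination hk1 - hk2
    have h4 : |2 * (M : ℤ) * (k2 - k1)| < 2 * M := by
      rw [h3, abs_lt]
      constructor <;> linarith
    have h5 := strip_mul_bound M (k2 - k1) hM h4
    rw [h5] at h3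
    linarith
  by_cases c1 : 2 * (M : ℤ) ∣ e * i + f * j - β <;> by_cases c2 : 2 * (M : ℤ) ∣ e * i + f * j + β <;>
    by_cases c3 : Near M γ (g * i + h * j) <;> simp [c1, c2, c3]
  exact hex ⟨c1, c2⟩

theorem t_STRIP : S_STRIP := by
  classical
  intro M α β γ d e f g h hd hf hdM hda hdb ha haM hb hbM
  have hM : (0 : ℤ) < M := ha.trans haM
  have hdM' : d ∣ (M : ℤ) := (dvd_mul_right d f).trans hdM
  have hda' : d ∣ α := (dvd_mul_right d f).trans hda
  have hfM' : f ∣ (M : ℤ) := (dvd_mul_left f d).trans hdM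
  have hfb' : f ∣ β := (dvd_mul_left f d).trans hdb
  set L := lam M α β γ d e f g h with hL
  have hL0 : ∀ i j, L i j = 0 ↔ Near M α (d * i) := fun i j =>
    strip_lam_zero M α β γ d e f g h i j
  set T : ℤ → ZMod 2 := fun i => ∑ j ∈ Finset.range M, stripE (L i j) (L i (j + 1)) +
    ∑ j ∈ Finset.range M, stripE (L i (-j)) (L i (-((j : ℤ) + 1))) with hT
  -- rows
  have hrow : ∀ i : ℤ,
      ∑ j ∈ Finset.range M, (D (L i j) (L (i + 1) j) (L (i + 1) (j + 1)) +
        D (L i j) (L i (j + 1)) (L (i + 1) (j + 1))) +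
      ∑ j ∈ Finset.range M, (D (L i (-j)) (L (i + 1) (-j)) (L (i + 1) (-((j : ℤ) + 1))) +
        D (L i (-j)) (L i (-((j : ℤ) + 1))) (L (i + 1) (-((j : ℤ) + 1)))) =
      (if 2 * (M : ℤ) ∣ d * (i + 1) - α then T (i + 1) else 0) +
      (if 2 * (M : ℤ) ∣ d * i + α then T i else 0) := by
    intro i
    have k1 := strip_near_down M α d 0 i hM hd hdM' hda' (dvd_zero d) ha haM
    have k2 := strip_near_up M α d 0 i hM hd hdM' hda' (dvd_zero d) ha haM
    rw [zero_add, zero_add] at k1 k2
    have c : ∀ j j' : ℤ, D (L i j) (L (i + 1) j) (L (i + 1) j') +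
        D (L i j) (L i j') (L (i + 1) j') =
        (if 2 * (M : ℤ) ∣ d * (i + 1) - α then stripE (L (i + 1) j) (L (i + 1) j') else 0) +
        (if 2 * (M : ℤ) ∣ d * i + α then stripE (L i j) (L i j') else 0) := by
      intro j j'
      rw [strip_cell _ _ _ _ ((hL0 i j).trans (hL0 i j').symm)
        ((hL0 (i + 1) j).trans (hL0 (i + 1) j').symm)]
      congr 1
      · refine if_congr ?_ rfl rfl
        rw [Ne, hL0, hL0, k1]
      · refine if_congr ?_ rfl rfl
        rw [Ne, hL0, hL0, k2]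
    simp only [c]
    rw [Finset.sum_add_distrib, Finset.sum_add_distrib]
    simp only [hT]
    by_cases c1 : 2 * (M : ℤ) ∣ d * (i + 1) - α <;> by_cases c2 : 2 * (M : ℤ) ∣ d * i + α <;>
      simp only [c1, c2, if_true, if_false, Finset.sum_const_zero] <;> ring
  have hS : (∑ i ∈ Finset.range M, ∑ j ∈ Finset.range M,
      (D (L i j) (L (i + 1) j) (L (i + 1) (j + 1)) +
       D (L i j) (L i (j + 1)) (L (i + 1) (j + 1)))) +
    (∑ i ∈ Finset.range M, ∑ j ∈ Finset.range M,
      (D (L i (-j)) (L (i + 1) (-j)) (L (i + 1) (-((j : ℤ) + 1))) +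
       D (L i (-j)) (L i (-((j : ℤ) + 1))) (L (i + 1) (-((j : ℤ) + 1))))) =
      ∑ i ∈ Finset.range M, ((if 2 * (M : ℤ) ∣ d * ((i : ℤ) + 1) - α then T ((i : ℤ) + 1) else 0) +
      (if 2 * (M : ℤ) ∣ d * (i : ℤ) + α then T i else 0)) := by
    rw [← Finset.sum_add_distrib]
    exact Finset.sum_congr rfl fun i _ => hrow i
  refine hS.trans ?_
  rw [Finset.sum_add_distrib]
  rw [strip_sum_Ioo (fun i => if 2 * (M : ℤ) ∣ d * i - α then T i else 0)
    (fun i => if 2 * (M : ℤ) ∣ d * i + α then T i else 0) M]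
  · have hcard : ((zs M α β γ d e f g h).card : ZMod 2) =
        ∑ i ∈ Finset.Ioo (0 : ℤ) M, ∑ j ∈ Finset.Ico (-(M : ℤ)) M,
          (if (2 * (M : ℤ) ∣ d * i - α ∨ 2 * (M : ℤ) ∣ d * i + α) ∧
            (2 * (M : ℤ) ∣ e * i + f * j - β ∨ 2 * (M : ℤ) ∣ e * i + f * j + β) ∧
            Near M γ (g * i + h * j) then (1 : ZMod 2) else 0) := by
      unfold zs
      rw [Finset.card_filter, Nat.cast_sum, Finset.sum_product]
      simp only [Nat.cast_ite, Nat.cast_one, Nat.cast_zero]
    rw [hcard]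
    refine Finset.sum_congr rfl fun i _ => ?_
    by_cases hc : 2 * (M : ℤ) ∣ d * i - α ∨ 2 * (M : ℤ) ∣ d * i + α
    · -- exactly one of the two holds
      have hex : ¬ (2 * (M : ℤ) ∣ d * i - α ∧ 2 * (M : ℤ) ∣ d * i + α) := by
        rintro ⟨⟨k1, hk1⟩, ⟨k2, hk2⟩⟩
        have h3 : 2 * (M : ℤ) * (k2 - k1) = 2 * α := by linear_combination hk1 - hk2
        have h4 : |2 * (M : ℤ) * (k2 - k1)| < 2 * M := by
          rw [h3, abs_lt]
          constructor <;> linarith
        have h5 := strip_mul_bound M (k2 - k1) hM h4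
        rw [h5] at h3
        linarith
      have hnear : ¬ Near M α (d * i) := by
        rcases hc with hc | hc
        · have k1 := strip_near_down M α d 0 (i - 1) hM hd hdM' hda' (dvd_zero d) ha haM
          rw [zero_add, zero_add, sub_add_cancel] at k1
          exact (k1.mpr hc).2
        · have k2 := strip_near_up M α d 0 i hM hd hdM' hda' (dvd_zero d) ha haM
          rw [zero_add, zero_add] at k2
          exact (k2.mpr hc).1
      have hfi : f ∣ e * i := by
        refine dvd_mul_of_dvd_right ?_ e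
        have hdf : d * f ∣ d * i := by
          rcases hc with ⟨k, hk⟩ | ⟨k, hk⟩
          · have : d * i = 2 * (M : ℤ) * k + α := by linarith
            rw [this]
            exact dvd_add (dvd_mul_of_dvd_left (dvd_mul_of_dvd_right hdM 2) k) hda
          · have : d * i = 2 * (M : ℤ) * k - α := by linarith
            rw [this]
            exact dvd_sub (dvd_mul_of_dvd_left (dvd_mul_of_dvd_right hdM 2) k) hda
        exact (mul_dvd_mul_iff_left hd.ne').mp hdf
      have hTi := strip_T M α β γ d e f g h i hM hf hfM' hfb' hfi hb hbM hnear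
      have h1 : (if 2 * (M : ℤ) ∣ d * i - α then T i else 0) +
          (if 2 * (M : ℤ) ∣ d * i + α then T i else 0) = T i := by
        by_cases c1 : 2 * (M : ℤ) ∣ d * i - α
        · have c2 : ¬ 2 * (M : ℤ) ∣ d * i + α := fun h => hex ⟨c1, h⟩
          simp [c1, c2]
        · have c2 : 2 * (M : ℤ) ∣ d * i + α := hc.resolve_left c1
          simp [c1, c2]
      rw [h1]
      have h2 : T i = _ := hTi
      rw [h2]
      refine Finset.sum_congr rfl fun j _ => ?_
      simp only [hc, true_and]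
    · have c1 : ¬ 2 * (M : ℤ) ∣ d * i - α := fun h => hc (Or.inl h)
      have c2 : ¬ 2 * (M : ℤ) ∣ d * i + α := fun h => hc (Or.inr h)
      simp [c1, c2]
  · -- U M = 0
    have : ¬ 2 * (M : ℤ) ∣ d * (M : ℤ) - α := by
      intro hdv
      have h1 : (M : ℤ) ∣ d * M - α := (dvd_mul_left _ _).trans hdv
      have h2 : (M : ℤ) ∣ α := by
        have h3 := dvd_sub (dvd_mul_left (M : ℤ) d) h1
        rwa [sub_sub_cancel] at h3
      have := Int.le_of_dvd ha h2
      linarith
    simp only [this, if_false]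
  · have : ¬ 2 * (M : ℤ) ∣ d * 0 + α := by
      intro hdv
      rw [mul_zero, zero_add] at hdv
      have := Int.le_of_dvd ha hdv
      linarith
    simp only [this, if_false]

end H67PP
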