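import Pool.Agent.H67.PP.Defs

namespace H67PP

open Finset

theorem STRIP2_near_mul {c M α y : ℤ} (hc : 0 < c) :
    Near (c * M) (c * α) (c * y) ↔ Near M α y := by
  unfold Near
  refine exists_congr (fun k => ?_)
  have h : c * y - 2 * (c * M) * k = c * (y - 2 * M * k) := by ring
  rw [h, abs_mul, abs_of_pos hc]
  constructor
  · intro h1
    exact lt_of_mul_lt_mul_left h1 hc.le
  · intro h1
    exact mul_lt_mul_of_pos_left h1 hc

theorem STRIP2_near_neg {M α y : ℤ} : Near M α (-y) ↔ Near M α y := by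
  unfold Near
  constructor
  · rintro ⟨k, hk⟩
    refine ⟨-k, ?_⟩
    have h : y - 2 * M * -k = -(-y - 2 * M * k) := by ring
    rw [h, abs_neg]; exact hk
  · rintro ⟨k, hk⟩
    refine ⟨-k, ?_⟩
    have h : -y - 2 * M * -k = -(y - 2 * M * k) := by ring
    rw [h, abs_neg]; exact hk

theorem STRIP2_up1 {M α y : ℤ} (h0 : 0 < α) (h1 : α < M) :
    (Near M α y ∧ ¬ Near M α (y + 1)) ↔ 2 * M ∣ y + 1 - α := by
  constructor
  · rintro ⟨⟨k, hk⟩, h⟩
    refine ⟨k, ?_⟩
    have h2 : ¬ |y + 1 - 2 * M * k| < α := fun h3 => h ⟨k, h3⟩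
    rw [abs_lt] at hk h2
    generalize 2 * M * k = t at *
    omega
  · rintro ⟨k, hk⟩
    constructor
    · refine ⟨k, ?_⟩
      rw [abs_lt]
      constructor <;> linarith
    · rintro ⟨k', hk'⟩
      rw [abs_lt] at hk'
      have h3 : 2 * M * (k - k') < 0 := by
        have : 2 * M * (k - k') = 2 * M * k - 2 * M * k' := by ring
        linarith [hk'.2]
      have h4 : -(2 * M) < 2 * M * (k - k') := by
        have : 2 * M * (k - k') = 2 * M * k - 2 * M * k' := by ring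
        linarith [hk'.1]
      have h5 : k - k' < 0 := by
        by_contra h6
        push Not at h6
        nlinarith
      have h7 : k - k' ≤ -1 := by omega
      nlinarith

theorem STRIP2_dn1 {M α y : ℤ} (h0 : 0 < α) (h1 : α < M) :
    (¬ Near M α y ∧ Near M α (y + 1)) ↔ 2 * M ∣ y + α := by
  have h := STRIP2_up1 (M := M) (α := α) (y := -y - 1) h0 h1
  have e1 : -y - 1 = -(y + 1) := by ring
  have e2 : -y - 1 + 1 = -y := by ring
  rw [e2, e1, STRIP2_near_neg, STRIP2_near_neg] at h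
  have e3 : -y - α = -(y + α) := by ring
  rw [e3, dvd_neg] at h
  rw [← h]
  tauto

/-- the one dimensional lemma -/
theorem STRIP2_up {c M α x j : ℤ} (hc : 0 < c) (hM : c ∣ M) (hα : c ∣ α) (hx : c ∣ x)
    (h0 : 0 < α) (h1 : α < M) :
    (Near M α (x + c * j) ∧ ¬ Near M α (x + c * (j + 1))) ↔ 2 * M ∣ x + c * (j + 1) - α := by
  obtain ⟨M', rfl⟩ := hM
  obtain ⟨α', rfl⟩ := hα
  obtain ⟨x', rfl⟩ := hx
  have e1 : c * x' + c * j = c * (x' + j) := by ring
  have e2 : c * x' + c * (j + 1) = c * (x' + j + 1) := by ring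
  have e3 : c * (x' + j + 1) - c * α' = c * (x' + j + 1 - α') := by ring
  have e4 : 2 * (c * M') = c * (2 * M') := by ring
  rw [e1, e2, STRIP2_near_mul hc, STRIP2_near_mul hc, e3, e4,
    mul_dvd_mul_iff_left hc.ne']
  exact STRIP2_up1 ((mul_pos_iff_of_pos_left hc).1 h0) (lt_of_mul_lt_mul_left h1 hc.le)

theorem STRIP2_dn {c M α x j : ℤ} (hc : 0 < c) (hM : c ∣ M) (hα : c ∣ α) (hx : c ∣ x)
    (h0 : 0 < α) (h1 : α < M) :
    (¬ Near M α (x + c * j) ∧ Near M α (x + c * (j + 1))) ↔ 2 * M ∣ x + c * j + α := by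
  obtain ⟨M', rfl⟩ := hM
  obtain ⟨α', rfl⟩ := hα
  obtain ⟨x', rfl⟩ := hx
  have e1 : c * x' + c * j = c * (x' + j) := by ring
  have e2 : c * x' + c * (j + 1) = c * (x' + j + 1) := by ring
  have e3 : c * (x' + j) + c * α' = c * (x' + j + α') := by ring
  have e4 : 2 * (c * M') = c * (2 * M') := by ring
  rw [e1, e2, STRIP2_near_mul hc, STRIP2_near_mul hc, e3, e4,
    mul_dvd_mul_iff_left hc.ne']
  exact STRIP2_dn1 ((mul_pos_iff_of_pos_left hc).1 h0) (lt_of_mul_lt_mul_left h1 hc.le)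

/-- not both -/
theorem STRIP2_excl {M α x : ℤ} (h0 : 0 < α) (h1 : α < M) (h2 : 2 * M ∣ x - α)
    (h3 : 2 * M ∣ x + α) : False := by
  obtain ⟨k, hk⟩ := h2
  obtain ⟨l, hl⟩ := h3
  have h4 : α = M * (l - k) := by linarith
  rcases le_or_gt (l - k) 0 with h5 | h5
  · nlinarith
  · have : 1 ≤ l - k := by omega
    nlinarith

/-- exact distance: not near -/
theorem STRIP2_notnear {M α x : ℤ} (h0 : 0 < α) (h1 : α < M)
    (h2 : 2 * M ∣ x - α ∨ 2 * M ∣ x + α) : ¬ Near M α x := by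
  rcases h2 with h2 | h2
  · have h := (STRIP2_up1 (M := M) (α := α) (y := x - 1) h0 h1).2 (by ring_nf; ring_nf at h2; exact h2)
    have e : x - 1 + 1 = x := by ring
    rw [e] at h
    exact h.2
  · exact ((STRIP2_dn1 (M := M) (α := α) (y := x) h0 h1).2 h2).1

theorem STRIP2_near_per {M α x : ℤ} (t : ℤ) (h : 2 * M ∣ t) : Near M α (x + t) ↔ Near M α x := by
  obtain ⟨s, rfl⟩ := h
  unfold Near
  constructor
  · rintro ⟨k, hk⟩
    refine ⟨k - s, ?_⟩
    have e : x - 2 * M * (k - s) = x + 2 * M * s - 2 * M * k := by ring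
    rw [e]; exact hk
  · rintro ⟨k, hk⟩
    refine ⟨k + s, ?_⟩
    have e : x + 2 * M * s - 2 * M * (k + s) = x - 2 * M * k := by ring
    rw [e]; exact hk

/-! ### sums over ranges and over integer intervals -/

theorem STRIP2_sumpos (M : ℕ) (φ : ℤ → ZMod 2) :
    ∑ j ∈ range M, φ j = ∑ j ∈ Finset.Ico (0 : ℤ) M, φ j := by
  refine Finset.sum_nbij' (fun j => (j : ℤ)) (fun j => j.toNat) ?_ ?_ ?_ ?_ ?_
  · intro j hj; simp only [Finset.mem_range] at hj; simp only [Finset.mem_Ico]; omega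
  · intro j hj; simp only [Finset.mem_Ico] at hj; simp only [Finset.mem_range]; omega
  · intro j hj; simp
  · intro j hj; simp only [Finset.mem_Ico] at hj; simp; omega
  · intro j hj; rfl

theorem STRIP2_sumneg (M : ℕ) (φ : ℤ → ZMod 2) :
    ∑ j ∈ range M, φ (-((j : ℤ) + 1)) = ∑ j ∈ Finset.Ico (-(M : ℤ)) 0, φ j := by
  refine Finset.sum_nbij' (fun j => (-((j : ℤ) + 1))) (fun j => (-(j + 1)).toNat) ?_ ?_ ?_ ?_ ?_
  · intro j hj; simp only [Finset.mem_range] at hj; simp only [Finset.mem_Ico]; omega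
  · intro j hj; simp only [Finset.mem_Ico] at hj; simp only [Finset.mem_range]; omega
  · intro j hj; omega
  · intro j hj; simp only [Finset.mem_Ico] at hj; omega
  · intro j hj; rfl

theorem STRIP2_sumboth (M : ℕ) (φ : ℤ → ZMod 2) :
    ∑ j ∈ range M, φ j + ∑ j ∈ range M, φ (-((j : ℤ) + 1)) =
      ∑ j ∈ Finset.Ico (-(M : ℤ)) M, φ j := by
  rw [STRIP2_sumpos, STRIP2_sumneg, add_comm]
  rw [← Finset.sum_union]
  · congr 1
    ext j
    simp only [Finset.mem_union, Finset.mem_Ico]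
    omega
  · rw [Finset.disjoint_left]
    intro j hj hj'
    simp only [Finset.mem_Ico] at hj hj'
    omega

/-- cyclic shift -/
theorem STRIP2_shift (M : ℕ) (φ : ℤ → ZMod 2) (h : φ M = φ (-(M : ℤ))) :
    ∑ j ∈ Finset.Ico (-(M : ℤ)) M, φ (j + 1) = ∑ j ∈ Finset.Ico (-(M : ℤ)) M, φ j := by
  rcases Nat.eq_zero_or_pos M with rfl | hM
  · simp
  have h1 : ∑ j ∈ Finset.Ico (-(M : ℤ)) M, φ (j + 1) =
      ∑ j ∈ Finset.Ico (-(M : ℤ) + 1) (M + 1), φ j := by
    refine Finset.sum_nbij' (fun j => j + 1) (fun j => j - 1) ?_ ?_ ?_ ?_ ?_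
    · intro j hj; simp only [Finset.mem_Ico] at hj ⊢; omega
    · intro j hj; simp only [Finset.mem_Ico] at hj ⊢; omega
    · intro j hj; simp
    · intro j hj; simp
    · intro j hj; rfl
  rw [h1]
  have h2 : Finset.Ico (-(M : ℤ) + 1) (M + 1) = insert (M : ℤ) (Finset.Ico (-(M : ℤ) + 1) M) := by
    ext j; simp only [Finset.mem_insert, Finset.mem_Ico]; omega
  have h3 : Finset.Ico (-(M : ℤ)) M = insert (-(M : ℤ)) (Finset.Ico (-(M : ℤ) + 1) M) := by
    ext j; simp only [Finset.mem_insert, Finset.mem_Ico]; omega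
  rw [h2, h3, Finset.sum_insert (by simp), Finset.sum_insert (by simp), h]

/-! ### labels -/

/-- the edge indicator -/
def STRIP2E (x y : Fin 4) : ZMod 2 := if ({x, y} : Finset (Fin 4)) = {1, 2} then 1 else 0

theorem STRIP2E_comm (x y : Fin 4) : STRIP2E x y = STRIP2E y x := by
  unfold STRIP2E; rw [Finset.pair_comm]

theorem STRIP2_D1 : ∀ b c : Fin 4, b ≠ 0 → c ≠ 0 → D 0 b c = STRIP2E b c := by decide
theorem STRIP2_D2 : ∀ c : Fin 4, D 0 0 c = 0 := by decide
theorem STRIP2_D3 : ∀ a : Fin 4, D a 0 0 = 0 := by decide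
theorem STRIP2_D4 : ∀ a b : Fin 4, a ≠ 0 → b ≠ 0 → D a b 0 = STRIP2E a b := by decide
theorem STRIP2_D5 : ∀ a b c : Fin 4, a ≠ 0 → b ≠ 0 → c ≠ 0 → D a b c = 0 := by decide

theorem STRIP2_cell (P Q : Prop) [Decidable P] [Decidable Q] (x00 x10 x11 x01 : Fin 4)
    (h00 : x00 = 0 ↔ P) (h01 : x01 = 0 ↔ P) (h10 : x10 = 0 ↔ Q) (h11 : x11 = 0 ↔ Q) :
    D x00 x10 x11 + D x00 x01 x11 =
      (if P ∧ ¬ Q then STRIP2E x10 x11 else 0) + (if ¬ P ∧ Q then STRIP2E x00 x01 else 0) := by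
  by_cases hP : P <;> by_cases hQ : Q
  · have a := h00.2 hP
    have b := h01.2 hP
    have c := h10.2 hQ
    have d := h11.2 hQ
    subst a b c d
    simp [hP, hQ, STRIP2_D2]
  · have a := h00.2 hP
    have b := h01.2 hP
    have c : x10 ≠ 0 := fun h => hQ (h10.1 h)
    have d : x11 ≠ 0 := fun h => hQ (h11.1 h)
    subst a b
    simp [hP, hQ, STRIP2_D2, STRIP2_D1 _ _ c d]
  · have a : x00 ≠ 0 := fun h => hP (h00.1 h)
    have b : x01 ≠ 0 := fun h => hP (h01.1 h)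
    have c := h10.2 hQ
    have d := h11.2 hQ
    subst c d
    simp [hP, hQ, STRIP2_D3, STRIP2_D4 _ _ a b]
  · have a : x00 ≠ 0 := fun h => hP (h00.1 h)
    have b : x01 ≠ 0 := fun h => hP (h01.1 h)
    have c : x10 ≠ 0 := fun h => hQ (h10.1 h)
    have d : x11 ≠ 0 := fun h => hQ (h11.1 h)
    simp [hP, hQ, STRIP2_D5 _ _ _ a c d, STRIP2_D5 _ _ _ a b d]

/-- the edge indicator of two labels different from `0` -/
theorem STRIP2_edge (Q Q' G G' : Prop) [Decidable Q] [Decidable Q'] [Decidable G] [Decidable G'] :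
    STRIP2E (if Q then 1 else if G then 2 else 3) (if Q' then 1 else if G' then 2 else 3) =
      (if (Q ∧ ¬ Q') ∧ G' then 1 else 0) + (if (¬ Q ∧ Q') ∧ G then 1 else 0) := by
  by_cases h1 : Q <;> by_cases h2 : Q' <;> by_cases h3 : G <;> by_cases h4 : G' <;>
    simp only [h1, h2, h3, h4] <;> decide

theorem STRIP2_lam0 (M α β γ d e f g h i j : ℤ) :
    lam M α β γ d e f g h i j = 0 ↔ Near M α (d * i) := by
  unfold lam
  by_cases h1 : Near M α (d * i)
  · simp [h1]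
  · simp only [h1, if_false, iff_false]
    split_ifs <;> decide

open Classical in
/-- the cyclic sum of a column adjacent to a near column -/
theorem STRIP2_col (M : ℕ) (α β γ d e f g h : ℤ) (hd : 0 < d) (hf : 0 < f)
    (hM : d * f ∣ (M : ℤ)) (hα : d * f ∣ α) (hβ : d * f ∣ β) (ha0 : 0 < α) (ha1 : α < M)
    (hb0 : 0 < β) (hb1 : β < M) (i : ℤ)
    (hi : 2 * (M : ℤ) ∣ d * i - α ∨ 2 * (M : ℤ) ∣ d * i + α) :
    ∑ j ∈ Finset.Ico (-(M : ℤ)) M,
      STRIP2E (lam M α β γ d e f g h i j) (lam M α β γ d e f g h i (j + 1)) =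
    ∑ j ∈ Finset.Ico (-(M : ℤ)) M,
      if (2 * (M : ℤ) ∣ e * i + f * j - β ∨ 2 * (M : ℤ) ∣ e * i + f * j + β) ∧
        Near M γ (g * i + h * j) then 1 else 0 := by
  have hnn : ¬ Near M α (d * i) := STRIP2_notnear ha0 ha1 hi
  -- `f ∣ i`
  have hfi : f ∣ i := by
    have h1 : d * f ∣ d * i := by
      rcases hi with hi | hi
      · have h2 : d * f ∣ d * i - α := dvd_trans (dvd_mul_of_dvd_right hM 2) hi
        have h3 := dvd_add h2 hα
        simpa using h3
      · have h2 : d * f ∣ d * i + α := dvd_trans (dvd_mul_of_dvd_right hM 2) hi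
        have h3 := dvd_sub h2 hα
        simpa using h3
    exact (mul_dvd_mul_iff_left hd.ne').1 h1
  have hfe : f ∣ e * i := dvd_mul_of_dvd_right hfi e
  have hfM : f ∣ (M : ℤ) := dvd_trans (dvd_mul_left f d) hM
  have hfβ : f ∣ β := dvd_trans (dvd_mul_left f d) hβ
  have hlam : ∀ j : ℤ, lam M α β γ d e f g h i j =
      if Near M β (e * i + f * j) then 1 else if Near M γ (g * i + h * j) then 2 else 3 := by
    intro j
    unfold lam
    rw [if_neg hnn]
  have hedge : ∀ j : ℤ, STRIP2E (lam M α β γ d e f g h i j) (lam M α β γ d e f g h i (j + 1)) =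
      (if (2 * (M : ℤ) ∣ e * i + f * (j + 1) - β) ∧ Near M γ (g * i + h * (j + 1)) then 1 else 0) +
      (if (2 * (M : ℤ) ∣ e * i + f * j + β) ∧ Near M γ (g * i + h * j) then 1 else 0) := by
    intro j
    rw [hlam, hlam, STRIP2_edge]
    congr 1
    · exact if_congr (and_congr (STRIP2_up hf hfM hfβ hfe hb0 hb1) Iff.rfl) rfl rfl
    · exact if_congr (and_congr (STRIP2_dn hf hfM hfβ hfe hb0 hb1) Iff.rfl) rfl rfl
  simp only [hedge]
  rw [Finset.sum_add_distrib]
  have hsh := STRIP2_shift M (fun j : ℤ => if (2 * (M : ℤ) ∣ e * i + f * j - β) ∧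
      Near M γ (g * i + h * j) then (1 : ZMod 2) else 0) (by
    have e1 : e * i + f * (M : ℤ) - β = (e * i + f * (-(M : ℤ)) - β) + 2 * M * f := by ring
    have e2 : g * i + h * (M : ℤ) = (g * i + h * (-(M : ℤ))) + 2 * M * h := by ring
    refine if_congr (and_congr ?_ ?_) rfl rfl
    · rw [e1]
      exact dvd_add_left (Dvd.intro _ rfl)
    · rw [e2]
      exact STRIP2_near_per _ (Dvd.intro _ rfl))
  rw [hsh, ← Finset.sum_add_distrib]
  refine Finset.sum_congr rfl (fun j _ => ?_)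
  by_cases h1 : 2 * (M : ℤ) ∣ e * i + f * j - β
  · have h2 : ¬ 2 * (M : ℤ) ∣ e * i + f * j + β := fun h2 => STRIP2_excl hb0 hb1 h1 h2
    simp [h1, h2]
  · simp [h1]

theorem t_STRIP2 : S_STRIP := by
  classical
  intro M α β γ d e f g h hd hf hM hα hβ ha0 ha1 hb0 hb1
  have hdM : d ∣ (M : ℤ) := dvd_trans (dvd_mul_right d f) hM
  have hdα : d ∣ α := dvd_trans (dvd_mul_right d f) hα
  have hMpos : 0 < M := by
    by_contra h0
    have : M = 0 := by omega
    subst this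
    simp at ha1
    omega
  set L : ℤ → ℤ → Fin 4 := fun i j => lam M α β γ d e f g h i j with hL
  -- one cell
  have hcell : ∀ i j j' : ℤ, D (L i j) (L (i + 1) j) (L (i + 1) j') +
      D (L i j) (L i j') (L (i + 1) j') =
      (if 2 * (M : ℤ) ∣ d * (i + 1) - α then STRIP2E (L (i + 1) j) (L (i + 1) j') else 0) +
      (if 2 * (M : ℤ) ∣ d * i + α then STRIP2E (L i j) (L i j') else 0) := by
    intro i j j'
    rw [STRIP2_cell (Near M α (d * i)) (Near M α (d * (i + 1))) _ _ _ _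
      (STRIP2_lam0 _ _ _ _ _ _ _ _ _ _ _) (STRIP2_lam0 _ _ _ _ _ _ _ _ _ _ _)
      (STRIP2_lam0 _ _ _ _ _ _ _ _ _ _ _) (STRIP2_lam0 _ _ _ _ _ _ _ _ _ _ _)]
    have u1 := STRIP2_up (M := (M : ℤ)) (α := α) (x := 0) (j := i) hd hdM hdα (dvd_zero _) ha0 ha1
    have u2 := STRIP2_dn (M := (M : ℤ)) (α := α) (x := 0) (j := i) hd hdM hdα (dvd_zero _) ha0 ha1
    simp only [zero_add] at u1 u2
    congr 1
    · exact if_congr u1 rfl rfl
    · exact if_congr u2 rfl rfl
  set T : ℤ → ZMod 2 := fun i => ∑ j ∈ Finset.Ico (-(M : ℤ)) M, STRIP2E (L i j) (L i (j + 1)) with hT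
  have hTsum : ∀ i : ℤ, ∑ j ∈ range M, STRIP2E (L i j) (L i (j + 1)) +
      ∑ j ∈ range M, STRIP2E (L i (-(j : ℤ))) (L i (-((j : ℤ) + 1))) = T i := by
    intro i
    rw [hT]
    simp only []
    rw [← STRIP2_sumboth M (fun j => STRIP2E (L i j) (L i (j + 1)))]
    congr 1
    refine Finset.sum_congr rfl (fun j _ => ?_)
    have e1 : -((j : ℤ) + 1) + 1 = -(j : ℤ) := by ring
    rw [e1, STRIP2E_comm]
  -- rewrite the left hand side
  have hlhs : (∑ i ∈ Finset.range M, ∑ j ∈ Finset.range M,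
      (D (L i j) (L (i + 1) j) (L (i + 1) (j + 1)) +
       D (L i j) (L i (j + 1)) (L (i + 1) (j + 1)))) +
    (∑ i ∈ Finset.range M, ∑ j ∈ Finset.range M,
      (D (L i (-j)) (L (i + 1) (-j)) (L (i + 1) (-(j + 1))) +
       D (L i (-j)) (L i (-(j + 1))) (L (i + 1) (-(j + 1))))) =
      ∑ i ∈ Finset.range M, ((if 2 * (M : ℤ) ∣ d * ((i : ℤ) + 1) - α then T ((i : ℤ) + 1) else 0) +
        (if 2 * (M : ℤ) ∣ d * (i : ℤ) + α then T i else 0)) := by
    rw [← Finset.sum_add_distrib]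
    refine Finset.sum_congr rfl (fun i _ => ?_)
    simp only [hcell]
    rw [Finset.sum_add_distrib, Finset.sum_add_distrib]
    rw [← hTsum ((i : ℤ) + 1), ← hTsum (i : ℤ)]
    by_cases h1 : 2 * (M : ℤ) ∣ d * ((i : ℤ) + 1) - α <;>
      by_cases h2 : 2 * (M : ℤ) ∣ d * (i : ℤ) + α <;>
      simp only [h1, h2, if_true, if_false, Finset.sum_const_zero] <;> ring
  change (∑ i ∈ Finset.range M, ∑ j ∈ Finset.range M,
      (D (L i j) (L (i + 1) j) (L (i + 1) (j + 1)) +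
       D (L i j) (L i (j + 1)) (L (i + 1) (j + 1)))) +
    (∑ i ∈ Finset.range M, ∑ j ∈ Finset.range M,
      (D (L i (-j)) (L (i + 1) (-j)) (L (i + 1) (-(j + 1))) +
       D (L i (-j)) (L i (-(j + 1))) (L (i + 1) (-(j + 1))))) = _
  rw [hlhs, Finset.sum_add_distrib]
  -- `T` at the relevant columns
  set Z : ℤ → ZMod 2 := fun i => ∑ j ∈ Finset.Ico (-(M : ℤ)) M,
      if (2 * (M : ℤ) ∣ e * i + f * j - β ∨ 2 * (M : ℤ) ∣ e * i + f * j + β) ∧
        Near M γ (g * i + h * j) then 1 else 0 with hZ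
  have hTZ : ∀ i : ℤ, (2 * (M : ℤ) ∣ d * i - α ∨ 2 * (M : ℤ) ∣ d * i + α) → T i = Z i :=
    fun i hi => STRIP2_col M α β γ d e f g h hd hf hM hα hβ ha0 ha1 hb0 hb1 i hi
  -- endpoints
  have hend0 : ¬ 2 * (M : ℤ) ∣ d * 0 + α := by
    rintro ⟨k, hk⟩
    rw [mul_zero, zero_add] at hk
    rcases le_or_gt k 0 with h5 | h5
    · nlinarith
    · have : 1 ≤ k := by omega
      nlinarith
  have hendM : ¬ 2 * (M : ℤ) ∣ d * M - α := by
    rintro ⟨k, hk⟩
    have h4 : α = M * (d - 2 * k) := by linarith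
    rcases le_or_gt (d - 2 * k) 0 with h5 | h5
    · nlinarith
    · have : 1 ≤ d - 2 * k := by omega
      nlinarith
  have hs1 : ∑ i ∈ Finset.range M,
      (if 2 * (M : ℤ) ∣ d * ((i : ℤ) + 1) - α then T ((i : ℤ) + 1) else 0) =
      ∑ i ∈ Finset.Ioo (0 : ℤ) M, (if 2 * (M : ℤ) ∣ d * i - α then T i else 0) := by
    have h1 : ∑ i ∈ Finset.range M,
      (if 2 * (M : ℤ) ∣ d * ((i : ℤ) + 1) - α then T ((i : ℤ) + 1) else 0) =
      ∑ i ∈ Finset.Ioc (0 : ℤ) M, (if 2 * (M : ℤ) ∣ d * i - α then T i else 0) := by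
      refine Finset.sum_nbij' (fun j => (j : ℤ) + 1) (fun j => (j - 1).toNat) ?_ ?_ ?_ ?_ ?_
      · intro j hj; simp only [Finset.mem_range] at hj; simp only [Finset.mem_Ioc]; omega
      · intro j hj; simp only [Finset.mem_Ioc] at hj; simp only [Finset.mem_range]; omega
      · intro j hj; omega
      · intro j hj; simp only [Finset.mem_Ioc] at hj; omega
      · intro j hj; rfl
    rw [h1]
    have h2 : Finset.Ioc (0 : ℤ) M = insert (M : ℤ) (Finset.Ioo (0 : ℤ) M) := by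
      ext j; simp only [Finset.mem_insert, Finset.mem_Ioc, Finset.mem_Ioo]; omega
    rw [h2, Finset.sum_insert (by simp), if_neg hendM, zero_add]
  have hs2 : ∑ i ∈ Finset.range M,
      (if 2 * (M : ℤ) ∣ d * (i : ℤ) + α then T i else 0) =
      ∑ i ∈ Finset.Ioo (0 : ℤ) M, (if 2 * (M : ℤ) ∣ d * i + α then T i else 0) := by
    rw [STRIP2_sumpos M (fun i : ℤ => if 2 * (M : ℤ) ∣ d * i + α then T i else 0)]
    have h2 : Finset.Ico (0 : ℤ) M = insert (0 : ℤ) (Finset.Ioo (0 : ℤ) M) := by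
      ext j; simp only [Finset.mem_insert, Finset.mem_Ico, Finset.mem_Ioo]; omega
    rw [h2, Finset.sum_insert (by simp), if_neg hend0, zero_add]
  rw [hs1, hs2, ← Finset.sum_add_distrib]
  -- the right hand side
  unfold zs
  rw [Finset.natCast_card_filter, Finset.sum_product]
  refine Finset.sum_congr rfl (fun i _ => ?_)
  have hexcl : ¬ (2 * (M : ℤ) ∣ d * i - α ∧ 2 * (M : ℤ) ∣ d * i + α) :=
    fun hh => STRIP2_excl ha0 ha1 hh.1 hh.2
  by_cases h1 : 2 * (M : ℤ) ∣ d * i - α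
  · have h2 : ¬ 2 * (M : ℤ) ∣ d * i + α := fun h2 => hexcl ⟨h1, h2⟩
    rw [if_pos h1, if_neg h2, add_zero, hTZ i (Or.inl h1), hZ]
    refine Finset.sum_congr rfl (fun j _ => ?_)
    refine if_congr ?_ rfl rfl
    simp only [h1, true_or, true_and]
  · by_cases h2 : 2 * (M : ℤ) ∣ d * i + α
    · rw [if_neg h1, if_pos h2, zero_add, hTZ i (Or.inr h2), hZ]
      refine Finset.sum_congr rfl (fun j _ => ?_)
      refine if_congr ?_ rfl rfl
      simp only [h2, or_true, true_and]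
    · rw [if_neg h1, if_neg h2, add_zero]
      symm
      apply Finset.sum_eq_zero
      intro j _
      rw [if_neg]
      rintro ⟨h3 | h3, _⟩
      · exact h1 h3
      · exact h2 h3

end H67PP
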